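import Pool.Agent.H66.SI.Sym

set_option autoImplicit false

/-!
Two-sided bounds of the second numerical index of `E ⊕_N E` by the numerical index of the plane
with the norm `N`, for all absolute norms other than the Euclidean one.
-/

namespace Pool.Agent.H66.SI

open scoped InnerProductSpace

/-! ### The numerical index -/

section Index

variable {X : Type} [NormedAddCommGroup X] [NormedSpace ℝ X]

theorem numIndex_nonneg : 0 ≤ numIndex X := by
  apply Real.sInf_nonneg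
  rintro r ⟨T, -, rfl⟩
  exact numRadius_nonneg T

theorem numIndex_mul_norm_le (T : X →L[ℝ] X) : numIndex X * ‖T‖ ≤ numRadius X T := by
  rcases (norm_nonneg T).eq_or_lt with h | h
  · rw [← h, mul_zero]
    exact numRadius_nonneg T
  · have h1 : ‖(‖T‖⁻¹ • T)‖ = 1 := by
      rw [norm_smul, norm_inv, norm_norm, inv_mul_cancel₀ h.ne']
    have h2 : numIndex X ≤ numRadius X (‖T‖⁻¹ • T) := by
      refine csInf_le ⟨0, ?_⟩ ⟨_, h1, rfl⟩
      rintro r ⟨T', -, rfl⟩
      exact numRadius_nonneg T'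
    rw [numRadius_smul (inv_nonneg.2 h.le)] at h2
    calc numIndex X * ‖T‖ ≤ ‖T‖⁻¹ * numRadius X T * ‖T‖ := mul_le_mul_of_nonneg_right h2 h.le
      _ = numRadius X T := by field_simp

end Index

/-- The swap of the coordinates has norm at most `5/4`. -/
theorem AbsNorm.swap_le (N : AbsNorm) (s t : ℝ) : N.val t s ≤ 5 / 4 * N.val s t := by
  -- nonnegative coordinates
  have main : ∀ s t : ℝ, 0 ≤ s → 0 ≤ t → N.val t s ≤ 5 / 4 * N.val s t := by
    intro s t hs ht
    have hn := N.nonneg s t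
    rcases le_total t s with hts | hts
    · rcases hs.eq_or_lt with h0 | h0
      · have : t = 0 := le_antisymm (by linarith) ht
        rw [this, ← h0, N.zero]; norm_num
      · have h1 := N.abs_left_le s t
        rw [abs_of_nonneg hs] at h1
        have hl : 0 ≤ t / s := div_nonneg ht hs
        have hl1 : t / s ≤ 1 := (div_le_one h0).2 hts
        have hmu : 0 ≤ s - t ^ 2 / s := by
          rw [sub_nonneg, div_le_iff₀ h0]; nlinarith
        have e : N.val t s = N.val (t / s * s + 0) (t / s * t + (s - t ^ 2 / s)) := by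
          congr 1
          · field_simp; ring
          · field_simp; ring
        have h2 : N.val t s ≤ t / s * N.val s t + (s - t ^ 2 / s) := by
          rw [e]
          refine (N.add_le' _ _ _ _).trans ?_
          rw [N.smul', abs_of_nonneg hl, N.zero_right, abs_of_nonneg hmu]
        have h3 : (5 / 4 - t / s) * s ≤ (5 / 4 - t / s) * N.val s t :=
          mul_le_mul_of_nonneg_left h1 (by linarith)
        have h4 : s - t ^ 2 / s ≤ (5 / 4 - t / s) * s := by
          have e1 : (5 / 4 - t / s) * s - (s - t ^ 2 / s) = (s - 2 * t) ^ 2 / (4 * s) := by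
            field_simp; ring
          have : 0 ≤ (s - 2 * t) ^ 2 / (4 * s) := by positivity
          linarith
        linarith
    · rcases ht.eq_or_lt with h0 | h0
      · have : s = 0 := le_antisymm (by linarith) hs
        rw [this, ← h0, N.zero]; norm_num
      · have h1 := N.abs_right_le s t
        rw [abs_of_nonneg ht] at h1
        have hl : 0 ≤ s / t := div_nonneg hs ht
        have hl1 : s / t ≤ 1 := (div_le_one h0).2 hts
        have hmu : 0 ≤ t - s ^ 2 / t := by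
          rw [sub_nonneg, div_le_iff₀ h0]; nlinarith
        have e : N.val t s = N.val (s / t * s + (t - s ^ 2 / t)) (s / t * t + 0) := by
          congr 1
          · field_simp; ring
          · field_simp; ring
        have h2 : N.val t s ≤ s / t * N.val s t + (t - s ^ 2 / t) := by
          rw [e]
          refine (N.add_le' _ _ _ _).trans ?_
          rw [N.smul', abs_of_nonneg hl, N.left_zero, abs_of_nonneg hmu]
        have h3 : (5 / 4 - s / t) * t ≤ (5 / 4 - s / t) * N.val s t :=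
          mul_le_mul_of_nonneg_left h1 (by linarith)
        have h4 : t - s ^ 2 / t ≤ (5 / 4 - s / t) * t := by
          have e1 : (5 / 4 - s / t) * t - (t - s ^ 2 / t) = (t - 2 * s) ^ 2 / (4 * t) := by
            field_simp; ring
          have : 0 ≤ (t - 2 * s) ^ 2 / (4 * t) := by positivity
          linarith
        linarith
  have := main |s| |t| (abs_nonneg _) (abs_nonneg _)
  rwa [N.abs', N.abs'] at this

namespace ASum

variable {N : AbsNorm} {E : Type} [NormedAddCommGroup E] [InnerProductSpace ℝ E]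

variable (E) in
/-- Multiplication by a real number, as an operator of `E`. -/
noncomputable def sc (c : ℝ) : E →L[ℝ] E := c • ContinuousLinearMap.id ℝ E

theorem sc_apply (c : ℝ) (y : E) : sc E c y = c • y := rfl

theorem exists_real (T : ASum N ℝ →L[ℝ] ASum N ℝ) : ∃ p β γ q : ℝ,
    T = op N (sc ℝ p) (sc ℝ β) (sc ℝ γ) (sc ℝ q) := by
  obtain ⟨P, B, C, Q, rfl⟩ := exists_op T
  have key : ∀ R : ℝ →L[ℝ] ℝ, R = sc ℝ (R 1) := by
    intro R
    ext
    simp [sc_apply]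
  exact ⟨P 1, B 1, C 1, Q 1, by rw [← key, ← key, ← key, ← key]⟩

/-- The values of a real operator. -/
theorem real_values (p β γ q : ℝ) {s t a b : ℝ} (h : N.IsDualPair s t a b) :
    |a * s * p + b * t * q| + |a * t * β + b * s * γ| ≤
      numRadius (ASum N ℝ) (op N (sc ℝ p) (sc ℝ β) (sc ℝ γ) (sc ℝ q)) := by
  have := diag_add_offdiag_le (sc ℝ p) (sc ℝ β) (sc ℝ γ) (sc ℝ q) h (u := (1 : ℝ)) (v := (1 : ℝ))
    norm_one norm_one
  simpa [sc_apply] using this

theorem real_numRadius_le (p β γ q : ℝ) {V : ℝ} (hV : 0 ≤ V)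
    (h : ∀ s t a b : ℝ, N.IsDualPair s t a b →
      |a * s * p + b * t * q| + |a * t * β + b * s * γ| ≤ V) [CompleteSpace E] [Nontrivial E] :
    numRadius (ASum N E) (op N (sc E p) (sc E β) (sc E γ) (sc E q)) ≤ V := by
  apply numRadius_op_le _ _ _ _ hV
  intro s t a b u v hab hu hv
  have h1 := h s t a b hab
  have h2 : |⟪u, v⟫_ℝ| ≤ 1 := by
    have := abs_real_inner_le_norm u v
    rwa [hu, hv, mul_one] at this
  simp only [sc_apply, real_inner_smul_right, real_inner_self_eq_norm_sq, hu, hv, one_pow,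
    mul_one]
  have e : a * s * p + a * t * (β * ⟪u, v⟫_ℝ) + b * s * (γ * ⟪v, u⟫_ℝ) + b * t * q =
      (a * s * p + b * t * q) + (a * t * β + b * s * γ) * ⟪u, v⟫_ℝ := by
    rw [real_inner_comm u v]; ring
  rw [e]
  calc |(a * s * p + b * t * q) + (a * t * β + b * s * γ) * ⟪u, v⟫_ℝ|
      ≤ |a * s * p + b * t * q| + |(a * t * β + b * s * γ) * ⟪u, v⟫_ℝ| := abs_add_le _ _
    _ ≤ |a * s * p + b * t * q| + |a * t * β + b * s * γ| * 1 := by
        rw [abs_mul]; gcongr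
    _ ≤ V := by linarith

theorem real_norm_le [Nontrivial E] (hN : ∃ s t : ℝ, N.val s t ≠ √(s ^ 2 + t ^ 2))
    (p β γ q : ℝ) {S : ASum N E →L[ℝ] ASum N E} (hS : S ∈ skewHerm (ASum N E)) :
    ‖op N (sc ℝ p) (sc ℝ β) (sc ℝ γ) (sc ℝ q)‖ ≤
      ‖op N (sc E p) (sc E β) (sc E γ) (sc E q) + S‖ := by
  obtain ⟨P, B, C, Q, rfl⟩ := exists_op S
  obtain ⟨hP, hB, hC, hQ⟩ := blocks_of_mem hN hS
  obtain ⟨u, hu⟩ := exists_norm_eq E zero_le_one
  refine ContinuousLinearMap.opNorm_le_bound _ (norm_nonneg _) fun x => ?_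
  have h1 := (op N (sc E p) (sc E β) (sc E γ) (sc E q) + op N P B C Q).le_opNorm
    (mk N (x.1 • u) (x.2 • u))
  have h2 : ‖mk N (x.1 • u) (x.2 • u)‖ = ‖x‖ := by
    rw [norm_mk, norm_smul, norm_smul, hu, mul_one, mul_one]
    rfl
  rw [h2] at h1
  refine le_trans ?_ h1
  rw [op_add, norm_def, norm_def, op_fst, op_snd, op_fst, op_snd, mk_fst, mk_snd, hB, hC]
  apply N.mono
  · rw [abs_norm]
    have h3 := abs_real_inner_le_norm u ((sc E p + P) (x.1 • u) + (sc E β + 0) (x.2 • u))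
    rw [hu, one_mul] at h3
    refine le_trans (le_of_eq ?_) h3
    have e : ⟪u, (sc E p + P) (x.1 • u) + (sc E β + 0) (x.2 • u)⟫_ℝ = p * x.1 + β * x.2 := by
      change ⟪u, (p • x.1 • u + P (x.1 • u)) + (β • x.2 • u + (0 : E →L[ℝ] E) (x.2 • u))⟫_ℝ = _
      rw [map_smul]
      simp only [inner_add_right, real_inner_smul_right, real_inner_self_eq_norm_sq, hu, hP u,
        zero_apply, inner_zero_right]
      ring
    rw [e]
    rfl
  · rw [abs_norm]
    have h3 := abs_real_inner_le_norm u ((sc E γ + 0) (x.1 • u) + (sc E q + Q) (x.2 • u))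
    rw [hu, one_mul] at h3
    refine le_trans (le_of_eq ?_) h3
    have e : ⟪u, (sc E γ + 0) (x.1 • u) + (sc E q + Q) (x.2 • u)⟫_ℝ = γ * x.1 + q * x.2 := by
      change ⟪u, (γ • x.1 • u + (0 : E →L[ℝ] E) (x.1 • u)) + (q • x.2 • u + Q (x.2 • u))⟫_ℝ = _
      rw [map_smul Q]
      simp only [inner_add_right, real_inner_smul_right, real_inner_self_eq_norm_sq, hu, hQ u,
        zero_apply, inner_zero_right]
      ring
    rw [e]
    rfl

/-- Upper bound by the numerical index of the plane. -/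
theorem secondIndex_le_numIndex [CompleteSpace E] [Nontrivial E]
    (hN : ∃ s t : ℝ, N.val s t ≠ √(s ^ 2 + t ^ 2)) :
    secondIndex (ASum N E) ≤ numIndex (ASum N ℝ) := by
  have hne : {r : ℝ | ∃ T : ASum N ℝ →L[ℝ] ASum N ℝ, ‖T‖ = 1 ∧
      r = numRadius (ASum N ℝ) T}.Nonempty := by
    have h0 : rotOp N ℝ ≠ 0 := by
      intro h
      have h1 : (rotOp N ℝ (mk N 0 1)).1 = (1 : ℝ) := by
        rw [rotOp, op_fst, mk_fst, mk_snd]; simp
      rw [h] at h1
      have h2 : ((0 : ASum N ℝ →L[ℝ] ASum N ℝ) (mk N 0 1)).1 = (0 : ℝ) := rfl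
      rw [h2] at h1
      exact zero_ne_one h1
    have h1 : ‖rotOp N ℝ‖ ≠ 0 := norm_ne_zero_iff.2 h0
    exact ⟨_, ‖rotOp N ℝ‖⁻¹ • rotOp N ℝ, by
      rw [norm_smul, norm_inv, norm_norm, inv_mul_cancel₀ h1], rfl⟩
  refine le_csInf hne ?_
  rintro _ ⟨T, hT, rfl⟩
  obtain ⟨p, β, γ, q, rfl⟩ := exists_real T
  refine secondIndex_le (numRadius_nonneg _) (op N (sc E p) (sc E β) (sc E γ) (sc E q))
    (real_numRadius_le p β γ q (numRadius_nonneg _) fun s t a b h => real_values p β γ q h)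
    fun S hS => ?_
  rw [← hT]
  exact real_norm_le hN p β γ q hS

theorem real_norm_ge (p β γ q : ℝ) :
    |β| ≤ ‖op N (sc ℝ p) (sc ℝ β) (sc ℝ γ) (sc ℝ q)‖ ∧
      |γ| ≤ ‖op N (sc ℝ p) (sc ℝ β) (sc ℝ γ) (sc ℝ q)‖ := by
  constructor
  · have h1 := (op N (sc ℝ p) (sc ℝ β) (sc ℝ γ) (sc ℝ q)).le_opNorm (mk N 0 1)
    have h2 : ‖mk N (0 : ℝ) 1‖ = 1 := by rw [norm_mk, norm_zero, norm_one, N.zero_one']
    rw [h2, mul_one, norm_def, op_fst, op_snd, mk_fst, mk_snd] at h1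
    refine le_trans ?_ h1
    have h3 := N.abs_left_le ‖sc ℝ p 0 + sc ℝ β 1‖ ‖sc ℝ γ 0 + sc ℝ q 1‖
    rw [abs_norm] at h3
    refine le_trans (le_of_eq ?_) h3
    simp [sc_apply]
  · have h1 := (op N (sc ℝ p) (sc ℝ β) (sc ℝ γ) (sc ℝ q)).le_opNorm (mk N 1 0)
    have h2 : ‖mk N (1 : ℝ) 0‖ = 1 := by rw [norm_mk, norm_zero, norm_one, N.one_zero']
    rw [h2, mul_one, norm_def, op_fst, op_snd, mk_fst, mk_snd] at h1
    refine le_trans ?_ h1
    have h3 := N.abs_right_le ‖sc ℝ p 1 + sc ℝ β 0‖ ‖sc ℝ γ 1 + sc ℝ q 0‖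
    rw [abs_norm] at h3
    refine le_trans (le_of_eq ?_) h3
    simp [sc_apply]

/-- Off-diagonal blocks and the numerical index of the plane. -/
theorem offdiag_index (P B C Q : E →L[ℝ] E) {u v : E} (hu : ‖u‖ = 1) (hv : ‖v‖ = 1) :
    numIndex (ASum N ℝ) * |⟪u, B v⟫_ℝ| ≤ numRadius (ASum N E) (op N P B C Q) ∧
      numIndex (ASum N ℝ) * |⟪v, C u⟫_ℝ| ≤ numRadius (ASum N E) (op N P B C Q) := by
  have h1 := numIndex_mul_norm_le (op N (sc ℝ ⟪u, P u⟫_ℝ) (sc ℝ ⟪u, B v⟫_ℝ) (sc ℝ ⟪v, C u⟫_ℝ)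
    (sc ℝ ⟪v, Q v⟫_ℝ))
  have h2 : numRadius (ASum N ℝ) (op N (sc ℝ ⟪u, P u⟫_ℝ) (sc ℝ ⟪u, B v⟫_ℝ) (sc ℝ ⟪v, C u⟫_ℝ)
      (sc ℝ ⟪v, Q v⟫_ℝ)) ≤ numRadius (ASum N E) (op N P B C Q) :=
    real_numRadius_le _ _ _ _ (numRadius_nonneg _) fun s t a b h =>
      diag_add_offdiag_le P B C Q h hu hv
  obtain ⟨h3, h4⟩ := real_norm_ge (N := N) ⟪u, P u⟫_ℝ ⟪u, B v⟫_ℝ ⟪v, C u⟫_ℝ ⟪v, Q v⟫_ℝ
  have hn : 0 ≤ numIndex (ASum N ℝ) := numIndex_nonneg
  exact ⟨(mul_le_mul_of_nonneg_left h3 hn).trans (h1.trans h2),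
    (mul_le_mul_of_nonneg_left h4 hn).trans (h1.trans h2)⟩

theorem abs_norm_le [Nontrivial E] {P B C Q : E →L[ℝ] E}
    (hP : ∀ y z : E, ⟪y, P z⟫_ℝ = ⟪z, P y⟫_ℝ) (hQ : ∀ y z : E, ⟪y, Q z⟫_ℝ = ⟪z, Q y⟫_ℝ) :
    numIndex (ASum N ℝ) / (numIndex (ASum N ℝ) + 5 / 4) * ‖op N P B C Q‖ ≤
      numRadius (ASum N E) (op N P B C Q) := by
  have hn0 : 0 ≤ numIndex (ASum N ℝ) := numIndex_nonneg
  rcases hn0.eq_or_lt with hM | hM
  · rw [← hM, zero_div, zero_mul]
    exact numRadius_nonneg _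
  set V := numRadius (ASum N E) (op N P B C Q) with hV
  have hV0 : 0 ≤ V := numRadius_nonneg _
  set n := numIndex (ASum N ℝ) with hnd
  have nP := norm_le_of_form hP (fun u hu => (diag_values (N := N) P B C Q hu).1)
  have nQ := norm_le_of_form hQ (fun u hu => (diag_values (N := N) P B C Q hu).2)
  have nB := norm_le_of_values (B := B) (K := V / n) (fun u v hu hv => by
    rw [le_div_iff₀ hM, mul_comm]
    exact (offdiag_index P B C Q hu hv).1)
  have nC := norm_le_of_values (B := C) (K := V / n) (fun v u hv hu => by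
    rw [le_div_iff₀ hM, mul_comm]
    exact (offdiag_index P B C Q hu hv).2)
  rw [← hV] at nP nQ
  have hVn : 0 ≤ V / n := by positivity
  have h1 : ‖op N P B C Q‖ ≤ V + V / n * (5 / 4) := by
    refine ContinuousLinearMap.opNorm_le_bound _ (by positivity) fun x => ?_
    rw [norm_def, norm_def, op_fst, op_snd]
    have e1 : ‖P x.1 + B x.2‖ ≤ V * ‖x.1‖ + V / n * ‖x.2‖ :=
      (norm_add_le _ _).trans (add_le_add (nP _) (nB _))
    have e2 : ‖C x.1 + Q x.2‖ ≤ V * ‖x.2‖ + V / n * ‖x.1‖ := by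
      refine (norm_add_le _ _).trans ?_
      have := nC x.1
      have := nQ x.2
      linarith
    calc N.val ‖P x.1 + B x.2‖ ‖C x.1 + Q x.2‖
        ≤ N.val (V * ‖x.1‖ + V / n * ‖x.2‖) (V * ‖x.2‖ + V / n * ‖x.1‖) :=
          N.mono (by rwa [abs_norm]) (by rwa [abs_norm])
      _ ≤ N.val (V * ‖x.1‖) (V * ‖x.2‖) + N.val (V / n * ‖x.2‖) (V / n * ‖x.1‖) :=
          N.add_le' _ _ _ _
      _ = V * N.val ‖x.1‖ ‖x.2‖ + V / n * N.val ‖x.2‖ ‖x.1‖ := by
          rw [N.smul', N.smul', abs_of_nonneg hV0, abs_of_nonneg hVn]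
      _ ≤ V * N.val ‖x.1‖ ‖x.2‖ + V / n * (5 / 4 * N.val ‖x.1‖ ‖x.2‖) := by
          have := N.swap_le ‖x.1‖ ‖x.2‖
          gcongr
      _ = (V + V / n * (5 / 4)) * N.val ‖x.1‖ ‖x.2‖ := by ring
  have h2 : 0 ≤ n / (n + 5 / 4) := by positivity
  calc n / (n + 5 / 4) * ‖op N P B C Q‖ ≤ n / (n + 5 / 4) * (V + V / n * (5 / 4)) :=
        mul_le_mul_of_nonneg_left h1 h2
    _ = V := by field_simp

/-- Bounds for all absolute norms other than the Euclidean one. -/
theorem secondIndex_abs [CompleteSpace E] [Nontrivial E]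
    (hN : ∃ s t : ℝ, N.val s t ≠ √(s ^ 2 + t ^ 2)) :
    numIndex (ASum N ℝ) / (numIndex (ASum N ℝ) + 5 / 4) ≤ secondIndex (ASum N E) ∧
      secondIndex (ASum N E) ≤ numIndex (ASum N ℝ) := by
  refine ⟨le_secondIndex_of hN ?_ fun _ _ _ _ hP hQ => abs_norm_le hP hQ,
    secondIndex_le_numIndex hN⟩
  have : 0 ≤ numIndex (ASum N ℝ) := numIndex_nonneg
  positivity

end ASum

end Pool.Agent.H66.SI
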