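import Pool.Agent.H66.SI.Defs

set_option autoImplicit false

namespace Pool.Agent.H66.SI

open scoped InnerProductSpace

/-! ### General facts -/

section General

variable {X : Type} [NormedAddCommGroup X] [NormedSpace ℝ X]

theorem numRadius_bddAbove (T : X →L[ℝ] X) :
    BddAbove {r : ℝ | ∃ (x : X) (f : X →L[ℝ] ℝ), ‖x‖ = 1 ∧ ‖f‖ = 1 ∧ f x = 1 ∧ r = |f (T x)|} := by
  refine ⟨‖T‖, ?_⟩
  rintro r ⟨x, f, hx, hf, -, rfl⟩
  calc |f (T x)| ≤ ‖f‖ * ‖T x‖ := f.le_opNorm _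
    _ ≤ 1 * (‖T‖ * 1) := by
        rw [hf]
        have := T.le_opNorm x
        rw [hx] at this
        linarith
    _ = ‖T‖ := by ring

theorem le_numRadius (T : X →L[ℝ] X) {x : X} {f : X →L[ℝ] ℝ} (hx : ‖x‖ = 1) (hf : ‖f‖ = 1)
    (hfx : f x = 1) : |f (T x)| ≤ numRadius X T :=
  le_csSup (numRadius_bddAbove T) ⟨x, f, hx, hf, hfx, rfl⟩

theorem numRadius_nonneg (T : X →L[ℝ] X) : 0 ≤ numRadius X T := by
  apply Real.sSup_nonneg
  rintro r ⟨x, f, -, -, -, rfl⟩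
  exact abs_nonneg _

theorem numRadius_le (T : X →L[ℝ] X) {M : ℝ} (hM : 0 ≤ M)
    (h : ∀ (x : X) (f : X →L[ℝ] ℝ), ‖x‖ = 1 → ‖f‖ = 1 → f x = 1 → |f (T x)| ≤ M) :
    numRadius X T ≤ M := by
  apply Real.sSup_le _ hM
  rintro r ⟨x, f, hx, hf, hfx, rfl⟩
  exact h x f hx hf hfx

theorem mem_skewHerm_iff (T : X →L[ℝ] X) : T ∈ skewHerm X ↔
    ∀ (x : X) (f : X →L[ℝ] ℝ), ‖x‖ = 1 → ‖f‖ = 1 → f x = 1 → f (T x) = 0 := by
  constructor
  · intro hT x f hx hf hfx
    have h1 := le_numRadius T hx hf hfx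
    have h2 : numRadius X T = 0 := hT
    rw [h2] at h1
    exact abs_eq_zero.1 (le_antisymm h1 (abs_nonneg _))
  · intro h
    apply le_antisymm _ (numRadius_nonneg T)
    apply numRadius_le T le_rfl
    intro x f hx hf hfx
    rw [h x f hx hf hfx, abs_zero]

theorem numRadius_smul {c : ℝ} (hc : 0 ≤ c) (T : X →L[ℝ] X) :
    numRadius X (c • T) = c * numRadius X T := by
  unfold numRadius
  rw [← smul_eq_mul, ← Real.sSup_smul_of_nonneg hc]
  congr 1
  ext r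
  rw [Set.mem_smul_set]
  constructor
  · rintro ⟨x, f, hx, hf, hfx, rfl⟩
    refine ⟨|f (T x)|, ⟨x, f, hx, hf, hfx, rfl⟩, ?_⟩
    simp [abs_mul, abs_of_nonneg hc]
  · rintro ⟨_, ⟨x, f, hx, hf, hfx, rfl⟩, rfl⟩
    refine ⟨x, f, hx, hf, hfx, ?_⟩
    simp [abs_mul, abs_of_nonneg hc]

theorem numRadius_add_skew (T : X →L[ℝ] X) {S : X →L[ℝ] X} (hS : S ∈ skewHerm X) :
    numRadius X (T + S) = numRadius X T := by
  unfold numRadius
  congr 1
  ext r
  constructor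
  · rintro ⟨x, f, hx, hf, hfx, rfl⟩
    refine ⟨x, f, hx, hf, hfx, ?_⟩
    rw [add_apply, map_add, (mem_skewHerm_iff S).1 hS x f hx hf hfx, add_zero]
  · rintro ⟨x, f, hx, hf, hfx, rfl⟩
    refine ⟨x, f, hx, hf, hfx, ?_⟩
    rw [add_apply, map_add, (mem_skewHerm_iff S).1 hS x f hx hf hfx, add_zero]

theorem quotNorm_smul {c : ℝ} (hc : 0 < c) (T : X →L[ℝ] X) :
    quotNorm X (c • T) = c * quotNorm X T := by
  unfold quotNorm
  rw [← smul_eq_mul, ← Real.sInf_smul_of_nonneg hc.le]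
  congr 1
  ext r
  rw [Set.mem_smul_set]
  constructor
  · rintro ⟨S, hS, rfl⟩
    refine ⟨‖T + c⁻¹ • S‖, ⟨c⁻¹ • S, ?_, rfl⟩, ?_⟩
    · rw [mem_skewHerm_iff] at hS ⊢
      intro x f hx hf hfx
      simp [hS x f hx hf hfx]
    · rw [smul_eq_mul, ← abs_of_pos hc, ← Real.norm_eq_abs, ← norm_smul, Real.norm_eq_abs,
        abs_of_pos hc, smul_add, smul_smul, mul_inv_cancel₀ hc.ne', one_smul]
  · rintro ⟨_, ⟨S, hS, rfl⟩, rfl⟩
    refine ⟨c • S, ?_, ?_⟩
    · rw [mem_skewHerm_iff] at hS ⊢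
      intro x f hx hf hfx
      simp [hS x f hx hf hfx]
    · rw [smul_eq_mul]
      nth_rewrite 1 [← abs_of_pos hc]
      rw [← Real.norm_eq_abs, ← norm_smul, smul_add]

theorem zero_mem_skewHerm : (0 : X →L[ℝ] X) ∈ skewHerm X := by
  rw [mem_skewHerm_iff]
  intro x f _ _ _
  simp

theorem quotNorm_le (T : X →L[ℝ] X) {S : X →L[ℝ] X} (hS : S ∈ skewHerm X) :
    quotNorm X T ≤ ‖T + S‖ := by
  refine csInf_le ⟨0, ?_⟩ ⟨S, hS, rfl⟩
  rintro r ⟨S, -, rfl⟩
  exact norm_nonneg _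

theorem le_quotNorm (T : X →L[ℝ] X) {M : ℝ} (h : ∀ S ∈ skewHerm X, M ≤ ‖T + S‖) :
    M ≤ quotNorm X T := by
  refine le_csInf ⟨‖T + 0‖, 0, zero_mem_skewHerm, rfl⟩ ?_
  rintro r ⟨S, hS, rfl⟩
  exact h S hS

/-- An upper bound of the second numerical index from one operator. -/
theorem secondIndex_le {r : ℝ} (hr : 0 ≤ r) (T : X →L[ℝ] X) (h1 : numRadius X T ≤ r)
    (h2 : ∀ S ∈ skewHerm X, 1 ≤ ‖T + S‖) : secondIndex X ≤ r := by
  have hq : 1 ≤ quotNorm X T := le_quotNorm T h2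
  have hq0 : 0 < quotNorm X T := by linarith
  have h3 : quotNorm X ((quotNorm X T)⁻¹ • T) = 1 := by
    rw [quotNorm_smul (inv_pos.2 hq0), inv_mul_cancel₀ hq0.ne']
  have h4 : numRadius X ((quotNorm X T)⁻¹ • T) ≤ r := by
    rw [numRadius_smul (inv_nonneg.2 hq0.le)]
    have h5 : (quotNorm X T)⁻¹ ≤ 1 := inv_le_one_of_one_le₀ hq
    have h6 := numRadius_nonneg T
    calc (quotNorm X T)⁻¹ * numRadius X T ≤ 1 * numRadius X T :=
          mul_le_mul_of_nonneg_right h5 h6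
      _ ≤ r := by linarith
  refine le_trans ?_ h4
  refine csInf_le ⟨0, ?_⟩ ⟨_, h3, rfl⟩
  rintro _ ⟨T', -, rfl⟩
  exact numRadius_nonneg T'

/-- A lower bound of the second numerical index. -/
theorem le_secondIndex {K : ℝ} (T₀ : X →L[ℝ] X) (h0 : 0 < quotNorm X T₀)
    (h : ∀ T : X →L[ℝ] X, ∃ S ∈ skewHerm X, K * ‖T + S‖ ≤ numRadius X T) (hK : 0 ≤ K) :
    K ≤ secondIndex X := by
  refine le_csInf ⟨_, (quotNorm X T₀)⁻¹ • T₀, ?_, rfl⟩ ?_
  · rw [quotNorm_smul (inv_pos.2 h0), inv_mul_cancel₀ h0.ne']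
  · rintro _ ⟨T, hT, rfl⟩
    obtain ⟨S, hS, h1⟩ := h T
    have h2 := quotNorm_le T hS
    rw [hT] at h2
    nlinarith [norm_nonneg (T + S)]

/-- In a nontrivial real inner product space some unit vector is in the direction of `z`. -/
theorem exists_unit {E : Type} [NormedAddCommGroup E] [InnerProductSpace ℝ E] [Nontrivial E]
    (z : E) : ∃ u : E, ‖u‖ = 1 ∧ z = ‖z‖ • u ∧ ⟪u, z⟫_ℝ = ‖z‖ := by
  rcases eq_or_ne z 0 with rfl | hz
  · obtain ⟨u, hu⟩ := exists_norm_eq E zero_le_one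
    exact ⟨u, hu, by simp, by simp⟩
  · have hz' : ‖z‖ ≠ 0 := norm_ne_zero_iff.2 hz
    refine ⟨‖z‖⁻¹ • z, ?_, ?_, ?_⟩
    · rw [norm_smul, norm_inv, norm_norm, inv_mul_cancel₀ hz']
    · rw [smul_smul, mul_inv_cancel₀ hz', one_smul]
    · rw [real_inner_smul_left, real_inner_self_eq_norm_sq]
      field_simp

end General

/-! ### Dual pairs -/

namespace AbsNorm

variable {N : AbsNorm}

theorem IsDualPair.neg_right {s t a b : ℝ} (h : N.IsDualPair s t a b) :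
    N.IsDualPair s (-t) a (-b) := by
  obtain ⟨h1, h2, h3⟩ := h
  refine ⟨by rw [N.neg_right, h1], by linarith, fun x y => ?_⟩
  have := h3 x (-y)
  rw [N.neg_right] at this
  linarith

theorem IsDualPair.neg_left {s t a b : ℝ} (h : N.IsDualPair s t a b) :
    N.IsDualPair (-s) t (-a) b := by
  obtain ⟨h1, h2, h3⟩ := h
  refine ⟨by rw [N.neg_left, h1], by linarith, fun x y => ?_⟩
  have := h3 (-x) y
  rw [N.neg_left] at this
  linarith

theorem IsDualPair.swap {s t a b : ℝ} (hN : ∀ s t, N.val t s = N.val s t)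
    (h : N.IsDualPair s t a b) : N.IsDualPair t s b a := by
  obtain ⟨h1, h2, h3⟩ := h
  refine ⟨by rw [hN, h1], by linarith, fun x y => ?_⟩
  have := h3 y x
  rw [hN] at this
  linarith

theorem IsDualPair.abs_a {s t a b : ℝ} (h : N.IsDualPair s t a b) : |a| ≤ 1 := by
  obtain ⟨-, -, h3⟩ := h
  rw [abs_le]
  constructor
  · have := h3 (-1) 0
    rw [N.neg_left, N.one_zero'] at this
    linarith
  · have := h3 1 0
    rw [N.one_zero'] at this
    linarith

theorem IsDualPair.abs_b {s t a b : ℝ} (h : N.IsDualPair s t a b) : |b| ≤ 1 := by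
  obtain ⟨-, -, h3⟩ := h
  rw [abs_le]
  constructor
  · have := h3 0 (-1)
    rw [N.neg_right, N.zero_one'] at this
    linarith
  · have := h3 0 1
    rw [N.zero_one'] at this
    linarith

theorem IsDualPair.abs_s {s t a b : ℝ} (h : N.IsDualPair s t a b) : |s| ≤ 1 := by
  have := N.abs_left_le s t
  rw [h.1] at this
  exact this

theorem IsDualPair.abs_t {s t a b : ℝ} (h : N.IsDualPair s t a b) : |t| ≤ 1 := by
  have := N.abs_right_le s t
  rw [h.1] at this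
  exact this

theorem isDualPair_one_zero : N.IsDualPair 1 0 1 0 := by
  refine ⟨N.one_zero', by ring, fun x y => ?_⟩
  have := N.abs_left_le x y
  have := le_abs_self x
  linarith

theorem isDualPair_zero_one : N.IsDualPair 0 1 0 1 := by
  refine ⟨N.zero_one', by ring, fun x y => ?_⟩
  have := N.abs_right_le x y
  have := le_abs_self y
  linarith

theorem rotRadius_bddAbove (N : AbsNorm) : BddAbove
    {r : ℝ | ∃ s t a b : ℝ, N.IsDualPair s t a b ∧ r = |a * t - b * s|} := by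
  refine ⟨2, ?_⟩
  rintro r ⟨s, t, a, b, h, rfl⟩
  calc |a * t - b * s| ≤ |a * t| + |b * s| := abs_sub _ _
    _ = |a| * |t| + |b| * |s| := by rw [abs_mul, abs_mul]
    _ ≤ 1 * 1 + 1 * 1 := by
        gcongr
        · exact h.abs_a
        · exact h.abs_t
        · exact h.abs_b
        · exact h.abs_s
    _ = 2 := by norm_num

theorem IsDualPair.le_rotRadius {s t a b : ℝ} (h : N.IsDualPair s t a b) :
    |a * t - b * s| ≤ N.rotRadius :=
  le_csSup N.rotRadius_bddAbove ⟨s, t, a, b, h, rfl⟩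

theorem rotRadius_nonneg (N : AbsNorm) : 0 ≤ N.rotRadius := by
  apply Real.sSup_nonneg
  rintro r ⟨s, t, a, b, h, rfl⟩
  exact abs_nonneg _

/-- To bound `Y` times the rotation radius it is enough to do it at each dual pair. -/
theorem rotRadius_mul_le {Y V : ℝ} (hV : 0 ≤ V)
    (h : ∀ s t a b : ℝ, N.IsDualPair s t a b → |a * t - b * s| * Y ≤ V) :
    N.rotRadius * Y ≤ V := by
  rcases le_or_gt Y 0 with hY | hY
  · nlinarith [N.rotRadius_nonneg]
  · rw [← le_div_iff₀ hY]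
    apply Real.sSup_le _ (div_nonneg hV hY.le)
    rintro r ⟨s, t, a, b, h1, rfl⟩
    rw [le_div_iff₀ hY]
    exact h s t a b h1

end AbsNorm

/-! ### The sums -/

namespace ASum

variable (N : AbsNorm) {E : Type} [NormedAddCommGroup E] [InnerProductSpace ℝ E]

theorem norm_def (x : ASum N E) : ‖x‖ = N.val ‖x.1‖ ‖x.2‖ := rfl

/-- The vector with coordinates `y`, `w`. -/
def mk (y w : E) : ASum N E := (y, w)

theorem mk_fst (y w : E) : (mk N y w).1 = y := rfl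
theorem mk_snd (y w : E) : (mk N y w).2 = w := rfl
theorem norm_mk (y w : E) : ‖mk N y w‖ = N.val ‖y‖ ‖w‖ := rfl

variable {N} in
theorem add_fst (x y : ASum N E) : (x + y).1 = x.1 + y.1 := rfl
variable {N} in
theorem add_snd (x y : ASum N E) : (x + y).2 = x.2 + y.2 := rfl
variable {N} in
theorem smul_fst (c : ℝ) (x : ASum N E) : (c • x).1 = c • x.1 := rfl
variable {N} in
theorem smul_snd (c : ℝ) (x : ASum N E) : (c • x).2 = c • x.2 := rfl

variable {N} in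
theorem ext {x y : ASum N E} (h1 : x.1 = y.1) (h2 : x.2 = y.2) : x = y := Prod.ext h1 h2

/-- The first coordinate. -/
noncomputable def fstL : ASum N E →L[ℝ] E :=
  LinearMap.mkContinuous
    { toFun := fun x => x.1
      map_add' := fun _ _ => rfl
      map_smul' := fun _ _ => rfl } 1 (by
      intro x
      rw [one_mul, norm_def]
      have := N.abs_left_le ‖x.1‖ ‖x.2‖
      rwa [abs_of_nonneg (norm_nonneg _)] at this)

/-- The second coordinate. -/
noncomputable def sndL : ASum N E →L[ℝ] E :=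
  LinearMap.mkContinuous
    { toFun := fun x => x.2
      map_add' := fun _ _ => rfl
      map_smul' := fun _ _ => rfl } 1 (by
      intro x
      rw [one_mul, norm_def]
      have := N.abs_right_le ‖x.1‖ ‖x.2‖
      rwa [abs_of_nonneg (norm_nonneg _)] at this)

/-- The first inclusion. -/
noncomputable def inL : E →L[ℝ] ASum N E :=
  LinearMap.mkContinuous
    { toFun := fun y => mk N y 0
      map_add' := fun y z => ASum.ext rfl (add_zero (0 : E)).symm
      map_smul' := fun c y => ASum.ext rfl (smul_zero c).symm } 1 (by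
      intro y
      change N.val ‖y‖ ‖(0 : E)‖ ≤ 1 * ‖y‖
      rw [norm_zero, N.left_zero, abs_of_nonneg (norm_nonneg _), one_mul])

/-- The second inclusion. -/
noncomputable def inR : E →L[ℝ] ASum N E :=
  LinearMap.mkContinuous
    { toFun := fun y => mk N 0 y
      map_add' := fun y z => ASum.ext (add_zero (0 : E)).symm rfl
      map_smul' := fun c y => ASum.ext (smul_zero c).symm rfl } 1 (by
      intro y
      change N.val ‖(0 : E)‖ ‖y‖ ≤ 1 * ‖y‖
      rw [norm_zero, N.zero_right, abs_of_nonneg (norm_nonneg _), one_mul])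

variable {N}

theorem fstL_apply (x : ASum N E) : fstL N x = x.1 := rfl
theorem sndL_apply (x : ASum N E) : sndL N x = x.2 := rfl
theorem inL_fst (y : E) : (inL N y).1 = y := rfl
theorem inL_snd (y : E) : (inL N y).2 = 0 := rfl
theorem inR_fst (y : E) : (inR N y).1 = 0 := rfl
theorem inR_snd (y : E) : (inR N y).2 = y := rfl
theorem eq_in (x : ASum N E) : x = inL N x.1 + inR N x.2 := by
  apply ASum.ext
  · rw [add_fst, inL_fst, inR_fst, add_zero]
  · rw [add_snd, inL_snd, inR_snd, zero_add]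

variable (N) in
/-- The functional `(y, w) ↦ ⟪a, y⟫ + ⟪b, w⟫`. -/
noncomputable def fn (a b : E) : ASum N E →L[ℝ] ℝ :=
  (innerSL ℝ a).comp (fstL N) + (innerSL ℝ b).comp (sndL N)

theorem fn_apply (a b : E) (x : ASum N E) : fn N a b x = ⟪a, x.1⟫_ℝ + ⟪b, x.2⟫_ℝ := by
  simp [fn, fstL_apply, sndL_apply]

theorem exists_fn [CompleteSpace E] (f : ASum N E →L[ℝ] ℝ) : ∃ a b : E, f = fn N a b := by
  refine ⟨(InnerProductSpace.toDual ℝ E).symm (f.comp (inL N)),
    (InnerProductSpace.toDual ℝ E).symm (f.comp (inR N)), ?_⟩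
  ext x
  rw [fn_apply, InnerProductSpace.toDual_symm_apply, InnerProductSpace.toDual_symm_apply]
  conv_lhs => rw [eq_in x]
  rw [map_add]
  rfl

variable (N) in
/-- The operator with the blocks `P, B, C, Q`. -/
noncomputable def op (P B C Q : E →L[ℝ] E) : ASum N E →L[ℝ] ASum N E :=
  (inL N).comp (P.comp (fstL N) + B.comp (sndL N)) +
    (inR N).comp (C.comp (fstL N) + Q.comp (sndL N))

theorem op_fst (P B C Q : E →L[ℝ] E) (x : ASum N E) : (op N P B C Q x).1 = P x.1 + B x.2 := by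
  change (inL N (P x.1 + B x.2) + inR N (C x.1 + Q x.2)).1 = _
  rw [add_fst, inL_fst, inR_fst, add_zero]

theorem op_snd (P B C Q : E →L[ℝ] E) (x : ASum N E) : (op N P B C Q x).2 = C x.1 + Q x.2 := by
  change (inL N (P x.1 + B x.2) + inR N (C x.1 + Q x.2)).2 = _
  rw [add_snd, inL_snd, inR_snd, zero_add]

theorem exists_op (T : ASum N E →L[ℝ] ASum N E) : ∃ P B C Q : E →L[ℝ] E, T = op N P B C Q := by
  refine ⟨(fstL N).comp (T.comp (inL N)), (fstL N).comp (T.comp (inR N)),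
    (sndL N).comp (T.comp (inL N)), (sndL N).comp (T.comp (inR N)), ?_⟩
  ext x
  apply ASum.ext
  · rw [op_fst]
    conv_lhs => rw [eq_in x]
    rw [map_add]
    rfl
  · rw [op_snd]
    conv_lhs => rw [eq_in x]
    rw [map_add]
    rfl

/-- Numerical value of a block operator. -/
theorem fn_op (P B C Q : E →L[ℝ] E) (u v : E) (s t a b : ℝ) :
    fn N (a • u) (b • v) (op N P B C Q (mk N (s • u) (t • v))) =
      a * s * ⟪u, P u⟫_ℝ + a * t * ⟪u, B v⟫_ℝ + b * s * ⟪v, C u⟫_ℝ + b * t * ⟪v, Q v⟫_ℝ := by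
  rw [fn_apply, op_fst, op_snd, mk_fst, mk_snd]
  simp only [map_smul, inner_add_right, real_inner_smul_left, real_inner_smul_right]
  ring

/-- Dual pairs of the plane give states of `E ⊕_N E`. -/
theorem state_mk {s t a b : ℝ} (h : N.IsDualPair s t a b) {u v : E} (hu : ‖u‖ = 1)
    (hv : ‖v‖ = 1) :
    ‖(mk N (s • u) (t • v))‖ = 1 ∧ ‖fn N (a • u) (b • v)‖ = 1 ∧
      fn N (a • u) (b • v) (mk N (s • u) (t • v)) = 1 := by
  have h1 : ‖(mk N (s • u) (t • v))‖ = 1 := by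
    rw [norm_mk, norm_smul, norm_smul, hu, hv, mul_one, mul_one, Real.norm_eq_abs, Real.norm_eq_abs,
      N.abs', h.1]
  have h2 : fn N (a • u) (b • v) (mk N (s • u) (t • v)) = 1 := by
    rw [fn_apply, mk_fst, mk_snd]
    simp only [real_inner_smul_left, real_inner_smul_right, real_inner_self_eq_norm_sq, hu, hv]
    have := h.2.1
    linarith
  refine ⟨h1, le_antisymm ?_ ?_, h2⟩
  · refine ContinuousLinearMap.opNorm_le_bound _ zero_le_one fun x => ?_
    rw [one_mul, fn_apply, real_inner_smul_left, real_inner_smul_left, norm_def, Real.norm_eq_abs]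
    have e1 : |⟪u, x.1⟫_ℝ| ≤ ‖x.1‖ := by
      have := abs_real_inner_le_norm u x.1
      rwa [hu, one_mul] at this
    have e2 : |⟪v, x.2⟫_ℝ| ≤ ‖x.2‖ := by
      have := abs_real_inner_le_norm v x.2
      rwa [hv, one_mul] at this
    have e3 := N.mono e1 e2
    rw [abs_le]
    constructor
    · have := h.2.2 (-⟪u, x.1⟫_ℝ) (-⟪v, x.2⟫_ℝ)
      rw [N.neg_left, N.neg_right] at this
      linarith
    · have := h.2.2 ⟪u, x.1⟫_ℝ ⟪v, x.2⟫_ℝ
      linarith
  · have := (fn N (a • u) (b • v)).le_opNorm (mk N (s • u) (t • v))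
    rw [h2, h1, mul_one, norm_one] at this
    exact this

/-- States of `E ⊕_N E` come from dual pairs of the plane. -/
theorem state_cases [CompleteSpace E] [Nontrivial E] {x : ASum N E} {f : ASum N E →L[ℝ] ℝ}
    (hx : ‖x‖ = 1) (hf : ‖f‖ = 1) (hfx : f x = 1) :
    ∃ (s t a b : ℝ) (u v : E), N.IsDualPair s t a b ∧ ‖u‖ = 1 ∧ ‖v‖ = 1 ∧
      x = mk N (s • u) (t • v) ∧ f = fn N (a • u) (b • v) := by
  obtain ⟨a', b', rfl⟩ := exists_fn f
  obtain ⟨ua, hua, hua1, hua2⟩ := exists_unit a'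
  obtain ⟨ub, hub, hub1, hub2⟩ := exists_unit b'
  have hdual : ∀ p q : ℝ, ‖a'‖ * p + ‖b'‖ * q ≤ N.val p q := by
    intro p q
    have h1 := (fn N a' b').le_opNorm (mk N (p • ua) (q • ub))
    have h2 : fn N a' b' (mk N (p • ua) (q • ub)) = ‖a'‖ * p + ‖b'‖ * q := by
      rw [fn_apply, mk_fst, mk_snd, real_inner_smul_right, real_inner_smul_right,
        real_inner_comm, hua2, real_inner_comm, hub2]
      ring
    have h3 : ‖(mk N (p • ua) (q • ub))‖ = N.val p q := by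
      rw [norm_mk, norm_smul, norm_smul, hua, hub, mul_one, mul_one, Real.norm_eq_abs, Real.norm_eq_abs,
        N.abs']
    rw [h2, h3, hf, one_mul, Real.norm_eq_abs] at h1
    exact (le_abs_self _).trans h1
  have hx' : N.val ‖x.1‖ ‖x.2‖ = 1 := hx
  rw [fn_apply] at hfx
  have i1 : ⟪a', x.1⟫_ℝ ≤ ‖a'‖ * ‖x.1‖ := real_inner_le_norm _ _
  have i2 : ⟪b', x.2⟫_ℝ ≤ ‖b'‖ * ‖x.2‖ := real_inner_le_norm _ _
  have i3 := hdual ‖x.1‖ ‖x.2‖
  rw [hx'] at i3
  have j1 : ⟪a', x.1⟫_ℝ = ‖a'‖ * ‖x.1‖ := by linarith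
  have j2 : ⟪b', x.2⟫_ℝ = ‖b'‖ * ‖x.2‖ := by linarith
  have key : ∀ a y : E, ⟪a, y⟫_ℝ = ‖a‖ * ‖y‖ → ∃ u : E, ‖u‖ = 1 ∧ a = ‖a‖ • u ∧ y = ‖y‖ • u := by
    intro a y h
    rw [inner_eq_norm_mul_iff_real] at h
    rcases eq_or_ne a 0 with rfl | ha
    · obtain ⟨u, hu, hu1, -⟩ := exists_unit y
      exact ⟨u, hu, by simp, hu1⟩
    · obtain ⟨u, hu, hu1, -⟩ := exists_unit a
      refine ⟨u, hu, hu1, ?_⟩
      have ha' : ‖a‖ ≠ 0 := norm_ne_zero_iff.2 ha
      have h2 : ‖a‖ • y = ‖a‖ • (‖y‖ • u) := by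
        rw [← h, smul_comm, ← hu1]
      exact smul_right_injective E ha' h2
  obtain ⟨u, hu, hu1, hu2⟩ := key a' x.1 j1
  obtain ⟨v, hv, hv1, hv2⟩ := key b' x.2 j2
  refine ⟨‖x.1‖, ‖x.2‖, ‖a'‖, ‖b'‖, u, v, ⟨hx', by linarith, hdual⟩, hu, hv, ?_, ?_⟩
  · apply ASum.ext
    · exact hu2
    · exact hv2
  · rw [← hu1, ← hv1]

/-- The numerical radius of a block operator is bounded by a bound of its values. -/
theorem numRadius_op_le [CompleteSpace E] [Nontrivial E] (P B C Q : E →L[ℝ] E) {V : ℝ}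
    (hV : 0 ≤ V)
    (h : ∀ (s t a b : ℝ) (u v : E), N.IsDualPair s t a b → ‖u‖ = 1 → ‖v‖ = 1 →
      |a * s * ⟪u, P u⟫_ℝ + a * t * ⟪u, B v⟫_ℝ + b * s * ⟪v, C u⟫_ℝ + b * t * ⟪v, Q v⟫_ℝ| ≤ V) :
    numRadius (ASum N E) (op N P B C Q) ≤ V := by
  apply numRadius_le _ hV
  intro x f hx hf hfx
  obtain ⟨s, t, a, b, u, v, h1, hu, hv, rfl, rfl⟩ := state_cases hx hf hfx
  rw [fn_op]
  exact h s t a b u v h1 hu hv

theorem le_numRadius_op (P B C Q : E →L[ℝ] E) {s t a b : ℝ} {u v : E}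
    (h : N.IsDualPair s t a b) (hu : ‖u‖ = 1) (hv : ‖v‖ = 1) :
    |a * s * ⟪u, P u⟫_ℝ + a * t * ⟪u, B v⟫_ℝ + b * s * ⟪v, C u⟫_ℝ + b * t * ⟪v, Q v⟫_ℝ| ≤
      numRadius (ASum N E) (op N P B C Q) := by
  obtain ⟨h1, h2, h3⟩ := state_mk h hu hv
  rw [← fn_op]
  exact le_numRadius _ h1 h2 h3

/-- Diagonal and off-diagonal parts of the values. -/
theorem diag_add_offdiag_le (P B C Q : E →L[ℝ] E) {s t a b : ℝ} {u v : E}
    (h : N.IsDualPair s t a b) (hu : ‖u‖ = 1) (hv : ‖v‖ = 1) :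
    |a * s * ⟪u, P u⟫_ℝ + b * t * ⟪v, Q v⟫_ℝ| + |a * t * ⟪u, B v⟫_ℝ + b * s * ⟪v, C u⟫_ℝ| ≤
      numRadius (ASum N E) (op N P B C Q) := by
  have h1 := le_numRadius_op P B C Q h hu hv
  have hv' : ‖-v‖ = 1 := by rw [norm_neg, hv]
  have h2 := le_numRadius_op P B C Q h hu hv'
  simp only [map_neg, inner_neg_left, inner_neg_right, neg_neg, mul_neg] at h2
  rw [abs_le] at h1 h2
  rcases abs_cases (a * s * ⟪u, P u⟫_ℝ + b * t * ⟪v, Q v⟫_ℝ) with ⟨e1, -⟩ | ⟨e1, -⟩ <;>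
  rcases abs_cases (a * t * ⟪u, B v⟫_ℝ + b * s * ⟪v, C u⟫_ℝ) with ⟨e2, -⟩ | ⟨e2, -⟩ <;>
  rw [e1, e2] <;> linarith

/-- Diagonal operators with skew entries are skew-hermitian. -/
theorem diag_skew_mem [CompleteSpace E] [Nontrivial E] (P Q : E →L[ℝ] E)
    (hP : ∀ y, ⟪y, P y⟫_ℝ = 0) (hQ : ∀ y, ⟪y, Q y⟫_ℝ = 0) :
    op N P 0 0 Q ∈ skewHerm (ASum N E) := by
  apply le_antisymm _ (numRadius_nonneg _)
  apply numRadius_op_le _ _ _ _ le_rfl
  intro s t a b u v _ _ _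
  simp [hP, hQ]

end ASum

end Pool.Agent.H66.SI
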