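import Mathlib

set_option autoImplicit false

/-!
Numerical radius, numerical index, second numerical index; absolute norms on the plane and the
sums of two copies of a real normed space which they define.
-/

namespace Pool.Agent.H66.SI

section Defs

variable (X : Type) [NormedAddCommGroup X] [NormedSpace ℝ X]

/-- The numerical radius of an operator on a real normed space. -/
noncomputable def numRadius (T : X →L[ℝ] X) : ℝ :=
  sSup {r : ℝ | ∃ (x : X) (f : X →L[ℝ] ℝ), ‖x‖ = 1 ∧ ‖f‖ = 1 ∧ f x = 1 ∧ r = |f (T x)|}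

/-- The skew-hermitian operators: those of numerical radius zero. -/
def skewHerm : Set (X →L[ℝ] X) := {T | numRadius X T = 0}

/-- The quotient norm of the class of `T` modulo the skew-hermitian operators. -/
noncomputable def quotNorm (T : X →L[ℝ] X) : ℝ :=
  sInf {r : ℝ | ∃ S ∈ skewHerm X, r = ‖T + S‖}

/-- The second numerical index of a real normed space. -/
noncomputable def secondIndex : ℝ :=
  sInf {r : ℝ | ∃ T : X →L[ℝ] X, quotNorm X T = 1 ∧ r = numRadius X T}

/-- The numerical index of a real normed space. -/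
noncomputable def numIndex : ℝ :=
  sInf {r : ℝ | ∃ T : X →L[ℝ] X, ‖T‖ = 1 ∧ r = numRadius X T}

end Defs

/-- An absolute norm on the plane, with `(1,0)` and `(0,1)` of norm one. -/
structure AbsNorm where
  /-- the norm of `(s, t)` -/
  val : ℝ → ℝ → ℝ
  smul' : ∀ r s t : ℝ, val (r * s) (r * t) = |r| * val s t
  add_le' : ∀ s t s' t' : ℝ, val (s + s') (t + t') ≤ val s t + val s' t'
  abs' : ∀ s t : ℝ, val |s| |t| = val s t
  one_zero' : val 1 0 = 1
  zero_one' : val 0 1 = 1

namespace AbsNorm

variable (N : AbsNorm)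

/-- `(s, t)` is a unit vector of the plane with the norm `N`, `(a, b)` (acting as
`(x, y) ↦ a x + b y`) a functional of norm one, and the value of the functional at the vector is
one. -/
def IsDualPair (s t a b : ℝ) : Prop :=
  N.val s t = 1 ∧ a * s + b * t = 1 ∧ ∀ x y : ℝ, a * x + b * y ≤ N.val x y

/-- The supremum of `|a t - b s|` over all dual pairs: the numerical radius of the rotation
`(s, t) ↦ (t, -s)` of the plane with the norm `N`. -/
noncomputable def rotRadius : ℝ :=
  sSup {r : ℝ | ∃ s t a b : ℝ, N.IsDualPair s t a b ∧ r = |a * t - b * s|}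

theorem zero : N.val 0 0 = 0 := by
  have := N.smul' 0 1 0
  simpa using this

theorem neg_left (s t : ℝ) : N.val (-s) t = N.val s t := by
  rw [← N.abs' (-s) t, abs_neg, N.abs']

theorem neg_right (s t : ℝ) : N.val s (-t) = N.val s t := by
  rw [← N.abs' s (-t), abs_neg, N.abs']

theorem nonneg (s t : ℝ) : 0 ≤ N.val s t := by
  have h := N.add_le' s t (-s) (-t)
  rw [N.neg_left, N.neg_right] at h
  simp only [add_neg_cancel, N.zero] at h
  linarith

theorem mono_left {s s' t : ℝ} (h : |s| ≤ s') : N.val s t ≤ N.val s' t := by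
  have hs' : 0 ≤ s' := (abs_nonneg s).trans h
  rcases hs'.eq_or_lt with h0 | h0
  · rw [← h0] at h ⊢
    rw [abs_nonpos_iff.1 h]
  · have h1 := abs_le.1 h
    set l : ℝ := (1 + s / s') / 2 with hl
    have hl0 : 0 ≤ l := by
      have : -1 ≤ s / s' := by rw [le_div_iff₀ h0]; linarith
      rw [hl]; linarith
    have hl1 : l ≤ 1 := by
      have : s / s' ≤ 1 := by rw [div_le_iff₀ h0]; linarith
      rw [hl]; linarith
    have e1 : s = l * s' + (1 - l) * (-s') := by
      rw [hl]; field_simp; ring
    have e2 : t = l * t + (1 - l) * t := by ring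
    calc N.val s t = N.val (l * s' + (1 - l) * (-s')) (l * t + (1 - l) * t) := by
            rw [← e1, ← e2]
      _ ≤ N.val (l * s') (l * t) + N.val ((1 - l) * (-s')) ((1 - l) * t) := N.add_le' _ _ _ _
      _ = l * N.val s' t + (1 - l) * N.val s' t := by
            rw [N.smul', N.smul', N.neg_left, abs_of_nonneg hl0, abs_of_nonneg (by linarith)]
      _ = N.val s' t := by ring

theorem mono_right {s t t' : ℝ} (h : |t| ≤ t') : N.val s t ≤ N.val s t' := by
  have ht' : 0 ≤ t' := (abs_nonneg t).trans h
  rcases ht'.eq_or_lt with h0 | h0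
  · rw [← h0] at h ⊢
    rw [abs_nonpos_iff.1 h]
  · have h1 := abs_le.1 h
    set l : ℝ := (1 + t / t') / 2 with hl
    have hl0 : 0 ≤ l := by
      have : -1 ≤ t / t' := by rw [le_div_iff₀ h0]; linarith
      rw [hl]; linarith
    have hl1 : l ≤ 1 := by
      have : t / t' ≤ 1 := by rw [div_le_iff₀ h0]; linarith
      rw [hl]; linarith
    have e1 : t = l * t' + (1 - l) * (-t') := by
      rw [hl]; field_simp; ring
    have e2 : s = l * s + (1 - l) * s := by ring
    calc N.val s t = N.val (l * s + (1 - l) * s) (l * t' + (1 - l) * (-t')) := by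
            rw [← e1, ← e2]
      _ ≤ N.val (l * s) (l * t') + N.val ((1 - l) * s) ((1 - l) * (-t')) := N.add_le' _ _ _ _
      _ = l * N.val s t' + (1 - l) * N.val s t' := by
            rw [N.smul', N.smul', N.neg_right, abs_of_nonneg hl0, abs_of_nonneg (by linarith)]
      _ = N.val s t' := by ring

theorem mono {s t s' t' : ℝ} (hs : |s| ≤ s') (ht : |t| ≤ t') : N.val s t ≤ N.val s' t' :=
  (N.mono_left hs).trans (N.mono_right ht)

theorem left_zero (s : ℝ) : N.val s 0 = |s| := by
  have := N.smul' s 1 0
  rw [mul_one, mul_zero, N.one_zero', mul_one] at this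
  exact this

theorem zero_right (t : ℝ) : N.val 0 t = |t| := by
  have := N.smul' t 0 1
  rw [mul_one, mul_zero, N.zero_one', mul_one] at this
  exact this

theorem abs_left_le (s t : ℝ) : |s| ≤ N.val s t := by
  have := N.mono_right (s := s) (t := 0) (t' := |t|) (by simp)
  rw [N.left_zero] at this
  rwa [← N.abs', abs_abs, N.abs'] at this

theorem abs_right_le (s t : ℝ) : |t| ≤ N.val s t := by
  have := N.mono_left (s := 0) (s' := |s|) (t := t) (by simp)
  rw [N.zero_right] at this
  rwa [← N.abs', abs_abs, N.abs'] at this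

theorem le_add (s t : ℝ) : N.val s t ≤ |s| + |t| := by
  have := N.add_le' s 0 0 t
  rwa [add_zero, zero_add, N.left_zero, N.zero_right] at this

end AbsNorm

/-- The sum `E ⊕_N E` of two copies of `E` given by the absolute norm `N`: the vector space
`E × E` with the norm `‖(y, w)‖ = N(‖y‖, ‖w‖)`. For `E = ℝ` it is the plane with the norm `N`, for
`E = ℂ` it is `ℂ ⊕_N ℂ`. -/
def ASum (_N : AbsNorm) (E : Type) : Type := E × E

namespace ASum

variable (N : AbsNorm) (E : Type) [NormedAddCommGroup E] [NormedSpace ℝ E]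

noncomputable instance : AddCommGroup (ASum N E) := inferInstanceAs (AddCommGroup (E × E))

noncomputable instance : Module ℝ (ASum N E) := inferInstanceAs (Module ℝ (E × E))

noncomputable instance : Norm (ASum N E) := ⟨fun x => N.val ‖x.1‖ ‖x.2‖⟩

theorem core : NormedSpace.Core ℝ (ASum N E) where
  norm_nonneg x := N.nonneg _ _
  norm_smul c x := by
    change N.val ‖c • x.1‖ ‖c • x.2‖ = ‖c‖ * N.val ‖x.1‖ ‖x.2‖
    rw [norm_smul, norm_smul, N.smul', abs_of_nonneg (norm_nonneg c)]
  norm_triangle x y := by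
    change N.val ‖x.1 + y.1‖ ‖x.2 + y.2‖ ≤ N.val ‖x.1‖ ‖x.2‖ + N.val ‖y.1‖ ‖y.2‖
    refine (N.mono ?_ ?_).trans (N.add_le' _ _ _ _)
    · rw [abs_of_nonneg (norm_nonneg _)]
      exact norm_add_le _ _
    · rw [abs_of_nonneg (norm_nonneg _)]
      exact norm_add_le _ _
  norm_eq_zero_iff x := by
    constructor
    · intro h
      change N.val ‖x.1‖ ‖x.2‖ = 0 at h
      have h1 := N.abs_left_le ‖x.1‖ ‖x.2‖
      have h2 := N.abs_right_le ‖x.1‖ ‖x.2‖
      rw [h, abs_of_nonneg (norm_nonneg _)] at h1 h2
      have h3 : x.1 = 0 := norm_le_zero_iff.1 h1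
      have h4 : x.2 = 0 := norm_le_zero_iff.1 h2
      exact Prod.ext h3 h4
    · rintro rfl
      change N.val ‖(0 : E)‖ ‖(0 : E)‖ = 0
      rw [norm_zero, N.zero]

noncomputable instance : NormedAddCommGroup (ASum N E) := NormedAddCommGroup.ofCore (core N E)

noncomputable instance : NormedSpace ℝ (ASum N E) :=
  NormedSpace.ofCore (core N E)

end ASum

end Pool.Agent.H66.SI
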