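import Pool.Agent.H66.SI.Defs

set_option autoImplicit false

/-!
The `ℓ_p` norms on the plane.
-/

namespace Pool.Agent.H66.SI

/-- The norm `(|s|^p + |t|^p)^(1/p)` on the plane, `1 ≤ p < ∞`. -/
noncomputable def lpNorm (p : ℝ) (hp : 1 ≤ p) : AbsNorm where
  val s t := (|s| ^ p + |t| ^ p) ^ (1 / p)
  smul' r s t := by
    have hp0 : p ≠ 0 := by linarith
    rw [abs_mul, abs_mul, Real.mul_rpow (abs_nonneg _) (abs_nonneg _),
      Real.mul_rpow (abs_nonneg _) (abs_nonneg _), ← mul_add,
      Real.mul_rpow (by positivity) (by positivity), ← Real.rpow_mul (abs_nonneg _),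
      mul_one_div_cancel hp0, Real.rpow_one]
  add_le' s t s' t' := by
    have := Real.Lp_add_le (Finset.univ : Finset (Fin 2)) ![s, t] ![s', t'] hp
    simpa [Fin.sum_univ_two] using this
  abs' s t := by rw [abs_abs, abs_abs]
  one_zero' := by
    rw [abs_one, abs_zero, Real.one_rpow, Real.zero_rpow (by linarith), add_zero, Real.one_rpow]
  zero_one' := by
    rw [abs_one, abs_zero, Real.one_rpow, Real.zero_rpow (by linarith), zero_add, Real.one_rpow]

end Pool.Agent.H66.SI
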