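import Pool.Agent.H66.SI.Sym
import Pool.Agent.H66.SI.LpDef

set_option autoImplicit false

/-!
The rotation radius of the `ℓ_p` norms on the plane.
-/

namespace Pool.Agent.H66.SI

open scoped Topology

theorem lpNorm_val (p : ℝ) (hp : 1 ≤ p) (s t : ℝ) :
    (lpNorm p hp).val s t = (|s| ^ p + |t| ^ p) ^ (1 / p) := rfl

theorem lpNorm_symm (p : ℝ) (hp : 1 ≤ p) (s t : ℝ) :
    (lpNorm p hp).val t s = (lpNorm p hp).val s t := by
  rw [lpNorm_val, lpNorm_val, add_comm]

theorem lpNorm_rpow (p : ℝ) (hp : 1 ≤ p) (s t : ℝ) :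
    (lpNorm p hp).val s t ^ p = |s| ^ p + |t| ^ p := by
  rw [lpNorm_val, ← Real.rpow_mul (by positivity), one_div_mul_cancel (by linarith), Real.rpow_one]

theorem lpNorm_ne (p : ℝ) (hp : 1 ≤ p) (h2 : p ≠ 2) :
    ∃ s t : ℝ, (lpNorm p hp).val s t ≠ √(s ^ 2 + t ^ 2) := by
  refine ⟨1, 1, fun h => h2 ?_⟩
  rw [lpNorm_val] at h
  simp only [abs_one, Real.one_rpow, one_pow] at h
  have e : (1 + 1 : ℝ) = 2 := by norm_num
  rw [e, Real.sqrt_eq_rpow] at h
  have h3 := congrArg Real.log h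
  rw [Real.log_rpow (by norm_num), Real.log_rpow (by norm_num)] at h3
  have h4 : Real.log 2 ≠ 0 := (Real.log_pos (by norm_num)).ne'
  have h5 := mul_right_cancel₀ h4 h3
  have h6 : p ≠ 0 := by linarith
  field_simp at h5
  linarith

/-- The rotation part of a dual pair. -/
theorem lpNorm_omega {p : ℝ} (hp : 1 < p) {s t a b : ℝ}
    (h : (lpNorm p hp.le).IsDualPair s t a b) :
    a * t - b * s = |s| ^ (p - 2) * s * t - |t| ^ (p - 2) * t * s := by
  set w := a * t - b * s with hw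
  have hp0 : 0 < p := by linarith
  -- the derivative of the norm to the power `p` along the rotation
  have d1 : HasDerivAt (fun k : ℝ => |s - k * t| ^ p) (p * |s - 0 * t| ^ (p - 2) * (s - 0 * t) *
      (-t)) 0 := by
    have h1 : HasDerivAt (fun k : ℝ => s - k * t) (-t) 0 := by
      have := ((hasDerivAt_id (0 : ℝ)).mul_const t).const_sub s
      simpa using this
    exact (hasDerivAt_abs_rpow (s - 0 * t) hp).comp 0 h1
  have d2 : HasDerivAt (fun k : ℝ => |t + k * s| ^ p) (p * |t + 0 * s| ^ (p - 2) * (t + 0 * s) *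
      s) 0 := by
    have h1 : HasDerivAt (fun k : ℝ => t + k * s) s 0 := by
      have := ((hasDerivAt_id (0 : ℝ)).mul_const s).const_add t
      simpa using this
    exact (hasDerivAt_abs_rpow (t + 0 * s) hp).comp 0 h1
  have d3 : HasDerivAt (fun k : ℝ => |1 - k * w| ^ p)
      (p * |1 - 0 * w| ^ (p - 2) * (1 - 0 * w) * (-w)) 0 := by
    have h1 : HasDerivAt (fun k : ℝ => 1 - k * w) (-w) 0 := by
      have := ((hasDerivAt_id (0 : ℝ)).mul_const w).const_sub 1
      simpa using this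
    exact (hasDerivAt_abs_rpow (1 - 0 * w) hp).comp 0 h1
  have d4 := (d1.add d2).sub d3
  have hN1 : |s| ^ p + |t| ^ p = 1 := by
    rw [← lpNorm_rpow p hp.le, h.1, Real.one_rpow]
  have hmin : IsLocalMin (fun k : ℝ => |s - k * t| ^ p + |t + k * s| ^ p - |1 - k * w| ^ p) 0 := by
    have hev : ∀ᶠ k : ℝ in 𝓝 0, 0 < 1 - k * w := by
      have hc : Filter.Tendsto (fun k : ℝ => 1 - k * w) (𝓝 0) (𝓝 (1 - 0 * w)) :=
        (continuous_const.sub (continuous_id.mul continuous_const)).tendsto 0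
      rw [zero_mul, sub_zero] at hc
      exact hc.eventually (lt_mem_nhds one_pos)
    filter_upwards [hev] with k hk
    have h1 := h.2.2 (s - k * t) (t + k * s)
    have e : a * (s - k * t) + b * (t + k * s) = 1 - k * w := by
      have := h.2.1
      calc a * (s - k * t) + b * (t + k * s) = (a * s + b * t) - k * (a * t - b * s) := by ring
        _ = _ := by rw [this]
    rw [e] at h1
    have h2 : (1 - k * w) ^ p ≤ (lpNorm p hp.le).val (s - k * t) (t + k * s) ^ p :=
      Real.rpow_le_rpow hk.le h1 hp0.le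
    rw [lpNorm_rpow] at h2
    rw [abs_of_pos hk]
    simp only [zero_mul, sub_zero, add_zero, abs_one, Real.one_rpow]
    linarith
  have h3 := hmin.hasDerivAt_eq_zero d4
  simp only [zero_mul, sub_zero, add_zero, abs_one, Real.one_rpow, mul_one] at h3
  have h4 : p * (w - (|s| ^ (p - 2) * s * t - |t| ^ (p - 2) * t * s)) = 0 := by linarith
  rcases mul_eq_zero.1 h4 with h5 | h5
  · exact absurd h5 hp0.ne'
  · linarith

/-- The value at the direction `(1, τ)`. -/
theorem lp_value {p : ℝ} {s t τ : ℝ} (hs : 0 < s) (hτ : 0 < τ) (ht : t = τ * s)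
    (h1 : s ^ p + t ^ p = 1) :
    |(|s| ^ (p - 2) * s * t - |t| ^ (p - 2) * t * s)| = |τ ^ (p - 1) - τ| / (1 + τ ^ p) := by
  have ht0 : 0 < t := by rw [ht]; positivity
  have hsp : s ^ p * (1 + τ ^ p) = 1 := by
    rw [ht, Real.mul_rpow hτ.le hs.le] at h1
    linarith
  have hpos : 0 < 1 + τ ^ p := by positivity
  have e1 : s ^ (p - 2) * s * s = s ^ p := by
    rw [mul_assoc, ← sq, ← Real.rpow_natCast s 2, ← Real.rpow_add hs]
    congr 1
    push_cast
    ring
  have e2 : τ ^ (p - 2) * τ = τ ^ (p - 1) := by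
    nth_rewrite 2 [← Real.rpow_one τ]
    rw [← Real.rpow_add hτ]
    congr 1
    ring
  have e3 : |s| ^ (p - 2) * s * t - |t| ^ (p - 2) * t * s = s ^ p * (τ - τ ^ (p - 1)) := by
    rw [abs_of_pos hs, abs_of_pos ht0, ht, Real.mul_rpow hτ.le hs.le, ← e1, ← e2]
    ring
  rw [e3, abs_mul, abs_of_pos (Real.rpow_pos_of_pos hs p), abs_sub_comm, eq_div_iff hpos.ne']
  calc s ^ p * |τ ^ (p - 1) - τ| * (1 + τ ^ p) = (s ^ p * (1 + τ ^ p)) * |τ ^ (p - 1) - τ| := by
        ring
    _ = _ := by rw [hsp, one_mul]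

/-- The constant `M_p`. -/
theorem lpNorm_rotRadius {p : ℝ} (hp : 1 < p) : (lpNorm p hp.le).rotRadius =
    sSup {r : ℝ | ∃ τ : ℝ, 0 ≤ τ ∧ τ ≤ 1 ∧ r = |τ ^ (p - 1) - τ| / (1 + τ ^ p)} := by
  have hp0 : 0 < p := by linarith
  -- each value is at most the rotation radius
  have hle : ∀ τ : ℝ, 0 ≤ τ → |τ ^ (p - 1) - τ| / (1 + τ ^ p) ≤ (lpNorm p hp.le).rotRadius := by
    intro τ hτ
    rcases hτ.eq_or_lt with h0 | h0
    · rw [← h0, Real.zero_rpow (by linarith : p - 1 ≠ 0), sub_zero, abs_zero, zero_div]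
      exact AbsNorm.rotRadius_nonneg _
    · have hpos : 0 < 1 + τ ^ p := by positivity
      set s : ℝ := ((1 + τ ^ p)⁻¹) ^ (1 / p) with hs
      have hs0 : 0 < s := by rw [hs]; positivity
      have hsp : s ^ p = (1 + τ ^ p)⁻¹ := by
        rw [hs, ← Real.rpow_mul (by positivity), one_div_mul_cancel hp0.ne', Real.rpow_one]
      have h1 : s ^ p + (τ * s) ^ p = 1 := by
        rw [Real.mul_rpow h0.le hs0.le, hsp]
        field_simp
      have hv : (lpNorm p hp.le).val s (τ * s) = 1 := by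
        rw [lpNorm_val, abs_of_pos hs0, abs_of_pos (mul_pos h0 hs0), h1, Real.one_rpow]
      obtain ⟨a, b, hab⟩ := AbsNorm.exists_dualPair hv
      have h2 := hab.le_rotRadius
      rw [lpNorm_omega hp hab, lp_value hs0 h0 rfl h1] at h2
      exact h2
  have hbdd : BddAbove {r : ℝ | ∃ τ : ℝ, 0 ≤ τ ∧ τ ≤ 1 ∧ r = |τ ^ (p - 1) - τ| / (1 + τ ^ p)} := by
    refine ⟨(lpNorm p hp.le).rotRadius, ?_⟩
    rintro r ⟨τ, h0, -, rfl⟩
    exact hle τ h0
  have hnn : 0 ≤ sSup {r : ℝ | ∃ τ : ℝ, 0 ≤ τ ∧ τ ≤ 1 ∧ r = |τ ^ (p - 1) - τ| / (1 + τ ^ p)} := by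
    apply Real.sSup_nonneg
    rintro r ⟨τ, h0, -, rfl⟩
    positivity
  apply le_antisymm
  · apply Real.sSup_le _ hnn
    rintro r ⟨s₀, t₀, a₀, b₀, h₀, rfl⟩
    obtain ⟨s, t, a, b, hs, ht, h, he⟩ := AbsNorm.IsDualPair.exists_nonneg h₀
    rw [← he]
    -- the case `t ≤ s`
    have main : ∀ s t a b : ℝ, 0 ≤ s → 0 ≤ t → t ≤ s → (lpNorm p hp.le).IsDualPair s t a b →
        |a * t - b * s| ≤
          sSup {r : ℝ | ∃ τ : ℝ, 0 ≤ τ ∧ τ ≤ 1 ∧ r = |τ ^ (p - 1) - τ| / (1 + τ ^ p)} := by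
      intro s t a b hs ht hts h
      have hN1 : s ^ p + t ^ p = 1 := by
        have := lpNorm_rpow p hp.le s t
        rw [h.1, Real.one_rpow, abs_of_nonneg hs, abs_of_nonneg ht] at this
        exact this.symm
      have hs0 : 0 < s := by
        rcases hs.eq_or_lt with h0 | h0
        · exfalso
          have : t = 0 := le_antisymm (by linarith) ht
          rw [← h0, this, Real.zero_rpow hp0.ne'] at hN1
          norm_num at hN1
        · exact h0
      rcases ht.eq_or_lt with h0 | h0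
      · have e : a * t - b * s = 0 := by
          rw [lpNorm_omega hp h, ← h0]; ring
        rw [e, abs_zero]
        exact hnn
      · rw [lpNorm_omega hp h, lp_value hs0 (div_pos h0 hs0) (by field_simp) hN1]
        exact le_csSup hbdd ⟨t / s, by positivity, (div_le_one hs0).2 hts, rfl⟩
    rcases le_total t s with hts | hts
    · exact main s t a b hs ht hts h
    · have := main t s b a ht hs hts (h.swap (lpNorm_symm p hp.le))
      rwa [abs_sub_comm] at this
  · apply Real.sSup_le _ (AbsNorm.rotRadius_nonneg _)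
    rintro r ⟨τ, h0, -, rfl⟩
    exact hle τ h0

end Pool.Agent.H66.SI
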