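import Pool.Agent.H66.SI.Paya

set_option autoImplicit false

/-!
Absolute norms whose square on the Euclidean unit circle is a `1/6`-Lipschitz function of
`(s t)^2`: dual pairs, and the bound of the norm of an operator of `E ⊕_N E` by its numerical
radius.
-/

namespace Pool.Agent.H66.SI

open scoped InnerProductSpace

namespace AbsNorm

variable {N : AbsNorm}

/-- The hypothesis, for all vectors. -/
theorem near_hom
    (H : ∀ s t s' t' : ℝ, s ^ 2 + t ^ 2 = 1 → s' ^ 2 + t' ^ 2 = 1 →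
      |N.val s t ^ 2 - N.val s' t' ^ 2| ≤ 1 / 6 * |(s * t) ^ 2 - (s' * t') ^ 2|)
    {x y x' y' R R' : ℝ} (hR : x ^ 2 + y ^ 2 = R) (hR' : x' ^ 2 + y' ^ 2 = R') (h0 : 0 < R)
    (h0' : 0 < R') :
    |N.val x y ^ 2 * R' - N.val x' y' ^ 2 * R| * (R * R') ≤
      1 / 6 * |(x * y) ^ 2 * R' ^ 2 - (x' * y') ^ 2 * R ^ 2| := by
  have hs : 0 < √R := Real.sqrt_pos.2 h0
  have hs' : 0 < √R' := Real.sqrt_pos.2 h0'
  have q : √R ^ 2 = R := Real.sq_sqrt h0.le
  have q' : √R' ^ 2 = R' := Real.sq_sqrt h0'.le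
  have e1 : (x / √R) ^ 2 + (y / √R) ^ 2 = 1 := by
    rw [div_pow, div_pow, q, ← add_div, hR, div_self h0.ne']
  have e2 : (x' / √R') ^ 2 + (y' / √R') ^ 2 = 1 := by
    rw [div_pow, div_pow, q', ← add_div, hR', div_self h0'.ne']
  have h1 := H _ _ _ _ e1 e2
  rw [val_div hs, val_div hs', div_pow, div_pow, q, q'] at h1
  have e3 : x / √R * (y / √R) = x * y / R := by
    rw [div_mul_div_comm, ← sq, q]
  have e4 : x' / √R' * (y' / √R') = x' * y' / R' := by
    rw [div_mul_div_comm, ← sq, q']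
  rw [e3, e4] at h1
  have hp : 0 < (R * R') ^ 2 := by positivity
  have h2 := mul_le_mul_of_nonneg_right h1 hp.le
  have e5 : |N.val x y ^ 2 / R - N.val x' y' ^ 2 / R'| * (R * R') ^ 2 =
      |N.val x y ^ 2 * R' - N.val x' y' ^ 2 * R| * (R * R') := by
    have : N.val x y ^ 2 / R - N.val x' y' ^ 2 / R' =
        (N.val x y ^ 2 * R' - N.val x' y' ^ 2 * R) / (R * R') := by
      field_simp
    rw [this, abs_div, abs_of_pos (mul_pos h0 h0')]
    field_simp
  have e6 : 1 / 6 * |(x * y / R) ^ 2 - (x' * y' / R') ^ 2| * (R * R') ^ 2 =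
      1 / 6 * |(x * y) ^ 2 * R' ^ 2 - (x' * y') ^ 2 * R ^ 2| := by
    have : (x * y / R) ^ 2 - (x' * y' / R') ^ 2 =
        ((x * y) ^ 2 * R' ^ 2 - (x' * y') ^ 2 * R ^ 2) / (R * R') ^ 2 := by
      field_simp
    rw [this, abs_div, abs_of_pos hp]
    field_simp
  rw [e5, e6] at h2
  exact h2

section

variable (H : ∀ s t s' t' : ℝ, s ^ 2 + t ^ 2 = 1 → s' ^ 2 + t' ^ 2 = 1 →
      |N.val s t ^ 2 - N.val s' t' ^ 2| ≤ 1 / 6 * |(s * t) ^ 2 - (s' * t') ^ 2|)

include H

theorem near_symm (s t : ℝ) : N.val t s = N.val s t := by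
  by_cases h : s ≠ 0 ∨ t ≠ 0
  · have hR : 0 < s ^ 2 + t ^ 2 := by
      rcases h with h | h <;> positivity
    have h1 := near_hom H (x := t) (y := s) (x' := s) (y' := t) (R := s ^ 2 + t ^ 2)
      (R' := s ^ 2 + t ^ 2) (by ring) rfl hR hR
    have e : (t * s) ^ 2 * (s ^ 2 + t ^ 2) ^ 2 - (s * t) ^ 2 * (s ^ 2 + t ^ 2) ^ 2 = 0 := by ring
    rw [e, abs_zero, mul_zero] at h1
    have h2 : |N.val t s ^ 2 * (s ^ 2 + t ^ 2) - N.val s t ^ 2 * (s ^ 2 + t ^ 2)| ≤ 0 := by
      by_contra hc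
      push Not at hc
      have := mul_pos hc (mul_pos hR hR)
      linarith
    have h3 : (N.val t s ^ 2 - N.val s t ^ 2) * (s ^ 2 + t ^ 2) = 0 := by
      have := abs_nonpos_iff.1 h2
      linarith
    rcases mul_eq_zero.1 h3 with h4 | h4
    · have h5 : N.val t s ^ 2 = N.val s t ^ 2 := by linarith
      rwa [sq_eq_sq₀ (N.nonneg _ _) (N.nonneg _ _)] at h5
    · exact absurd h4 hR.ne'
  · push Not at h
    rw [h.1, h.2]

theorem near_val (s t : ℝ) : |N.val s t ^ 2 - (s ^ 2 + t ^ 2)| ≤ (s ^ 2 + t ^ 2) / 24 := by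
  by_cases h : s ≠ 0 ∨ t ≠ 0
  · have hR : 0 < s ^ 2 + t ^ 2 := by
      rcases h with h | h <;> positivity
    have h1 := near_hom H (x := s) (y := t) (x' := 1) (y' := 0) (R := s ^ 2 + t ^ 2)
      (R' := 1) rfl (by ring) hR one_pos
    rw [N.one_zero'] at h1
    have e : (s * t) ^ 2 * 1 ^ 2 - (1 * 0 : ℝ) ^ 2 * (s ^ 2 + t ^ 2) ^ 2 = (s * t) ^ 2 := by ring
    have e2 : N.val s t ^ 2 * 1 - 1 ^ 2 * (s ^ 2 + t ^ 2) = N.val s t ^ 2 - (s ^ 2 + t ^ 2) := by
      ring
    rw [e, e2, mul_one, abs_of_nonneg (sq_nonneg (s * t))] at h1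
    have h2 : (s * t) ^ 2 ≤ (s ^ 2 + t ^ 2) ^ 2 / 4 := by nlinarith [sq_nonneg (s ^ 2 - t ^ 2)]
    have h3 : |N.val s t ^ 2 - (s ^ 2 + t ^ 2)| * (s ^ 2 + t ^ 2) ≤
        (s ^ 2 + t ^ 2) / 24 * (s ^ 2 + t ^ 2) := by nlinarith
    exact le_of_mul_le_mul_right h3 hR
  · push Not at h
    rw [h.1, h.2, N.zero]
    norm_num

/-- The rotation part of a dual pair. -/
theorem near_omega {s t a b : ℝ} (h : N.IsDualPair s t a b) :
    (s ^ 2 + t ^ 2) * |a * t - b * s| ≤ 1 / 6 * (|s * t| * |s ^ 2 - t ^ 2|) := by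
  have hst : s ≠ 0 ∨ t ≠ 0 := by
    by_contra hc
    push Not at hc
    have := h.1
    rw [hc.1, hc.2, N.zero] at this
    exact zero_ne_one this
  have hR : 0 < s ^ 2 + t ^ 2 := by
    rcases hst with h | h <;> positivity
  set R := s ^ 2 + t ^ 2 with hRdef
  set e := s * t with he
  set d := s ^ 2 - t ^ 2 with hd
  set w := a * t - b * s with hw
  have step : ∀ k : ℝ, -2 * k * w * R ≤ R * k ^ 2 + 1 / 6 * (2 * |k| * (|e| * |d|) +
      k ^ 2 * |4 * e ^ 2 - d ^ 2|) := by
    intro k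
    have h1 : 1 - k * w ≤ N.val (s - k * t) (t + k * s) := by
      have := h.2.2 (s - k * t) (t + k * s)
      have e1 := h.2.1
      have : a * (s - k * t) + b * (t + k * s) = (a * s + b * t) - k * w := by
        rw [hw]; ring
      linarith
    have h2 : 1 - 2 * (k * w) ≤ N.val (s - k * t) (t + k * s) ^ 2 := by
      nlinarith [sq_nonneg (N.val (s - k * t) (t + k * s) - 1)]
    have hk : 0 < 1 + k ^ 2 := by positivity
    have h3 := near_hom H (x := s) (y := t) (x' := s - k * t) (y' := t + k * s) (R := R)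
      (R' := (1 + k ^ 2) * R) rfl (by rw [hRdef]; ring) hR (mul_pos hk hR)
    rw [h.1] at h3
    have e2 : (s * t) ^ 2 * ((1 + k ^ 2) * R) ^ 2 - ((s - k * t) * (t + k * s)) ^ 2 * R ^ 2 =
        R ^ 2 * (-(2 * k * (e * d)) * (1 - k ^ 2) + k ^ 2 * (4 * e ^ 2 - d ^ 2)) := by
      rw [he, hd]; ring
    rw [e2, abs_mul, abs_of_pos (pow_pos hR 2)] at h3
    set n := N.val (s - k * t) (t + k * s) ^ 2 with hn
    have e3 : (1 : ℝ) ^ 2 * ((1 + k ^ 2) * R) - n * R = R * ((1 + k ^ 2) - n) := by ring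
    rw [e3, abs_mul, abs_of_pos hR] at h3
    have h4 : R * |(1 + k ^ 2) - n| * (1 + k ^ 2) ≤
        1 / 6 * |-(2 * k * (e * d)) * (1 - k ^ 2) + k ^ 2 * (4 * e ^ 2 - d ^ 2)| := by
      have h5 : R ^ 2 * (R * |(1 + k ^ 2) - n| * (1 + k ^ 2)) ≤ R ^ 2 *
        (1 / 6 * |-(2 * k * (e * d)) * (1 - k ^ 2) + k ^ 2 * (4 * e ^ 2 - d ^ 2)|) := by
        calc R ^ 2 * (R * |(1 + k ^ 2) - n| * (1 + k ^ 2))
            = R * |(1 + k ^ 2) - n| * (R * ((1 + k ^ 2) * R)) := by ring
          _ ≤ _ := h3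
          _ = _ := by ring
      exact le_of_mul_le_mul_left h5 (pow_pos hR 2)
    have h6 : |-(2 * k * (e * d)) * (1 - k ^ 2) + k ^ 2 * (4 * e ^ 2 - d ^ 2)| ≤
        (2 * |k| * (|e| * |d|) + k ^ 2 * |4 * e ^ 2 - d ^ 2|) * (1 + k ^ 2) := by
      have h7 : |1 - k ^ 2| ≤ 1 + k ^ 2 := by
        rw [abs_le]; constructor <;> nlinarith [sq_nonneg k]
      have h8 : 0 ≤ |e| * |d| := by positivity
      have h9 : 0 ≤ |4 * e ^ 2 - d ^ 2| := abs_nonneg _
      calc |-(2 * k * (e * d)) * (1 - k ^ 2) + k ^ 2 * (4 * e ^ 2 - d ^ 2)|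
          ≤ |-(2 * k * (e * d)) * (1 - k ^ 2)| + |k ^ 2 * (4 * e ^ 2 - d ^ 2)| := abs_add_le _ _
        _ = 2 * |k| * (|e| * |d|) * |1 - k ^ 2| + k ^ 2 * |4 * e ^ 2 - d ^ 2| := by
            rw [abs_mul, abs_mul (k ^ 2), abs_neg, abs_mul (2 * k), abs_mul 2, abs_mul e,
              abs_of_nonneg (sq_nonneg k), abs_two]
        _ ≤ 2 * |k| * (|e| * |d|) * (1 + k ^ 2) +
            k ^ 2 * |4 * e ^ 2 - d ^ 2| * (1 + k ^ 2) := by
            have h7' : 0 ≤ k ^ 2 * |4 * e ^ 2 - d ^ 2| := by positivity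
            have h8' : 0 ≤ 2 * |k| * (|e| * |d|) := by positivity
            exact add_le_add (mul_le_mul_of_nonneg_left h7 h8')
              (le_mul_of_one_le_right h7' (by linarith [sq_nonneg k]))
        _ = _ := by ring
    have h10 : R * |(1 + k ^ 2) - n| ≤
        1 / 6 * (2 * |k| * (|e| * |d|) + k ^ 2 * |4 * e ^ 2 - d ^ 2|) := by
      have h11 : R * |(1 + k ^ 2) - n| * (1 + k ^ 2) ≤
          1 / 6 * (2 * |k| * (|e| * |d|) + k ^ 2 * |4 * e ^ 2 - d ^ 2|) * (1 + k ^ 2) := by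
        linarith
      exact le_of_mul_le_mul_right h11 hk
    have h12 : n - (1 + k ^ 2) ≤ |(1 + k ^ 2) - n| := by
      rw [abs_sub_comm]; exact le_abs_self _
    have h13 : R * (n - (1 + k ^ 2)) ≤ R * |(1 + k ^ 2) - n| :=
      mul_le_mul_of_nonneg_left h12 hR.le
    nlinarith
  -- let `k` tend to zero
  set K := R + |4 * e ^ 2 - d ^ 2| with hK
  have hK0 : 0 < K := by
    have := abs_nonneg (4 * e ^ 2 - d ^ 2)
    rw [hK]; linarith
  apply le_of_forall_pos_le_add
  intro ε hε
  have h1 : ∀ k : ℝ, 0 < k → R * |w| ≤ 1 / 6 * (|e| * |d|) + k * K := by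
    intro k hk
    have h4 := abs_nonneg (4 * e ^ 2 - d ^ 2)
    have h2 : 2 * k * |w| * R ≤ R * k ^ 2 + 1 / 6 * (2 * k * (|e| * |d|) +
      k ^ 2 * |4 * e ^ 2 - d ^ 2|) := by
      rcases le_or_gt 0 w with hw0 | hw0
      · have := step (-k)
        rw [abs_neg, abs_of_pos hk] at this
        rw [abs_of_nonneg hw0]
        nlinarith
      · have := step k
        rw [abs_of_pos hk] at this
        rw [abs_of_neg hw0]
        nlinarith
    have h3 : k * (2 * (R * |w|)) ≤ k * (2 * (1 / 6 * (|e| * |d|)) + k * K) := by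
      rw [hK]
      nlinarith [mul_nonneg (sq_nonneg k) h4]
    have h5 := le_of_mul_le_mul_left h3 hk
    have h6 : 0 ≤ k * K := by positivity
    linarith
  have := h1 (ε / K) (by positivity)
  rwa [div_mul_cancel₀ _ hK0.ne'] at this

end

end AbsNorm

/-- The facts about a dual pair with nonnegative coordinates which are used. -/
theorem pair_facts {s t a b : ℝ} (hs : 0 ≤ s) (ht : 0 ≤ t) (h1 : a * s + b * t = 1)
    (hR : s ^ 2 + t ^ 2 ≤ 24 / 23)
    (hw : (s ^ 2 + t ^ 2) * |a * t - b * s| ≤ 1 / 6 * (|s * t| * |s ^ 2 - t ^ 2|)) :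
    0 ≤ a * t ∧ 0 ≤ b * s ∧ |a * s - b * t| ≤ 1 ∧
      19 / 2 * |a * t - b * s| * (a * t + b * s) ≤
        (a * t + b * s - |a * t - b * s|) * |a * s - b * t| ∧
      21 / 2 * |a * t - b * s| ≤ a * t + b * s := by
  have hR0 : 0 < s ^ 2 + t ^ 2 := by
    by_contra hc
    have h2 : s ^ 2 + t ^ 2 = 0 := by
      apply le_antisymm (not_lt.1 hc); positivity
    have h3 : s = 0 := by nlinarith [sq_nonneg s, sq_nonneg t]
    have h4 : t = 0 := by nlinarith [sq_nonneg s, sq_nonneg t]
    rw [h3, h4] at h1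
    simp at h1
  set R := s ^ 2 + t ^ 2 with hRdef
  set w := a * t - b * s with hwdef
  obtain ⟨E, hE⟩ : ∃ E, E = s * t / R := ⟨_, rfl⟩
  obtain ⟨D, hD⟩ : ∃ D, D = (s ^ 2 - t ^ 2) / R := ⟨_, rfl⟩
  have hE' : s * t = E * R := by rw [hE]; field_simp
  have hD' : s ^ 2 - t ^ 2 = D * R := by rw [hD]; field_simp
  have hE0 : 0 ≤ E := by rw [hE]; positivity
  have hED : 4 * E ^ 2 + D ^ 2 = 1 := by
    have h2 : 4 * (E * R) ^ 2 + (D * R) ^ 2 = R ^ 2 := by
      rw [← hE', ← hD', hRdef]; ring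
    have h3 : (4 * E ^ 2 + D ^ 2) * R ^ 2 = 1 * R ^ 2 := by linarith
    exact mul_right_cancel₀ (pow_pos hR0 2).ne' h3
  have hD1 : |D| ≤ 1 := by
    rw [abs_le]; constructor <;> nlinarith [sq_nonneg E]
  have hE1 : E ≤ 1 / 2 := by nlinarith [sq_nonneg D]
  have hwE : |w| ≤ 4 / 23 * (E * |D|) := by
    rw [hE', hD', abs_mul, abs_mul, abs_of_nonneg hE0, abs_of_pos hR0] at hw
    have h2 : R * |w| ≤ R * (1 / 6 * R * (E * |D|)) := by
      calc R * |w| ≤ _ := hw
        _ = _ := by ring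
    have h3 := le_of_mul_le_mul_left h2 hR0
    have h4 : 0 ≤ E * |D| := by positivity
    calc |w| ≤ 1 / 6 * R * (E * |D|) := h3
      _ ≤ 1 / 6 * (24 / 23) * (E * |D|) := by gcongr
      _ = _ := by ring
  have hD0 : 0 ≤ |D| := abs_nonneg _
  have hw0 : 0 ≤ |w| := abs_nonneg _
  -- coordinates of the functional
  have ea : a * R = s + t * w := by
    rw [hRdef, hwdef]
    calc a * (s ^ 2 + t ^ 2) = s * (a * s + b * t) + t * (a * t - b * s) := by ring
      _ = _ := by rw [h1, mul_one]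
  have eb : b * R = t - s * w := by
    rw [hRdef, hwdef]
    calc b * (s ^ 2 + t ^ 2) = t * (a * s + b * t) - s * (a * t - b * s) := by ring
      _ = _ := by rw [h1, mul_one]
  have es2 : s ^ 2 = (1 + D) / 2 * R := by
    have : s ^ 2 + t ^ 2 = R := hRdef.symm
    linarith
  have et2 : t ^ 2 = (1 - D) / 2 * R := by
    have : s ^ 2 + t ^ 2 = R := hRdef.symm
    linarith
  have eat : a * t = E + (1 - D) / 2 * w := by
    have : a * t * R = (E + (1 - D) / 2 * w) * R := by
      calc a * t * R = t * (a * R) := by ring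
        _ = s * t + t ^ 2 * w := by rw [ea]; ring
        _ = _ := by rw [hE', et2]; ring
    exact mul_right_cancel₀ hR0.ne' this
  have ebs : b * s = E - (1 + D) / 2 * w := by
    have : b * s * R = (E - (1 + D) / 2 * w) * R := by
      calc b * s * R = s * (b * R) := by ring
        _ = s * t - s ^ 2 * w := by rw [eb]; ring
        _ = _ := by rw [hE', es2]; ring
    exact mul_right_cancel₀ hR0.ne' this
  have eas : a * s = (1 + D) / 2 + E * w := by
    have : a * s * R = ((1 + D) / 2 + E * w) * R := by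
      calc a * s * R = s * (a * R) := by ring
        _ = s ^ 2 + s * t * w := by rw [ea]; ring
        _ = _ := by rw [hE', es2]; ring
    exact mul_right_cancel₀ hR0.ne' this
  have ebt : b * t = (1 - D) / 2 - E * w := by
    have : b * t * R = ((1 - D) / 2 - E * w) * R := by
      calc b * t * R = t * (b * R) := by ring
        _ = t ^ 2 - s * t * w := by rw [eb]; ring
        _ = _ := by rw [hE', et2]; ring
    exact mul_right_cancel₀ hR0.ne' this
  have hDl := (abs_le.1 hD1).1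
  have hDu := (abs_le.1 hD1).2
  have hwl := neg_abs_le w
  have hwu := le_abs_self w
  have hwE1 : |w| ≤ 4 / 23 * E := by
    have : E * |D| ≤ E * 1 := mul_le_mul_of_nonneg_left hD1 hE0
    linarith
  -- sum and difference
  have eS : a * t + b * s = 2 * E - D * w := by rw [eat, ebs]; ring
  have eD : a * s - b * t = D + 2 * E * w := by rw [eas, ebt]; ring
  have hDw : |D * w| ≤ 4 / 23 * E := by
    rw [abs_mul]
    calc |D| * |w| ≤ 1 * |w| := mul_le_mul_of_nonneg_right hD1 hw0
      _ ≤ _ := by linarith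
  have hS : 42 / 23 * E ≤ a * t + b * s := by
    rw [eS]
    have := le_abs_self (D * w)
    linarith
  have hEw : |2 * E * w| ≤ 2 / 23 * |D| := by
    rw [abs_mul, abs_of_nonneg (by linarith : 0 ≤ 2 * E)]
    have h2 : 2 * E * |w| ≤ 2 * E * (4 / 23 * (E * |D|)) :=
      mul_le_mul_of_nonneg_left hwE (by linarith)
    have h3 : E * E ≤ 1 / 2 * (1 / 2) := mul_le_mul hE1 hE1 hE0 (by norm_num)
    have h4 : E * E * |D| ≤ 1 / 2 * (1 / 2) * |D| := mul_le_mul_of_nonneg_right h3 hD0
    calc 2 * E * |w| ≤ 2 * E * (4 / 23 * (E * |D|)) := h2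
      _ = 8 / 23 * (E * E * |D|) := by ring
      _ ≤ 8 / 23 * (1 / 2 * (1 / 2) * |D|) := by linarith
      _ = 2 / 23 * |D| := by ring
  refine ⟨?_, ?_, ?_, ?_, ?_⟩
  · rw [eat]
    have h2 : |(1 - D) / 2 * w| ≤ |w| := by
      rw [abs_mul]
      have : |(1 - D) / 2| ≤ 1 := by rw [abs_le]; constructor <;> linarith
      exact mul_le_of_le_one_left hw0 this
    have := neg_abs_le ((1 - D) / 2 * w)
    linarith
  · rw [ebs]
    have h2 : |(1 + D) / 2 * w| ≤ |w| := by
      rw [abs_mul]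
      have : |(1 + D) / 2| ≤ 1 := by rw [abs_le]; constructor <;> linarith
      exact mul_le_of_le_one_left hw0 this
    have := le_abs_self ((1 + D) / 2 * w)
    linarith
  · -- |a s - b t| ≤ 1
    have h2 : 0 ≤ a * s := by
      rw [eas]
      have h3 : E ^ 2 ≤ (1 + D) / 2 := by
        have : 0 ≤ (1 + D) * (1 + D) := mul_self_nonneg _
        linarith
      have h4 : |E * w| ≤ 4 / 23 * E ^ 2 := by
        rw [abs_mul, abs_of_nonneg hE0]
        calc E * |w| ≤ E * (4 / 23 * E) := mul_le_mul_of_nonneg_left hwE1 hE0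
          _ = _ := by ring
      have := neg_abs_le (E * w)
      have h5 : 0 ≤ E ^ 2 := sq_nonneg E
      linarith
    have h2' : 0 ≤ b * t := by
      rw [ebt]
      have h3 : E ^ 2 ≤ (1 - D) / 2 := by
        have : 0 ≤ (1 - D) * (1 - D) := mul_self_nonneg _
        linarith
      have h4 : |E * w| ≤ 4 / 23 * E ^ 2 := by
        rw [abs_mul, abs_of_nonneg hE0]
        calc E * |w| ≤ E * (4 / 23 * E) := mul_le_mul_of_nonneg_left hwE1 hE0
          _ = _ := by ring
      have := le_abs_self (E * w)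
      have h5 : 0 ≤ E ^ 2 := sq_nonneg E
      linarith
    rw [abs_le]
    constructor <;> linarith
  · -- the main inequality
    have h2 : 21 / 23 * |D| ≤ |a * s - b * t| := by
      rw [eD]
      have h3 : |D| ≤ |D + 2 * E * w| + |2 * E * w| := by
        calc |D| = |(D + 2 * E * w) - 2 * E * w| := by congr 1; ring
          _ ≤ _ := abs_sub _ _
      linarith
    have hS0 : 0 ≤ a * t + b * s := by linarith
    have h4 : 19 / 21 * (a * t + b * s) ≤ a * t + b * s - |w| := by linarith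
    calc 19 / 2 * |w| * (a * t + b * s)
        ≤ 19 / 2 * (4 / 23 * (E * |D|)) * (a * t + b * s) := by
          gcongr
      _ ≤ 19 / 2 * (4 / 23 * (1 / 2 * |D|)) * (a * t + b * s) := by
          gcongr
      _ = 19 / 21 * (a * t + b * s) * (21 / 23 * |D|) := by ring
      _ ≤ (a * t + b * s - |w|) * |a * s - b * t| := by
          apply mul_le_mul h4 h2 (by positivity)
          have := mul_nonneg (by norm_num : (0:ℝ) ≤ 19 / 21) hS0
          linarith
  · linarith

/-- The consequences for the four numbers `p, q, β, γ`. -/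
theorem four_numbers {a' b' A B p q β γ V : ℝ} (hA : 0 ≤ A) (hB : 0 ≤ B) (hab : a' + b' = 1)
    (hd : |a' - b'| ≤ 1) (h3 : 19 / 2 * |A - B| * (A + B) ≤ (A + B - |A - B|) * |a' - b'|)
    (h4 : 21 / 2 * |A - B| ≤ A + B)
    (i1 : |a' * p + b' * q| + |A * β + B * γ| ≤ V)
    (i2 : |b' * p + a' * q| + |B * β + A * γ| ≤ V) :
    |A - B| * (|β| + 19 / 4 * (|p| + |q|)) ≤ V ∧
      |A - B| * (|β| + 19 / 4 * |β + γ|) ≤ V := by
  have hV : 0 ≤ V := by
    have := abs_nonneg (a' * p + b' * q)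
    have := abs_nonneg (A * β + B * γ)
    linarith
  have hw0 : 0 ≤ |A - B| := abs_nonneg _
  constructor
  · rcases (add_nonneg hA hB).eq_or_lt with hS | hS
    · have : |A - B| = 0 := by linarith
      rw [this, zero_mul]
      exact hV
    · -- the `β` part
      have e1 : (A + B) * (|A - B| * |β|) ≤ A * |A * β + B * γ| + B * |B * β + A * γ| := by
        have : (A + B) * (|A - B| * |β|) = |A * (A * β + B * γ) - B * (B * β + A * γ)| := by
          calc (A + B) * (|A - B| * |β|) = |A + B| * |(A - B) * β| := by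
                rw [abs_mul, abs_of_pos hS]
            _ = |(A + B) * ((A - B) * β)| := (abs_mul _ _).symm
            _ = _ := by congr 1; ring
        rw [this]
        calc |A * (A * β + B * γ) - B * (B * β + A * γ)|
            ≤ |A * (A * β + B * γ)| + |B * (B * β + A * γ)| := abs_sub _ _
          _ = _ := by rw [abs_mul, abs_mul B, abs_of_nonneg hA, abs_of_nonneg hB]
      -- the `p, q` part
      have hmin : (A + B - |A - B|) / 2 ≤ A ∧ (A + B - |A - B|) / 2 ≤ B := by
        rcases abs_cases (A - B) with ⟨h, -⟩ | ⟨h, -⟩ <;> rw [h] <;> constructor <;> linarith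
      have hmin0 : 0 ≤ (A + B - |A - B|) / 2 := by linarith
      have e2 : |a' - b'| * (|p| + |q|) ≤ |a' * p + b' * q| + |b' * p + a' * q| := by
        have k1 : |p + q| ≤ |a' * p + b' * q| + |b' * p + a' * q| := by
          calc |p + q| = |(a' * p + b' * q) + (b' * p + a' * q)| := by
                congr 1
                have : p + q = (a' + b') * (p + q) := by rw [hab, one_mul]
                rw [this]; ring
            _ ≤ _ := abs_add_le _ _
        have k2 : |a' - b'| * |p - q| ≤ |a' * p + b' * q| + |b' * p + a' * q| := by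
          calc |a' - b'| * |p - q| = |(a' * p + b' * q) - (b' * p + a' * q)| := by
                rw [← abs_mul]; congr 1; ring
            _ ≤ _ := abs_sub _ _
        have k3 : |a' - b'| * |p + q| ≤ |p + q| := by
          have := abs_nonneg (p + q)
          nlinarith
        rcases abs_cases p with ⟨hp, hp'⟩ | ⟨hp, hp'⟩ <;>
        rcases abs_cases q with ⟨hq, hq'⟩ | ⟨hq, hq'⟩
        · have : |p| + |q| = |p + q| := by
            rw [hp, hq, abs_of_nonneg (by linarith)]
          rw [this]; linarith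
        · have : |p| + |q| = |p - q| := by
            rw [hp, hq, abs_of_nonneg (by linarith)]; ring
          rw [this]; linarith
        · have : |p| + |q| = |p - q| := by
            rw [hp, hq, abs_of_nonpos (by linarith)]; ring
          rw [this]; linarith
        · have : |p| + |q| = |p + q| := by
            rw [hp, hq, abs_of_nonpos (by linarith)]; ring
          rw [this]; linarith
      have e3 : (A + B) * (19 / 4 * |A - B| * (|p| + |q|)) ≤
          A * |a' * p + b' * q| + B * |b' * p + a' * q| := by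
        have hpq : 0 ≤ |p| + |q| := by positivity
        calc (A + B) * (19 / 4 * |A - B| * (|p| + |q|))
            = (19 / 2 * |A - B| * (A + B)) * ((|p| + |q|) / 2) := by ring
          _ ≤ ((A + B - |A - B|) * |a' - b'|) * ((|p| + |q|) / 2) := by gcongr
          _ = (A + B - |A - B|) / 2 * (|a' - b'| * (|p| + |q|)) := by ring
          _ ≤ (A + B - |A - B|) / 2 * (|a' * p + b' * q| + |b' * p + a' * q|) := by gcongr
          _ = (A + B - |A - B|) / 2 * |a' * p + b' * q| +
              (A + B - |A - B|) / 2 * |b' * p + a' * q| := by ring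
          _ ≤ _ := by
              have := hmin.1
              have := hmin.2
              gcongr
      have e4 : A * (|a' * p + b' * q| + |A * β + B * γ|) +
          B * (|b' * p + a' * q| + |B * β + A * γ|) ≤ A * V + B * V := by gcongr
      have e5 : (A + B) * (|A - B| * (|β| + 19 / 4 * (|p| + |q|))) ≤ (A + B) * V := by
        calc (A + B) * (|A - B| * (|β| + 19 / 4 * (|p| + |q|)))
            = (A + B) * (|A - B| * |β|) + (A + B) * (19 / 4 * |A - B| * (|p| + |q|)) := by ring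
          _ ≤ (A * |A * β + B * γ| + B * |B * β + A * γ|) +
              (A * |a' * p + b' * q| + B * |b' * p + a' * q|) := by gcongr
          _ = A * (|a' * p + b' * q| + |A * β + B * γ|) +
              B * (|b' * p + a' * q| + |B * β + A * γ|) := by ring
          _ ≤ A * V + B * V := e4
          _ = (A + B) * V := by ring
      exact le_of_mul_le_mul_left e5 hS
  · have j1 : |A * β + B * γ| ≤ V := by
      have := abs_nonneg (a' * p + b' * q)
      linarith
    have j2 : |B * β + A * γ| ≤ V := by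
      have := abs_nonneg (b' * p + a' * q)
      linarith
    have k : (A + B) / 2 * |β + γ| + |A - B| / 2 * |β - γ| ≤ V := by
      have l1 := abs_le.1 j1
      have l2 := abs_le.1 j2
      rcases abs_cases (β + γ) with ⟨m1, -⟩ | ⟨m1, -⟩ <;>
      rcases abs_cases (β - γ) with ⟨m2, -⟩ | ⟨m2, -⟩ <;>
      rcases abs_cases (A - B) with ⟨m3, -⟩ | ⟨m3, -⟩ <;>
      rw [m1, m2, m3] <;> nlinarith
    have hβ : |β| ≤ (|β + γ| + |β - γ|) / 2 := by
      have : |2 * β| ≤ |β + γ| + |β - γ| := by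
        calc |2 * β| = |(β + γ) + (β - γ)| := by congr 1; ring
          _ ≤ _ := abs_add_le _ _
      rw [abs_mul, abs_two] at this
      linarith
    have hs : 0 ≤ |β + γ| := abs_nonneg _
    calc |A - B| * (|β| + 19 / 4 * |β + γ|)
        ≤ |A - B| * ((|β + γ| + |β - γ|) / 2 + 19 / 4 * |β + γ|) := by gcongr
      _ = (21 / 2 * |A - B|) / 2 * |β + γ| + |A - B| / 2 * |β - γ| := by ring
      _ ≤ (A + B) / 2 * |β + γ| + |A - B| / 2 * |β - γ| := by gcongr
      _ ≤ V := k

end Pool.Agent.H66.SI
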