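import Pool.Agent.H66.SI.Near

set_option autoImplicit false

/-!
The bound of the norm of an operator of `E ⊕_N E` by its numerical radius, for norms near the
Euclidean one.
-/

namespace Pool.Agent.H66.SI

open scoped InnerProductSpace

theorem AbsNorm.IsDualPair.exists_nonneg {N : AbsNorm} {s t a b : ℝ} (h : N.IsDualPair s t a b) :
    ∃ s' t' a' b' : ℝ, 0 ≤ s' ∧ 0 ≤ t' ∧ N.IsDualPair s' t' a' b' ∧
      |a' * t' - b' * s'| = |a * t - b * s| := by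
  rcases le_total 0 s with hs | hs <;> rcases le_total 0 t with ht | ht
  · exact ⟨s, t, a, b, hs, ht, h, rfl⟩
  · refine ⟨s, -t, a, -b, hs, by linarith, h.neg_right, ?_⟩
    rw [← abs_neg]; congr 1; ring
  · refine ⟨-s, t, -a, b, by linarith, ht, h.neg_left, ?_⟩
    rw [← abs_neg]; congr 1; ring
  · refine ⟨-s, -t, -a, -b, by linarith, by linarith, h.neg_left.neg_right, ?_⟩
    congr 1; ring

namespace ASum

variable {N : AbsNorm} {E : Type} [NormedAddCommGroup E] [InnerProductSpace ℝ E]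

section

variable (H : ∀ s t s' t' : ℝ, s ^ 2 + t ^ 2 = 1 → s' ^ 2 + t' ^ 2 = 1 →
      |N.val s t ^ 2 - N.val s' t' ^ 2| ≤ 1 / 6 * |(s * t) ^ 2 - (s' * t') ^ 2|)

include H

theorem near_values (P B C Q : E →L[ℝ] E) {u v : E} (hu : ‖u‖ = 1) (hv : ‖v‖ = 1) {V : ℝ}
    (hV : numRadius (ASum N E) (op N P B C Q) ≤ V) :
    N.rotRadius * (|⟪u, B v⟫_ℝ| + 19 / 4 * (|⟪u, P u⟫_ℝ| + |⟪v, Q v⟫_ℝ|)) ≤ V ∧
    N.rotRadius * (|⟪v, C u⟫_ℝ| + 19 / 4 * (|⟪u, P u⟫_ℝ| + |⟪v, Q v⟫_ℝ|)) ≤ V ∧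
    N.rotRadius * (|⟪u, B v⟫_ℝ| + 19 / 4 * |⟪u, B v⟫_ℝ + ⟪v, C u⟫_ℝ|) ≤ V ∧
    N.rotRadius * (|⟪v, C u⟫_ℝ| + 19 / 4 * |⟪u, B v⟫_ℝ + ⟪v, C u⟫_ℝ|) ≤ V := by
  have hV0 : 0 ≤ V := (numRadius_nonneg _).trans hV
  have key : ∀ s t a b : ℝ, N.IsDualPair s t a b →
      (|a * t - b * s| * (|⟪u, B v⟫_ℝ| + 19 / 4 * (|⟪u, P u⟫_ℝ| + |⟪v, Q v⟫_ℝ|)) ≤ V ∧
      |a * t - b * s| * (|⟪u, B v⟫_ℝ| + 19 / 4 * |⟪u, B v⟫_ℝ + ⟪v, C u⟫_ℝ|) ≤ V) ∧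
      (|a * t - b * s| * (|⟪v, C u⟫_ℝ| + 19 / 4 * (|⟪u, P u⟫_ℝ| + |⟪v, Q v⟫_ℝ|)) ≤ V ∧
      |a * t - b * s| * (|⟪v, C u⟫_ℝ| + 19 / 4 * |⟪u, B v⟫_ℝ + ⟪v, C u⟫_ℝ|) ≤ V) := by
    intro s₀ t₀ a₀ b₀ h₀
    obtain ⟨s, t, a, b, hs, ht, h, he⟩ := h₀.exists_nonneg
    rw [← he]
    have hR : s ^ 2 + t ^ 2 ≤ 24 / 23 := by
      have h1 := AbsNorm.near_val H s t
      rw [h.1] at h1
      have h2 := (abs_le.1 h1).1
      linarith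
    obtain ⟨f1, f2, f3, f4, f5⟩ := pair_facts hs ht h.2.1 hR (AbsNorm.near_omega H h)
    have i1 := (diag_add_offdiag_le P B C Q h hu hv).trans hV
    have i2 := (diag_add_offdiag_le P B C Q
      (h.swap fun s t => AbsNorm.near_symm H s t) hu hv).trans hV
    constructor
    · exact four_numbers f1 f2 h.2.1 f3 f4 f5 i1 i2
    · have g4 : 19 / 2 * |b * s - a * t| * (b * s + a * t) ≤
          (b * s + a * t - |b * s - a * t|) * |b * t - a * s| := by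
        rw [abs_sub_comm (b * s), abs_sub_comm (b * t), add_comm (b * s)]
        exact f4
      have g5 : 21 / 2 * |b * s - a * t| ≤ b * s + a * t := by
        rw [abs_sub_comm (b * s), add_comm (b * s)]
        exact f5
      have g3 : |b * t - a * s| ≤ 1 := by rw [abs_sub_comm]; exact f3
      have g0 : b * t + a * s = 1 := by linarith [h.2.1]
      have j1 : |b * t * ⟪v, Q v⟫_ℝ + a * s * ⟪u, P u⟫_ℝ| +
          |b * s * ⟪v, C u⟫_ℝ + a * t * ⟪u, B v⟫_ℝ| ≤ V := by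
        rw [add_comm (b * t * ⟪v, Q v⟫_ℝ), add_comm (b * s * ⟪v, C u⟫_ℝ)]
        exact i1
      have j2 : |a * s * ⟪v, Q v⟫_ℝ + b * t * ⟪u, P u⟫_ℝ| +
          |a * t * ⟪v, C u⟫_ℝ + b * s * ⟪u, B v⟫_ℝ| ≤ V := by
        rw [add_comm (a * s * ⟪v, Q v⟫_ℝ), add_comm (a * t * ⟪v, C u⟫_ℝ)]
        exact i2
      obtain ⟨k1, k2⟩ := four_numbers f2 f1 g0 g3 g4 g5 j1 j2
      rw [abs_sub_comm (b * s), add_comm (|⟪v, Q v⟫_ℝ|)] at k1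
      rw [abs_sub_comm (b * s), add_comm (⟪v, C u⟫_ℝ)] at k2
      exact ⟨k1, k2⟩
  exact ⟨AbsNorm.rotRadius_mul_le hV0 fun s t a b h => (key s t a b h).1.1,
    AbsNorm.rotRadius_mul_le hV0 fun s t a b h => (key s t a b h).2.1,
    AbsNorm.rotRadius_mul_le hV0 fun s t a b h => (key s t a b h).1.2,
    AbsNorm.rotRadius_mul_le hV0 fun s t a b h => (key s t a b h).2.2⟩

end

/-! ### Quadratic forms -/

section Forms

theorem form_unit [Nontrivial E] {Q B : E →L[ℝ] E}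
    (h : ∀ u v : E, ‖u‖ = 1 → ‖v‖ = 1 → |⟪u, B v⟫_ℝ| + 19 / 4 * |⟪v, Q v⟫_ℝ| ≤ 1)
    {v : E} (hv : ‖v‖ = 1) : ‖B v‖ + 19 / 4 * |⟪v, Q v⟫_ℝ| ≤ 1 := by
  obtain ⟨u, hu, -, hu2⟩ := exists_unit (B v)
  have := h u v hu hv
  rwa [hu2, abs_of_nonneg (norm_nonneg _)] at this

theorem form_le [Nontrivial E] {Q B : E →L[ℝ] E}
    (h : ∀ u v : E, ‖u‖ = 1 → ‖v‖ = 1 → |⟪u, B v⟫_ℝ| + 19 / 4 * |⟪v, Q v⟫_ℝ| ≤ 1) (w : E) :
    |⟪w, Q w⟫_ℝ| ≤ 4 / 19 * (‖w‖ ^ 2 - ‖B w‖ ^ 2) := by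
  obtain ⟨v, hv, hw, -⟩ := exists_unit w
  have h1 := form_unit h hv
  have hB0 : 0 ≤ ‖B v‖ := norm_nonneg _
  have hQ0 : 0 ≤ |⟪v, Q v⟫_ℝ| := abs_nonneg _
  have hB1 : ‖B v‖ ≤ 1 := by linarith
  have h2 : |⟪v, Q v⟫_ℝ| ≤ 4 / 19 * (1 - ‖B v‖ ^ 2) := by nlinarith
  have e1 : |⟪w, Q w⟫_ℝ| = ‖w‖ ^ 2 * |⟪v, Q v⟫_ℝ| := by
    conv_lhs => rw [hw]
    rw [map_smul, real_inner_smul_left, real_inner_smul_right, abs_mul, abs_mul, abs_norm]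
    ring
  have e2 : ‖B w‖ = ‖w‖ * ‖B v‖ := by
    conv_lhs => rw [hw]
    rw [map_smul, norm_smul, norm_norm]
  rw [e1, e2]
  calc ‖w‖ ^ 2 * |⟪v, Q v⟫_ℝ| ≤ ‖w‖ ^ 2 * (4 / 19 * (1 - ‖B v‖ ^ 2)) :=
        mul_le_mul_of_nonneg_left h2 (sq_nonneg _)
    _ = _ := by ring

/-- Cauchy-Schwarz for a symmetric form dominated by another form. -/
theorem form_cs {Q B : E →L[ℝ] E} (hQ : ∀ y z : E, ⟪y, Q z⟫_ℝ = ⟪z, Q y⟫_ℝ)
    (h : ∀ w : E, |⟪w, Q w⟫_ℝ| ≤ 4 / 19 * (‖w‖ ^ 2 - ‖B w‖ ^ 2)) (y z : E) :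
    2 * |⟪y, Q z⟫_ℝ| ≤ 4 / 19 * ((‖y‖ ^ 2 - ‖B y‖ ^ 2) + (‖z‖ ^ 2 - ‖B z‖ ^ 2)) := by
  have h1 := abs_le.1 (h (y + z))
  have h2 := abs_le.1 (h (y - z))
  have e1 : ⟪y + z, Q (y + z)⟫_ℝ = ⟪y, Q y⟫_ℝ + ⟪z, Q z⟫_ℝ + 2 * ⟪y, Q z⟫_ℝ := by
    rw [map_add, inner_add_left, inner_add_right, inner_add_right, hQ z y]
    ring
  have e2 : ⟪y - z, Q (y - z)⟫_ℝ = ⟪y, Q y⟫_ℝ + ⟪z, Q z⟫_ℝ - 2 * ⟪y, Q z⟫_ℝ := by
    rw [map_sub, inner_sub_left, inner_sub_right, inner_sub_right, hQ z y]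
    ring
  have e3 : ‖y + z‖ ^ 2 + ‖y - z‖ ^ 2 = 2 * (‖y‖ ^ 2 + ‖z‖ ^ 2) := by
    have := parallelogram_law_with_norm ℝ y z
    nlinarith
  have e4 : ‖B (y + z)‖ ^ 2 + ‖B (y - z)‖ ^ 2 = 2 * (‖B y‖ ^ 2 + ‖B z‖ ^ 2) := by
    have := parallelogram_law_with_norm ℝ (B y) (B z)
    rw [map_add, map_sub]
    nlinarith
  rw [e1] at h1
  rw [e2] at h2
  rcases abs_cases ⟪y, Q z⟫_ℝ with ⟨h3, -⟩ | ⟨h3, -⟩ <;> rw [h3] <;> linarith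

theorem form_sq {Q B : E →L[ℝ] E} (hQ : ∀ y z : E, ⟪y, Q z⟫_ℝ = ⟪z, Q y⟫_ℝ)
    (h : ∀ w : E, |⟪w, Q w⟫_ℝ| ≤ 4 / 19 * (‖w‖ ^ 2 - ‖B w‖ ^ 2)) (z : E) :
    ‖Q z‖ ^ 2 ≤ 16 / 361 * (‖z‖ ^ 2 - ‖B z‖ ^ 2) := by
  have h1 := form_cs hQ h (Q z) ((4 / 19 : ℝ) • z)
  rw [map_smul, map_smul, real_inner_smul_right, real_inner_self_eq_norm_sq, norm_smul, norm_smul,
    abs_of_nonneg (by positivity)] at h1
  rw [Real.norm_eq_abs, abs_of_pos (by norm_num : (0:ℝ) < 4 / 19)] at h1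
  have h2 : 0 ≤ ‖B (Q z)‖ ^ 2 := sq_nonneg _
  nlinarith

theorem form_cross [Nontrivial E] {B C : E →L[ℝ] E}
    (h : ∀ u v : E, ‖u‖ = 1 → ‖v‖ = 1 →
      |⟪u, B v⟫_ℝ| + 19 / 4 * |⟪u, B v⟫_ℝ + ⟪v, C u⟫_ℝ| ≤ 1) (w : E) :
    ‖B w‖ ^ 2 - ‖C (B w)‖ ^ 2 ≤ 23 / 19 * (‖w‖ ^ 2 - ‖B w‖ ^ 2) := by
  obtain ⟨v, hv, hw, -⟩ := exists_unit w
  obtain ⟨u, hu, hu1, hu2⟩ := exists_unit (B v)
  have h1 := h u v hu hv
  rw [hu2, abs_of_nonneg (norm_nonneg _)] at h1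
  set β := ‖B v‖ with hβ
  set γ := ⟪v, C u⟫_ℝ with hγ
  have hβ0 : 0 ≤ β := norm_nonneg _
  have h2 : |γ| ≤ ‖C u‖ := by
    have := abs_real_inner_le_norm v (C u)
    rwa [hv, one_mul] at this
  have h3 : β ≤ |β + γ| + |γ| := by
    calc β = (β + γ) - γ := by ring
      _ ≤ |(β + γ) - γ| := le_abs_self _
      _ ≤ _ := abs_sub _ _
  have h4 : 0 ≤ |β + γ| := abs_nonneg _
  have h5 : 0 ≤ |γ| := abs_nonneg _
  have hβ1 : β ≤ 1 := by linarith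
  have h6 : β ^ 2 * (1 - ‖C u‖ ^ 2) ≤ 23 / 19 * (1 - β ^ 2) := by
    have h7 : |γ| ^ 2 ≤ ‖C u‖ ^ 2 := by gcongr
    have h8 : 1 - |γ| ≤ 23 / 19 * (1 - β) := by linarith
    rcases le_or_gt |γ| 1 with h9 | h9
    · have h10 : 1 - |γ| ^ 2 ≤ 46 / 19 * (1 - β) := by nlinarith
      have h11 : 2 * β ^ 2 ≤ 1 + β := by nlinarith
      calc β ^ 2 * (1 - ‖C u‖ ^ 2) ≤ β ^ 2 * (46 / 19 * (1 - β)) := by
            apply mul_le_mul_of_nonneg_left _ (sq_nonneg _)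
            linarith
        _ = 23 / 19 * (1 - β) * (2 * β ^ 2) := by ring
        _ ≤ 23 / 19 * (1 - β) * (1 + β) := by
            apply mul_le_mul_of_nonneg_left h11
            linarith
        _ = _ := by ring
    · have h10 : 1 - ‖C u‖ ^ 2 ≤ 0 := by nlinarith
      have h11 : β ^ 2 * (1 - ‖C u‖ ^ 2) ≤ 0 := mul_nonpos_of_nonneg_of_nonpos (sq_nonneg _) h10
      have h12 : 0 ≤ 23 / 19 * (1 - β ^ 2) := by nlinarith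
      linarith
  have e2 : ‖B w‖ = ‖w‖ * β := by
    conv_lhs => rw [hw]
    rw [map_smul, norm_smul, norm_norm]
  have e3 : ‖C (B w)‖ = ‖w‖ * (β * ‖C u‖) := by
    conv_lhs => rw [hw]
    rw [map_smul, map_smul, norm_smul, norm_norm, hu1, map_smul, norm_smul, norm_norm]
  rw [e2, e3]
  calc (‖w‖ * β) ^ 2 - (‖w‖ * (β * ‖C u‖)) ^ 2 = ‖w‖ ^ 2 * (β ^ 2 * (1 - ‖C u‖ ^ 2)) := by ring
    _ ≤ ‖w‖ ^ 2 * (23 / 19 * (1 - β ^ 2)) := mul_le_mul_of_nonneg_left h6 (sq_nonneg _)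
    _ = _ := by ring

end Forms

end ASum

/-- Comparison of the norms of two vectors from the squares of their coordinates. -/
theorem AbsNorm.near_compare {N : AbsNorm}
    (H : ∀ s t s' t' : ℝ, s ^ 2 + t ^ 2 = 1 → s' ^ 2 + t' ^ 2 = 1 →
      |N.val s t ^ 2 - N.val s' t' ^ 2| ≤ 1 / 6 * |(s * t) ^ 2 - (s' * t') ^ 2|)
    {x y x' y' h f : ℝ} (hh : 0 ≤ h) (hf : 0 ≤ f)
    (h1 : |x' ^ 2 - (x ^ 2 - h)| ≤ 92 / 361 * (h + f))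
    (h2 : |y' ^ 2 - (y ^ 2 - f)| ≤ 92 / 361 * (h + f))
    (h3 : h ≤ x ^ 2) (h4 : f ≤ y ^ 2) :
    N.val x' y' ≤ N.val x y := by
  have hp := abs_le.1 h1
  have hq := abs_le.1 h2
  have hx2 : 0 ≤ x ^ 2 := sq_nonneg _
  have hy2 : 0 ≤ y ^ 2 := sq_nonneg _
  have hx2' : 0 ≤ x' ^ 2 := sq_nonneg _
  have hy2' : 0 ≤ y' ^ 2 := sq_nonneg _
  rcases (add_nonneg hx2' hy2').eq_or_lt with hR' | hR'
  · have e1 : x' = 0 := by nlinarith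
    have e2 : y' = 0 := by nlinarith
    rw [e1, e2, N.zero]
    exact N.nonneg _ _
  rcases (add_nonneg hx2 hy2).eq_or_lt with hR | hR
  · exfalso
    have : h = 0 := by linarith
    have : f = 0 := by linarith
    linarith
  have k1 := AbsNorm.near_hom H (x := x) (y := y) (x' := x') (y' := y') rfl rfl hR hR'
  obtain ⟨R, hRd⟩ : ∃ R, R = x ^ 2 + y ^ 2 := ⟨_, rfl⟩
  obtain ⟨R', hRd'⟩ : ∃ R', R' = x' ^ 2 + y' ^ 2 := ⟨_, rfl⟩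
  have k2 := (abs_le.1 (AbsNorm.near_val H x y)).1
  rw [← hRd, ← hRd'] at k1
  rw [← hRd] at hR k2
  rw [← hRd'] at hR'
  obtain ⟨n, hn⟩ : ∃ n, n = N.val x y ^ 2 := ⟨_, rfl⟩
  obtain ⟨n', hn'⟩ : ∃ n', n' = N.val x' y' ^ 2 := ⟨_, rfl⟩
  rw [← hn, ← hn'] at k1
  rw [← hn] at k2
  obtain ⟨S, hS⟩ : ∃ S, S = |x' ^ 2 - x ^ 2| + |y' ^ 2 - y ^ 2| := ⟨_, rfl⟩
  have hS0 : 0 ≤ S := by rw [hS]; positivity
  have e1 : (x * y) ^ 2 * R' ^ 2 - (x' * y') ^ 2 * R ^ 2 =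
      1 / 2 * ((x' ^ 2 - x ^ 2) * y ^ 2 - x ^ 2 * (y' ^ 2 - y ^ 2)) *
        ((x' ^ 2 - y' ^ 2) * R + (x ^ 2 - y ^ 2) * R') := by
    rw [hRd, hRd']; ring
  have e2 : |(x' ^ 2 - x ^ 2) * y ^ 2 - x ^ 2 * (y' ^ 2 - y ^ 2)| ≤ R * S := by
    calc |(x' ^ 2 - x ^ 2) * y ^ 2 - x ^ 2 * (y' ^ 2 - y ^ 2)|
        ≤ |(x' ^ 2 - x ^ 2) * y ^ 2| + |x ^ 2 * (y' ^ 2 - y ^ 2)| := abs_sub _ _
      _ = |x' ^ 2 - x ^ 2| * y ^ 2 + x ^ 2 * |y' ^ 2 - y ^ 2| := by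
          rw [abs_mul, abs_mul, abs_of_nonneg hx2, abs_of_nonneg hy2]
      _ ≤ |x' ^ 2 - x ^ 2| * R + R * |y' ^ 2 - y ^ 2| := by
          have : y ^ 2 ≤ R := by linarith
          have : x ^ 2 ≤ R := by linarith
          gcongr
      _ = R * S := by rw [hS]; ring
  have e3 : |(x' ^ 2 - y' ^ 2) * R + (x ^ 2 - y ^ 2) * R'| ≤ 2 * (R * R') := by
    have a1 : |x' ^ 2 - y' ^ 2| ≤ R' := by rw [abs_le]; constructor <;> linarith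
    have a2 : |x ^ 2 - y ^ 2| ≤ R := by rw [abs_le]; constructor <;> linarith
    calc |(x' ^ 2 - y' ^ 2) * R + (x ^ 2 - y ^ 2) * R'|
        ≤ |(x' ^ 2 - y' ^ 2) * R| + |(x ^ 2 - y ^ 2) * R'| := abs_add_le _ _
      _ = |x' ^ 2 - y' ^ 2| * R + |x ^ 2 - y ^ 2| * R' := by
          rw [abs_mul, abs_mul, abs_of_pos hR, abs_of_pos hR']
      _ ≤ R' * R + R * R' := by gcongr
      _ = _ := by ring
  have k3 : |n * R' - n' * R| ≤ 1 / 6 * (R * S) := by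
    have hRR : 0 < R * R' := mul_pos hR hR'
    have : |n * R' - n' * R| * (R * R') ≤ 1 / 6 * (R * S) * (R * R') := by
      calc |n * R' - n' * R| * (R * R') ≤ _ := k1
        _ = 1 / 6 * (1 / 2 * |(x' ^ 2 - x ^ 2) * y ^ 2 - x ^ 2 * (y' ^ 2 - y ^ 2)| *
              |(x' ^ 2 - y' ^ 2) * R + (x ^ 2 - y ^ 2) * R'|) := by
            rw [e1, abs_mul, abs_mul, abs_of_pos (by norm_num : (0:ℝ) < 1 / 2)]
        _ ≤ 1 / 6 * (1 / 2 * (R * S) * (2 * (R * R'))) := by gcongr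
        _ = _ := by ring
    exact le_of_mul_le_mul_right this hRR
  have k4 : R' ≤ R - 177 / 361 * (h + f) := by linarith
  have k5 : S ≤ 545 / 361 * (h + f) := by
    have a1 : |x' ^ 2 - x ^ 2| ≤ h + 92 / 361 * (h + f) := by
      rw [abs_le]; constructor <;> linarith
    have a2 : |y' ^ 2 - y ^ 2| ≤ f + 92 / 361 * (h + f) := by
      rw [abs_le]; constructor <;> linarith
    linarith
  have hn0 : 0 ≤ n := by rw [hn]; exact sq_nonneg _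
  have k6 : n' * R ≤ n * R := by
    have a1 := (abs_le.1 k3).1
    have a2 : n * R' ≤ n * (R - 177 / 361 * (h + f)) := mul_le_mul_of_nonneg_left k4 hn0
    have a3 : 23 / 24 * R * (177 / 361 * (h + f)) ≤ n * (177 / 361 * (h + f)) := by
      apply mul_le_mul_of_nonneg_right _ (by positivity)
      linarith
    have a4 : R * S ≤ R * (545 / 361 * (h + f)) := mul_le_mul_of_nonneg_left k5 hR.le
    have a5 : 0 ≤ R * (h + f) := by positivity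
    linarith
  have k7 : n' ≤ n := le_of_mul_le_mul_right k6 hR
  rw [hn, hn'] at k7
  exact (sq_le_sq₀ (N.nonneg _ _) (N.nonneg _ _)).1 k7

namespace ASum

variable {N : AbsNorm} {E : Type} [NormedAddCommGroup E] [InnerProductSpace ℝ E]

section

variable (H : ∀ s t s' t' : ℝ, s ^ 2 + t ^ 2 = 1 → s' ^ 2 + t' ^ 2 = 1 →
      |N.val s t ^ 2 - N.val s' t' ^ 2| ≤ 1 / 6 * |(s * t) ^ 2 - (s' * t') ^ 2|)

include H

/-- The contraction property. -/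
theorem near_contraction [Nontrivial E] {P B C Q : E →L[ℝ] E}
    (hP : ∀ y z : E, ⟪y, P z⟫_ℝ = ⟪z, P y⟫_ℝ) (hQ : ∀ y z : E, ⟪y, Q z⟫_ℝ = ⟪z, Q y⟫_ℝ)
    (h1 : ∀ u v : E, ‖u‖ = 1 → ‖v‖ = 1 → |⟪u, B v⟫_ℝ| + 19 / 4 * |⟪v, Q v⟫_ℝ| ≤ 1)
    (h2 : ∀ v u : E, ‖v‖ = 1 → ‖u‖ = 1 → |⟪v, C u⟫_ℝ| + 19 / 4 * |⟪u, P u⟫_ℝ| ≤ 1)
    (h3 : ∀ u v : E, ‖u‖ = 1 → ‖v‖ = 1 →
      |⟪u, B v⟫_ℝ| + 19 / 4 * |⟪u, B v⟫_ℝ + ⟪v, C u⟫_ℝ| ≤ 1)
    (h4 : ∀ v u : E, ‖v‖ = 1 → ‖u‖ = 1 →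
      |⟪v, C u⟫_ℝ| + 19 / 4 * |⟪v, C u⟫_ℝ + ⟪u, B v⟫_ℝ| ≤ 1) (y w : E) :
    N.val ‖P y + B w‖ ‖C y + Q w‖ ≤ N.val ‖y‖ ‖w‖ := by
  have fQ := form_le h1
  have fP := form_le h2
  have hh : 0 ≤ ‖w‖ ^ 2 - ‖B w‖ ^ 2 := by
    have := fQ w
    have := abs_nonneg ⟪w, Q w⟫_ℝ
    linarith
  have hf : 0 ≤ ‖y‖ ^ 2 - ‖C y‖ ^ 2 := by
    have := fP y
    have := abs_nonneg ⟪y, P y⟫_ℝ
    linarith
  set h := ‖w‖ ^ 2 - ‖B w‖ ^ 2 with hhd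
  set f := ‖y‖ ^ 2 - ‖C y‖ ^ 2 with hfd
  rw [AbsNorm.near_symm H ‖w‖ ‖y‖]
  apply AbsNorm.near_compare H hh hf
  · have a1 := form_cs hP fP (B w) y
    have a2 := form_cross h3 w
    have a3 := form_sq hP fP y
    have e : ‖P y + B w‖ ^ 2 = ‖P y‖ ^ 2 + 2 * ⟪B w, P y⟫_ℝ + ‖B w‖ ^ 2 := by
      rw [@norm_add_sq_real, real_inner_comm]
    have a4 := abs_le.1 (le_refl |⟪B w, P y⟫_ℝ|)
    have a5 : 0 ≤ ‖P y‖ ^ 2 := sq_nonneg _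
    rw [e, abs_le]
    constructor <;> linarith
  · have a1 := form_cs hQ fQ (C y) w
    have a2 := form_cross h4 y
    have a3 := form_sq hQ fQ w
    have e : ‖C y + Q w‖ ^ 2 = ‖C y‖ ^ 2 + 2 * ⟪C y, Q w⟫_ℝ + ‖Q w‖ ^ 2 := by
      rw [@norm_add_sq_real]
    have a4 := abs_le.1 (le_refl |⟪C y, Q w⟫_ℝ|)
    have a5 : 0 ≤ ‖Q w‖ ^ 2 := sq_nonneg _
    rw [e, abs_le]
    constructor <;> linarith
  · have : 0 ≤ ‖B w‖ ^ 2 := sq_nonneg _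
    linarith
  · have : 0 ≤ ‖C y‖ ^ 2 := sq_nonneg _
    linarith

omit H in
theorem op_smul (c : ℝ) (P B C Q : E →L[ℝ] E) :
    op N (c • P) (c • B) (c • C) (c • Q) = c • op N P B C Q := by
  ext x
  apply ASum.ext
  · rw [op_fst]
    change _ = c • (op N P B C Q x).1
    rw [op_fst, smul_add]
    rfl
  · rw [op_snd]
    change _ = c • (op N P B C Q x).2
    rw [op_snd, smul_add]
    rfl

/-- The numerical radius bounds the norm. -/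
theorem near_norm_le [Nontrivial E] {P B C Q : E →L[ℝ] E}
    (hP : ∀ y z : E, ⟪y, P z⟫_ℝ = ⟪z, P y⟫_ℝ) (hQ : ∀ y z : E, ⟪y, Q z⟫_ℝ = ⟪z, Q y⟫_ℝ) :
    N.rotRadius * ‖op N P B C Q‖ ≤ numRadius (ASum N E) (op N P B C Q) := by
  rcases N.rotRadius_nonneg.eq_or_lt with hM | hM
  · rw [← hM, zero_mul]
    exact numRadius_nonneg _
  set V := numRadius (ASum N E) (op N P B C Q) with hV
  have hV0 : 0 ≤ V := numRadius_nonneg _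
  set M := N.rotRadius with hMd
  -- for each larger constant
  have key : ∀ r : ℝ, 0 < r → V ≤ M * r → ‖op N P B C Q‖ ≤ r := by
    intro r hr hVr
    have hr' : 0 < r⁻¹ := inv_pos.2 hr
    have scale : ∀ X : ℝ, M * X ≤ V → r⁻¹ * X ≤ 1 := by
      intro X hX
      have h1 : M * X ≤ M * r := hX.trans hVr
      have h2 : X ≤ r := le_of_mul_le_mul_left h1 hM
      rw [inv_mul_le_iff₀ hr]
      linarith
    have e1 : ∀ (R : E →L[ℝ] E) (u v : E), ⟪u, (r⁻¹ • R) v⟫_ℝ = r⁻¹ * ⟪u, R v⟫_ℝ := by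
      intro R u v
      change ⟪u, r⁻¹ • R v⟫_ℝ = _
      rw [real_inner_smul_right]
    have habs : ∀ X : ℝ, |r⁻¹ * X| = r⁻¹ * |X| := by
      intro X
      rw [abs_mul, abs_of_pos hr']
    have hc : ∀ y w : E, N.val ‖(r⁻¹ • P) y + (r⁻¹ • B) w‖ ‖(r⁻¹ • C) y + (r⁻¹ • Q) w‖ ≤
        N.val ‖y‖ ‖w‖ := by
      apply near_contraction H
      · intro y z
        rw [e1, e1, hP]
      · intro y z
        rw [e1, e1, hQ]
      · intro u v hu hv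
        have h1 := scale _ (near_values H P B C Q hu hv (le_refl _)).1
        rw [e1, e1, habs, habs]
        have h2 : 0 ≤ r⁻¹ * |⟪u, P u⟫_ℝ| := by positivity
        linarith
      · intro v u hv hu
        have h1 := scale _ (near_values H P B C Q hu hv (le_refl _)).2.1
        rw [e1, e1, habs, habs]
        have h2 : 0 ≤ r⁻¹ * |⟪v, Q v⟫_ℝ| := by positivity
        linarith
      · intro u v hu hv
        have h1 := scale _ (near_values H P B C Q hu hv (le_refl _)).2.2.1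
        rw [e1, e1, ← mul_add, habs, habs]
        linarith
      · intro v u hv hu
        have h1 := scale _ (near_values H P B C Q hu hv (le_refl _)).2.2.2
        rw [e1, e1, ← mul_add, habs, habs, add_comm ⟪v, C u⟫_ℝ]
        linarith
    have h5 : ‖op N (r⁻¹ • P) (r⁻¹ • B) (r⁻¹ • C) (r⁻¹ • Q)‖ ≤ 1 := by
      refine ContinuousLinearMap.opNorm_le_bound _ zero_le_one fun x => ?_
      rw [one_mul, norm_def, norm_def, op_fst, op_snd]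
      exact hc _ _
    rw [op_smul, norm_smul, Real.norm_eq_abs, abs_of_pos hr', inv_mul_le_iff₀ hr, mul_one] at h5
    exact h5
  apply le_of_forall_pos_le_add
  intro ε hε
  have h1 := key (V / M + ε / M) (by positivity) (by
    rw [mul_add, mul_div_cancel₀ _ hM.ne', mul_div_cancel₀ _ hM.ne']
    linarith)
  calc M * ‖op N P B C Q‖ ≤ M * (V / M + ε / M) := mul_le_mul_of_nonneg_left h1 hM.le
    _ = V + ε := by
        rw [mul_add, mul_div_cancel₀ _ hM.ne', mul_div_cancel₀ _ hM.ne']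

end

end ASum

end Pool.Agent.H66.SI
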