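import Pool.Agent.H66.SI.Near2

set_option autoImplicit false

/-!
The second numerical index of `E ⊕_N E`: upper bound for all absolute norms other than the
Euclidean one, exact value for norms near the Euclidean one.
-/

namespace Pool.Agent.H66.SI

open scoped InnerProductSpace

namespace ASum

variable {N : AbsNorm} {E : Type} [NormedAddCommGroup E] [InnerProductSpace ℝ E]

theorem op_add (P B C Q P' B' C' Q' : E →L[ℝ] E) :
    op N P B C Q + op N P' B' C' Q' = op N (P + P') (B + B') (C + C') (Q + Q') := by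
  ext x
  apply ASum.ext
  · change (op N P B C Q x).1 + (op N P' B' C' Q' x).1 = _
    rw [op_fst, op_fst, op_fst]
    change _ = P x.1 + P' x.1 + (B x.2 + B' x.2)
    abel
  · change (op N P B C Q x).2 + (op N P' B' C' Q' x).2 = _
    rw [op_snd, op_snd, op_snd]
    change _ = C x.1 + C' x.1 + (Q x.2 + Q' x.2)
    abel

variable (N E) in
/-- The rotation `(y, w) ↦ (w, -y)`. -/
noncomputable def rotOp : ASum N E →L[ℝ] ASum N E :=
  op N 0 (ContinuousLinearMap.id ℝ E) (-ContinuousLinearMap.id ℝ E) 0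

theorem numRadius_rotOp_le [CompleteSpace E] [Nontrivial E] :
    numRadius (ASum N E) (rotOp N E) ≤ N.rotRadius := by
  apply numRadius_op_le _ _ _ _ N.rotRadius_nonneg
  intro s t a b u v h hu hv
  have h1 : |⟪u, v⟫_ℝ| ≤ 1 := by
    have := abs_real_inner_le_norm u v
    rwa [hu, hv, mul_one] at this
  have h2 := h.le_rotRadius
  have e : a * s * ⟪u, (0 : E →L[ℝ] E) u⟫_ℝ + a * t * ⟪u, (ContinuousLinearMap.id ℝ E) v⟫_ℝ +
      b * s * ⟪v, (-ContinuousLinearMap.id ℝ E) u⟫_ℝ + b * t * ⟪v, (0 : E →L[ℝ] E) v⟫_ℝ =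
      (a * t - b * s) * ⟪u, v⟫_ℝ := by
    simp [real_inner_comm u v]
    ring
  rw [e, abs_mul]
  calc |a * t - b * s| * |⟪u, v⟫_ℝ| ≤ |a * t - b * s| * 1 :=
        mul_le_mul_of_nonneg_left h1 (abs_nonneg _)
    _ ≤ N.rotRadius := by linarith

theorem one_le_norm_rotOp_add [Nontrivial E] (hN : ∃ s t : ℝ, N.val s t ≠ √(s ^ 2 + t ^ 2))
    {S : ASum N E →L[ℝ] ASum N E} (hS : S ∈ skewHerm (ASum N E)) : 1 ≤ ‖rotOp N E + S‖ := by
  obtain ⟨P, B, C, Q, rfl⟩ := exists_op S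
  obtain ⟨-, hB, -, -⟩ := blocks_of_mem hN hS
  obtain ⟨v, hv⟩ := exists_norm_eq E zero_le_one
  have h1 := (rotOp N E + op N P B C Q).le_opNorm (mk N 0 v)
  have h2 : ‖mk N 0 v‖ = 1 := by
    rw [norm_mk, norm_zero, hv, N.zero_one']
  rw [h2, mul_one] at h1
  refine le_trans ?_ h1
  have h3 : ((rotOp N E + op N P B C Q) (mk N 0 v)).1 = v := by
    change (rotOp N E (mk N 0 v)).1 + (op N P B C Q (mk N 0 v)).1 = v
    rw [rotOp, op_fst, op_fst, mk_fst, mk_snd, hB]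
    simp
  rw [norm_def, h3, hv]
  have := N.abs_left_le 1 ‖((rotOp N E + op N P B C Q) (mk N 0 v)).2‖
  rwa [abs_one] at this

theorem secondIndex_le_rotRadius [CompleteSpace E] [Nontrivial E]
    (hN : ∃ s t : ℝ, N.val s t ≠ √(s ^ 2 + t ^ 2)) :
    secondIndex (ASum N E) ≤ N.rotRadius :=
  secondIndex_le N.rotRadius_nonneg (rotOp N E) numRadius_rotOp_le
    fun _ hS => one_le_norm_rotOp_add hN hS

/-- Each operator becomes one with symmetric diagonal blocks after adding a skew-hermitian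
operator. -/
theorem exists_symm [CompleteSpace E] [Nontrivial E] (T : ASum N E →L[ℝ] ASum N E) :
    ∃ S ∈ skewHerm (ASum N E), ∃ P B C Q : E →L[ℝ] E, T + S = op N P B C Q ∧
      (∀ y z : E, ⟪y, P z⟫_ℝ = ⟪z, P y⟫_ℝ) ∧ (∀ y z : E, ⟪y, Q z⟫_ℝ = ⟪z, Q y⟫_ℝ) := by
  obtain ⟨P, B, C, Q, rfl⟩ := exists_op T
  have hsk : ∀ (R : E →L[ℝ] E) (y : E),
      ⟪y, ((1 / 2 : ℝ) • (ContinuousLinearMap.adjoint R - R)) y⟫_ℝ = 0 := by
    intro R y
    change ⟪y, (1 / 2 : ℝ) • (ContinuousLinearMap.adjoint R y - R y)⟫_ℝ = 0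
    rw [real_inner_smul_right, inner_sub_right, ContinuousLinearMap.adjoint_inner_right,
      real_inner_comm]
    ring
  have hsy : ∀ (R : E →L[ℝ] E) (y z : E),
      ⟪y, (R + (1 / 2 : ℝ) • (ContinuousLinearMap.adjoint R - R)) z⟫_ℝ =
        ⟪z, (R + (1 / 2 : ℝ) • (ContinuousLinearMap.adjoint R - R)) y⟫_ℝ := by
    intro R y z
    change ⟪y, R z + (1 / 2 : ℝ) • (ContinuousLinearMap.adjoint R z - R z)⟫_ℝ =
      ⟪z, R y + (1 / 2 : ℝ) • (ContinuousLinearMap.adjoint R y - R y)⟫_ℝ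
    rw [inner_add_right, inner_add_right, real_inner_smul_right, real_inner_smul_right,
      inner_sub_right, inner_sub_right, ContinuousLinearMap.adjoint_inner_right,
      ContinuousLinearMap.adjoint_inner_right, real_inner_comm z (R y), real_inner_comm y (R z)]
    ring
  refine ⟨op N ((1 / 2 : ℝ) • (ContinuousLinearMap.adjoint P - P)) 0 0
    ((1 / 2 : ℝ) • (ContinuousLinearMap.adjoint Q - Q)), diag_skew_mem _ _ (hsk P) (hsk Q), _, _, _,
    _, op_add _ _ _ _ _ _ _ _, hsy P, hsy Q⟩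

theorem le_secondIndex_of [CompleteSpace E] [Nontrivial E]
    (hN : ∃ s t : ℝ, N.val s t ≠ √(s ^ 2 + t ^ 2)) {K : ℝ} (hK : 0 ≤ K)
    (h : ∀ P B C Q : E →L[ℝ] E, (∀ y z : E, ⟪y, P z⟫_ℝ = ⟪z, P y⟫_ℝ) →
      (∀ y z : E, ⟪y, Q z⟫_ℝ = ⟪z, Q y⟫_ℝ) →
      K * ‖op N P B C Q‖ ≤ numRadius (ASum N E) (op N P B C Q)) :
    K ≤ secondIndex (ASum N E) := by
  have h0 : 1 ≤ quotNorm (ASum N E) (rotOp N E) :=
    le_quotNorm _ fun S hS => one_le_norm_rotOp_add hN hS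
  refine le_secondIndex (rotOp N E) (by linarith) (fun T => ?_) hK
  obtain ⟨S, hS, P, B, C, Q, e, hP, hQ⟩ := exists_symm T
  refine ⟨S, hS, ?_⟩
  rw [← numRadius_add_skew T hS, e]
  exact h P B C Q hP hQ

/-- Exact value near the Euclidean norm. -/
theorem secondIndex_near [CompleteSpace E] [Nontrivial E]
    (hN : ∃ s t : ℝ, N.val s t ≠ √(s ^ 2 + t ^ 2))
    (H : ∀ s t s' t' : ℝ, s ^ 2 + t ^ 2 = 1 → s' ^ 2 + t' ^ 2 = 1 →
      |N.val s t ^ 2 - N.val s' t' ^ 2| ≤ 1 / 6 * |(s * t) ^ 2 - (s' * t') ^ 2|) :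
    secondIndex (ASum N E) = N.rotRadius :=
  le_antisymm (secondIndex_le_rotRadius hN)
    (le_secondIndex_of hN N.rotRadius_nonneg fun _ _ _ _ hP hQ => near_norm_le H hP hQ)

end ASum

end Pool.Agent.H66.SI
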