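import Pool.Agent.H66.SI.Base

set_option autoImplicit false

/-!
The skew-hermitian operators of `E ⊕_N E` for an absolute norm `N` other than the Euclidean one.
-/

namespace Pool.Agent.H66.SI

open scoped InnerProductSpace Topology

namespace AbsNorm

variable {N : AbsNorm}

/-- Each unit vector of the plane belongs to a dual pair. -/
theorem exists_dualPair {s t : ℝ} (h : N.val s t = 1) : ∃ a b : ℝ, N.IsDualPair s t a b := by
  have h1 : ‖ASum.mk N s t‖ = 1 := by
    rw [ASum.norm_mk, Real.norm_eq_abs, Real.norm_eq_abs, N.abs', h]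
  obtain ⟨g, hg, hg1⟩ := exists_dual_vector ℝ (ASum.mk N s t) (by
    intro h0
    rw [h0] at h1
    exact zero_ne_one h1)
  have hlin : ∀ x y : ℝ, g (ASum.mk N x y) = g (ASum.mk N 1 0) * x + g (ASum.mk N 0 1) * y := by
    intro x y
    have e : ASum.mk N x y = x • ASum.mk N (1 : ℝ) 0 + y • ASum.mk N (0 : ℝ) 1 := by
      apply ASum.ext
      · rw [ASum.add_fst, ASum.smul_fst, ASum.smul_fst, ASum.mk_fst, ASum.mk_fst, ASum.mk_fst]
        simp
      · rw [ASum.add_snd, ASum.smul_snd, ASum.smul_snd, ASum.mk_snd, ASum.mk_snd, ASum.mk_snd]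
        simp
    rw [e, map_add, map_smul, map_smul, smul_eq_mul, smul_eq_mul]
    ring
  refine ⟨g (ASum.mk N 1 0), g (ASum.mk N 0 1), h, ?_, fun x y => ?_⟩
  · rw [← hlin, hg1, h1]
    rfl
  · rw [← hlin]
    have := g.le_opNorm (ASum.mk N x y)
    rw [hg, one_mul, ASum.norm_mk, Real.norm_eq_abs, Real.norm_eq_abs, Real.norm_eq_abs,
      N.abs'] at this
    exact (le_abs_self _).trans this

theorem pos_of_ne {s t : ℝ} (h : s ≠ 0 ∨ t ≠ 0) : 0 < N.val s t := by
  rcases h with h | h
  · exact lt_of_lt_of_le (abs_pos.2 h) (N.abs_left_le s t)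
  · exact lt_of_lt_of_le (abs_pos.2 h) (N.abs_right_le s t)

theorem val_div {s t n : ℝ} (hn : 0 < n) : N.val (s / n) (t / n) = N.val s t / n := by
  have := N.smul' n⁻¹ s t
  rw [abs_of_pos (inv_pos.2 hn)] at this
  rw [div_eq_inv_mul, div_eq_inv_mul, div_eq_inv_mul, this]

/-- If all dual pairs satisfy a proportionality with positive weights, the norm is Euclidean. -/
theorem eq_of_proportional {g h : ℝ} (hg : 0 < g) (hh : 0 < h)
    (H : ∀ s t a b : ℝ, N.IsDualPair s t a b → a * t * h = b * s * g) (s t : ℝ) :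
    N.val s t = √(s ^ 2 + t ^ 2) := by
  -- support inequality
  have key : ∀ x y x' y' : ℝ, 0 < g * x ^ 2 + h * y ^ 2 →
      N.val x y * (g * x * x' + h * y * y') ≤ N.val x' y' * (g * x ^ 2 + h * y ^ 2) := by
    intro x y x' y' hQ
    have hne : x ≠ 0 ∨ y ≠ 0 := by
      by_contra hcon
      push Not at hcon
      rw [hcon.1, hcon.2] at hQ
      simp at hQ
    have hn := N.pos_of_ne hne
    set n := N.val x y with hndef
    have h1 : N.val (x / n) (y / n) = 1 := by
      rw [val_div hn, ← hndef, div_self hn.ne']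
    obtain ⟨a, b, hab⟩ := exists_dualPair h1
    have h2 := H _ _ _ _ hab
    have h3 := hab.2.1
    have h4 := hab.2.2 x' y'
    have ea : a * (g * x ^ 2 + h * y ^ 2) = g * x * n := by
      have h2' : a * y * h = b * x * g := by
        field_simp at h2
        linarith
      have h3' : a * x + b * y = n := by
        field_simp at h3
        linarith
      calc a * (g * x ^ 2 + h * y ^ 2) = g * x * (a * x) + y * (a * y * h) := by ring
        _ = g * x * (a * x) + y * (b * x * g) := by rw [h2']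
        _ = g * x * (a * x + b * y) := by ring
        _ = g * x * n := by rw [h3']
    have eb : b * (g * x ^ 2 + h * y ^ 2) = h * y * n := by
      have h2' : a * y * h = b * x * g := by
        field_simp at h2
        linarith
      have h3' : a * x + b * y = n := by
        field_simp at h3
        linarith
      calc b * (g * x ^ 2 + h * y ^ 2) = h * y * (b * y) + x * (b * x * g) := by ring
        _ = h * y * (b * y) + x * (a * y * h) := by rw [h2']
        _ = h * y * (a * x + b * y) := by ring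
        _ = h * y * n := by rw [h3']
    calc n * (g * x * x' + h * y * y')
        = (a * (g * x ^ 2 + h * y ^ 2)) * x' + (b * (g * x ^ 2 + h * y ^ 2)) * y' := by
          rw [ea, eb]; ring
      _ = (a * x' + b * y') * (g * x ^ 2 + h * y ^ 2) := by ring
      _ ≤ N.val x' y' * (g * x ^ 2 + h * y ^ 2) := mul_le_mul_of_nonneg_right h4 hQ.le
  have hsg : 0 < √g := Real.sqrt_pos.2 hg
  have hsh : 0 < √h := Real.sqrt_pos.2 hh
  have sg2 : √g ^ 2 = g := Real.sq_sqrt hg.le
  have sh2 : √h ^ 2 = h := Real.sq_sqrt hh.le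
  set F : ℝ → ℝ := fun θ => N.val (Real.cos θ / √g) (Real.sin θ / √h) with hF
  have hFK : ∀ θ, F θ ≤ 1 / √g + 1 / √h := by
    intro θ
    refine (N.le_add _ _).trans ?_
    rw [abs_div, abs_div, abs_of_pos hsg, abs_of_pos hsh]
    have := Real.abs_cos_le_one θ
    have := Real.abs_sin_le_one θ
    gcongr
  have hF0 : ∀ θ, 0 ≤ F θ := fun θ => N.nonneg _ _
  have hFF : ∀ θ θ', F θ * Real.cos (θ' - θ) ≤ F θ' := by
    intro θ θ'
    have e1 : g * (Real.cos θ / √g) ^ 2 + h * (Real.sin θ / √h) ^ 2 = 1 := by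
      rw [div_pow, div_pow, sg2, sh2]
      field_simp
      linarith [Real.sin_sq_add_cos_sq θ]
    have e2 : g * (Real.cos θ / √g) * (Real.cos θ' / √g) +
        h * (Real.sin θ / √h) * (Real.sin θ' / √h) = Real.cos (θ' - θ) := by
      rw [Real.cos_sub]
      have : g * (Real.cos θ / √g) * (Real.cos θ' / √g) =
          (g / √g ^ 2) * (Real.cos θ * Real.cos θ') := by field_simp
      rw [this, sg2, div_self hg.ne']
      have : h * (Real.sin θ / √h) * (Real.sin θ' / √h) =
          (h / √h ^ 2) * (Real.sin θ * Real.sin θ') := by field_simp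
      rw [this, sh2, div_self hh.ne']
      ring
    have := key (Real.cos θ / √g) (Real.sin θ / √h) (Real.cos θ' / √g) (Real.sin θ' / √h)
      (by rw [e1]; exact one_pos)
    rw [e1, e2, mul_one] at this
    exact this
  have hFd : ∀ θ θ', F θ - F θ' ≤ (1 / √g + 1 / √h) * (θ' - θ) ^ 2 := by
    intro θ θ'
    have h1 := hFF θ θ'
    have h2 := Real.one_sub_sq_div_two_le_cos (x := θ' - θ)
    have h3 := hFK θ
    have h4 := hF0 θ
    have h5 : F θ * (1 - (θ' - θ) ^ 2 / 2) ≤ F θ * Real.cos (θ' - θ) :=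
      mul_le_mul_of_nonneg_left h2 h4
    have h6 : F θ * (θ' - θ) ^ 2 ≤ (1 / √g + 1 / √h) * (θ' - θ) ^ 2 :=
      mul_le_mul_of_nonneg_right h3 (sq_nonneg _)
    nlinarith [mul_nonneg h4 (sq_nonneg (θ' - θ))]
  have hder : ∀ θ, HasFDerivAt F (0 : ℝ →L[ℝ] ℝ) θ := by
    intro θ
    have h1 : (fun θ' => F θ' - F θ) =O[𝓝 θ] fun θ' => ‖θ' - θ‖ ^ 2 := by
      refine Asymptotics.IsBigO.of_bound (1 / √g + 1 / √h) (Filter.Eventually.of_forall ?_)
      intro θ'
      rw [Real.norm_eq_abs, norm_pow, norm_norm, Real.norm_eq_abs, sq_abs, abs_le]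
      constructor
      · have := hFd θ θ'
        linarith
      · have := hFd θ' θ
        have e : (θ - θ') ^ 2 = (θ' - θ) ^ 2 := by ring
        rw [e] at this
        exact this
    have h2 := Asymptotics.IsBigO.hasFDerivAt (𝕜 := ℝ) h1 (by norm_num)
    have h3 := h2.add_const (F θ)
    simpa using h3
  have hconst : ∀ θ, F θ = F 0 := fun θ =>
    is_const_of_fderiv_eq_zero (fun x => (hder x).differentiableAt) (fun x => (hder x).fderiv) θ 0
  have hF0' : F 0 = 1 / √g := by
    simp only [hF, Real.cos_zero, Real.sin_zero, zero_div]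
    rw [N.left_zero, abs_of_pos (by positivity)]
  have hF1' : F (Real.pi / 2) = 1 / √h := by
    simp only [hF, Real.cos_pi_div_two, Real.sin_pi_div_two, zero_div]
    rw [N.zero_right, abs_of_pos (by positivity)]
  have hgh : √g = √h := by
    have := hconst (Real.pi / 2)
    rw [hF0', hF1'] at this
    field_simp at this
    linarith
  have hcircle : ∀ θ, N.val (Real.cos θ) (Real.sin θ) = 1 := by
    intro θ
    have h1 := hconst θ
    rw [hF0'] at h1
    simp only [hF] at h1
    rw [← hgh, val_div hsg] at h1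
    field_simp at h1
    linarith
  -- polar coordinates
  have h1 := Complex.norm_mul_cos_arg (⟨s, t⟩ : ℂ)
  have h2 := Complex.norm_mul_sin_arg (⟨s, t⟩ : ℂ)
  simp only at h1 h2
  have h3 : ‖(⟨s, t⟩ : ℂ)‖ = √(s ^ 2 + t ^ 2) := by
    rw [Complex.norm_def, Complex.normSq_mk]
    congr 1
    ring
  calc N.val s t = N.val (‖(⟨s, t⟩ : ℂ)‖ * Real.cos (Complex.arg ⟨s, t⟩))
        (‖(⟨s, t⟩ : ℂ)‖ * Real.sin (Complex.arg ⟨s, t⟩)) := by rw [h1, h2]
    _ = √(s ^ 2 + t ^ 2) := by
        rw [N.smul', hcircle, mul_one, abs_of_nonneg (norm_nonneg _), h3]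

/-- The off-diagonal skew-hermitian operators of the plane vanish, unless the norm is
Euclidean. -/
theorem plane_skew (hN : ∃ s t : ℝ, N.val s t ≠ √(s ^ 2 + t ^ 2)) {β γ : ℝ}
    (h : ∀ s t a b : ℝ, N.IsDualPair s t a b → a * t * β + b * s * γ = 0) : β = 0 ∧ γ = 0 := by
  -- a dual pair in each direction
  have dir : ∀ x y : ℝ, (x ≠ 0 ∨ y ≠ 0) → ∃ n a b : ℝ, 0 < n ∧ n = N.val x y ∧ |a| ≤ 1 ∧ |b| ≤ 1 ∧
      a * x + b * y = n ∧ a * y * β + b * x * γ = 0 := by
    intro x y hxy
    have hn := N.pos_of_ne hxy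
    have h1 : N.val (x / N.val x y) (y / N.val x y) = 1 := by
      rw [val_div hn, div_self hn.ne']
    obtain ⟨a, b, hab⟩ := exists_dualPair h1
    refine ⟨N.val x y, a, b, hn, rfl, hab.abs_a, hab.abs_b, ?_, ?_⟩
    · have := hab.2.1
      field_simp at this
      linarith
    · have := h _ _ _ _ hab
      have h2 : (a * y * β + b * x * γ) / N.val x y = 0 := by
        rw [← this]; ring
      rcases div_eq_zero_iff.1 h2 with h3 | h3
      · exact h3
      · exact absurd h3 hn.ne'
  have hb0 : ¬ (β = 0 ∧ γ ≠ 0) := by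
    rintro ⟨rfl, hγ⟩
    obtain ⟨n, a, b, hn, hn1, ha, hb, e1, e2⟩ := dir 1 2 (Or.inl one_ne_zero)
    have hb' : b = 0 := by
      have : b * γ = 0 := by linarith
      rcases mul_eq_zero.1 this with h3 | h3
      · exact h3
      · exact absurd h3 hγ
    have h2 := N.abs_right_le 1 2
    rw [← hn1, abs_of_pos (by norm_num : (0:ℝ) < 2)] at h2
    have h3 := le_abs_self a
    rw [hb'] at e1
    linarith
  have hg0 : ¬ (γ = 0 ∧ β ≠ 0) := by
    rintro ⟨rfl, hβ⟩
    obtain ⟨n, a, b, hn, hn1, ha, hb, e1, e2⟩ := dir 2 1 (Or.inr one_ne_zero)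
    have ha' : a = 0 := by
      have : a * β = 0 := by linarith
      rcases mul_eq_zero.1 this with h3 | h3
      · exact h3
      · exact absurd h3 hβ
    have h2 := N.abs_left_le 2 1
    rw [← hn1, abs_of_pos (by norm_num : (0:ℝ) < 2)] at h2
    have h3 := le_abs_self b
    rw [ha'] at e1
    linarith
  by_contra hcon
  have hβ : β ≠ 0 := by
    intro h0
    by_cases hγ : γ = 0
    · exact hcon ⟨h0, hγ⟩
    · exact hb0 ⟨h0, hγ⟩
  have hγ : γ ≠ 0 := by
    intro h0
    exact hg0 ⟨h0, hβ⟩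
  rcases lt_or_gt_of_ne (mul_ne_zero hβ hγ) with hneg | hpos
  · obtain ⟨s, t, hst⟩ := hN
    apply hst
    apply eq_of_proportional (abs_pos.2 hγ) (abs_pos.2 hβ)
    intro s t a b hab
    have h1 := h s t a b hab
    rcases lt_or_gt_of_ne hβ with hβ' | hβ'
    · have hγ' : 0 < γ := by
        by_contra hc
        push Not at hc
        nlinarith
      rw [abs_of_neg hβ', abs_of_pos hγ']
      linarith
    · have hγ' : γ < 0 := by
        by_contra hc
        push Not at hc
        nlinarith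
      rw [abs_of_pos hβ', abs_of_neg hγ']
      linarith
  · have hsb : 0 < √|β| := Real.sqrt_pos.2 (abs_pos.2 hβ)
    have hsg : 0 < √|γ| := Real.sqrt_pos.2 (abs_pos.2 hγ)
    have sb2 : √|β| * √|β| = |β| := Real.mul_self_sqrt (abs_nonneg _)
    have sg2 : √|γ| * √|γ| = |γ| := Real.mul_self_sqrt (abs_nonneg _)
    obtain ⟨n, a, b, hn, -, -, -, e1, e2⟩ := dir (√|β|) (√|γ|) (Or.inl hsb.ne')
    have e3 : √|β| * √|γ| * n = a * √|γ| * |β| + b * √|β| * |γ| := by
      calc √|β| * √|γ| * n = a * √|γ| * (√|β| * √|β|) + b * √|β| * (√|γ| * √|γ|) := by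
            rw [← e1]; ring
        _ = _ := by rw [sb2, sg2]
    have hp : 0 < √|β| * √|γ| * n := by positivity
    rcases lt_or_gt_of_ne hβ with hβ' | hβ'
    · have hγ' : γ < 0 := by
        by_contra hc
        push Not at hc
        nlinarith
      rw [abs_of_neg hβ', abs_of_neg hγ'] at *
      linarith
    · have hγ' : 0 < γ := by
        by_contra hc
        push Not at hc
        nlinarith
      rw [abs_of_pos hβ', abs_of_pos hγ'] at *
      linarith

end AbsNorm

namespace ASum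

variable {N : AbsNorm} {E : Type} [NormedAddCommGroup E] [InnerProductSpace ℝ E]

theorem eq_zero_of_unit [Nontrivial E] {B : E →L[ℝ] E}
    (h : ∀ u v : E, ‖u‖ = 1 → ‖v‖ = 1 → ⟪u, B v⟫_ℝ = 0) : B = 0 := by
  ext v
  obtain ⟨v', hv', hv1, -⟩ := exists_unit v
  obtain ⟨u, hu, -, hu2⟩ := exists_unit (B v')
  have h1 := h u v' hu hv'
  rw [hu2] at h1
  rw [hv1, map_smul, norm_eq_zero.1 h1]
  simp

/-- Skew-hermitian operators are diagonal with skew entries. -/
theorem blocks_of_mem [Nontrivial E] (hN : ∃ s t : ℝ, N.val s t ≠ √(s ^ 2 + t ^ 2))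
    {P B C Q : E →L[ℝ] E} (h : op N P B C Q ∈ skewHerm (ASum N E)) :
    (∀ y, ⟪y, P y⟫_ℝ = 0) ∧ B = 0 ∧ C = 0 ∧ ∀ y, ⟪y, Q y⟫_ℝ = 0 := by
  have h0 : numRadius (ASum N E) (op N P B C Q) = 0 := h
  have hP1 : ∀ u : E, ‖u‖ = 1 → ⟪u, P u⟫_ℝ = 0 := by
    intro u hu
    have := le_numRadius_op P B C Q (N.isDualPair_one_zero) hu hu
    rw [h0] at this
    simp only [mul_one, one_mul, mul_zero, zero_mul, add_zero] at this
    exact abs_nonpos_iff.1 this
  have hQ1 : ∀ u : E, ‖u‖ = 1 → ⟪u, Q u⟫_ℝ = 0 := by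
    intro u hu
    have := le_numRadius_op P B C Q (N.isDualPair_zero_one) hu hu
    rw [h0] at this
    simp only [mul_one, one_mul, mul_zero, zero_mul, zero_add] at this
    exact abs_nonpos_iff.1 this
  have hBC : ∀ u v : E, ‖u‖ = 1 → ‖v‖ = 1 → ⟪u, B v⟫_ℝ = 0 ∧ ⟪v, C u⟫_ℝ = 0 := by
    intro u v hu hv
    apply N.plane_skew hN
    intro s t a b hab
    have := le_numRadius_op P B C Q hab hu hv
    rw [h0, hP1 u hu, hQ1 v hv] at this
    have := abs_nonpos_iff.1 this
    linarith
  have scale : ∀ (R : E →L[ℝ] E), (∀ u : E, ‖u‖ = 1 → ⟪u, R u⟫_ℝ = 0) → ∀ y, ⟪y, R y⟫_ℝ = 0 := by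
    intro R hR y
    obtain ⟨u, hu, hu1, -⟩ := exists_unit y
    rw [hu1, map_smul, real_inner_smul_left, real_inner_smul_right, hR u hu]
    ring
  refine ⟨scale P hP1, eq_zero_of_unit fun u v hu hv => (hBC u v hu hv).1,
    eq_zero_of_unit fun v u hv hu => (hBC u v hu hv).2, scale Q hQ1⟩

end ASum

end Pool.Agent.H66.SI
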