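import Pool.Agent.H66.SI.Defs

set_option autoImplicit false

/-!
The norms `(s⁴ + 2 c s² t² + t⁴)^(1/4)`, `0 ≤ c ≤ 3`, on the plane.
-/

namespace Pool.Agent.H66.SI

/-- The quartic form. -/
def qf (c s t : ℝ) : ℝ := s ^ 4 + 2 * c * s ^ 2 * t ^ 2 + t ^ 4

theorem qf_nonneg {c : ℝ} (hc : 0 ≤ c) (s t : ℝ) : 0 ≤ qf c s t := by
  unfold qf; positivity

/-- The fourth root of the quartic form. -/
noncomputable def qn (c s t : ℝ) : ℝ := √(√(qf c s t))

theorem qn_nonneg (c s t : ℝ) : 0 ≤ qn c s t := Real.sqrt_nonneg _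

theorem qn_sq (c s t : ℝ) : qn c s t ^ 2 = √(qf c s t) := Real.sq_sqrt (Real.sqrt_nonneg _)

theorem qn_four {c : ℝ} (hc : 0 ≤ c) (s t : ℝ) : qn c s t ^ 4 = qf c s t := by
  have : qn c s t ^ 4 = (qn c s t ^ 2) ^ 2 := by ring
  rw [this, qn_sq, Real.sq_sqrt (qf_nonneg hc s t)]

theorem qn_support {c : ℝ} (h0 : 0 ≤ c) (h3 : c ≤ 3) (s t x y : ℝ) :
    (s ^ 3 + c * s * t ^ 2) * x + (t ^ 3 + c * s ^ 2 * t) * y ≤ qn c s t ^ 3 * qn c x y := by
  obtain ⟨K, hK0, hK1, hK2⟩ : ∃ K : ℝ, 0 ≤ K ∧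
      ((s ^ 3 + c * s * t ^ 2) * x + (t ^ 3 + c * s ^ 2 * t) * y) ^ 2 ≤ qf c s t * K ∧
      K ^ 2 ≤ qf c s t * qf c x y := by
    rcases le_total c 1 with h1 | h1
    · refine ⟨s ^ 2 * x ^ 2 + t ^ 2 * y ^ 2 + 2 * c * (s * x) * (t * y), ?_, ?_, ?_⟩
      · have : s ^ 2 * x ^ 2 + t ^ 2 * y ^ 2 + 2 * c * (s * x) * (t * y) =
            (1 + c) / 2 * (s * x + t * y) ^ 2 + (1 - c) / 2 * (s * x - t * y) ^ 2 := by ring
        rw [this]
        have : 0 ≤ 1 - c := by linarith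
        positivity
      · have : qf c s t * (s ^ 2 * x ^ 2 + t ^ 2 * y ^ 2 + 2 * c * (s * x) * (t * y)) -
            ((s ^ 3 + c * s * t ^ 2) * x + (t ^ 3 + c * s ^ 2 * t) * y) ^ 2 =
            (1 + c) / 2 * ((1 - c) / 2) * ((s ^ 2 + t ^ 2) * (s * x - t * y) -
              (s ^ 2 - t ^ 2) * (s * x + t * y)) ^ 2 := by
          unfold qf; ring
        have h4 : 0 ≤ (1 + c) / 2 * ((1 - c) / 2) * ((s ^ 2 + t ^ 2) * (s * x - t * y) -
              (s ^ 2 - t ^ 2) * (s * x + t * y)) ^ 2 := by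
          have : 0 ≤ 1 - c := by linarith
          positivity
        linarith
      · have hle : s ^ 2 * x ^ 2 + t ^ 2 * y ^ 2 + 2 * c * (s * x) * (t * y) ≤
            s ^ 2 * x ^ 2 + t ^ 2 * y ^ 2 + c * (s ^ 2 * y ^ 2 + t ^ 2 * x ^ 2) := by
          have : 0 ≤ c * (s * y - t * x) ^ 2 := by positivity
          linarith
        have h0' : 0 ≤ s ^ 2 * x ^ 2 + t ^ 2 * y ^ 2 + 2 * c * (s * x) * (t * y) := by
          have : s ^ 2 * x ^ 2 + t ^ 2 * y ^ 2 + 2 * c * (s * x) * (t * y) =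
            (1 + c) / 2 * (s * x + t * y) ^ 2 + (1 - c) / 2 * (s * x - t * y) ^ 2 := by ring
          rw [this]
          have : 0 ≤ 1 - c := by linarith
          positivity
        have h4 : (s ^ 2 * x ^ 2 + t ^ 2 * y ^ 2 + 2 * c * (s * x) * (t * y)) ^ 2 ≤
            (s ^ 2 * x ^ 2 + t ^ 2 * y ^ 2 + c * (s ^ 2 * y ^ 2 + t ^ 2 * x ^ 2)) ^ 2 :=
          pow_le_pow_left₀ h0' hle 2
        have h5 : qf c s t * qf c x y -
            (s ^ 2 * x ^ 2 + t ^ 2 * y ^ 2 + c * (s ^ 2 * y ^ 2 + t ^ 2 * x ^ 2)) ^ 2 =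
            (1 + c) / 2 * ((1 - c) / 2) * ((s ^ 2 + t ^ 2) * (x ^ 2 - y ^ 2) -
              (s ^ 2 - t ^ 2) * (x ^ 2 + y ^ 2)) ^ 2 := by
          unfold qf; ring
        have h6 : 0 ≤ (1 + c) / 2 * ((1 - c) / 2) * ((s ^ 2 + t ^ 2) * (x ^ 2 - y ^ 2) -
              (s ^ 2 - t ^ 2) * (x ^ 2 + y ^ 2)) ^ 2 := by
          have : 0 ≤ 1 - c := by linarith
          positivity
        linarith
    · have hc1 : 0 ≤ c - 1 := by linarith
      have hK0 : 0 ≤ (s * x + t * y) ^ 2 + (c - 1) / 2 * (s * y + t * x) ^ 2 := by positivity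
      refine ⟨(s * x + t * y) ^ 2 + (c - 1) / 2 * (s * y + t * x) ^ 2, hK0, ?_, ?_⟩
      · have : qf c s t * ((s * x + t * y) ^ 2 + (c - 1) / 2 * (s * y + t * x) ^ 2) -
            ((s ^ 3 + c * s * t ^ 2) * x + (t ^ 3 + c * s ^ 2 * t) * y) ^ 2 =
            (c - 1) / 2 * ((s ^ 2 + t ^ 2) * (s * y + t * x) -
              2 * s * t * (s * x + t * y)) ^ 2 := by
          unfold qf; ring
        have h4 : 0 ≤ (c - 1) / 2 * ((s ^ 2 + t ^ 2) * (s * y + t * x) -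
              2 * s * t * (s * x + t * y)) ^ 2 := by positivity
        linarith
      · have hle : (s * x + t * y) ^ 2 + (c - 1) / 2 * (s * y + t * x) ^ 2 ≤
            (s ^ 2 + t ^ 2) * (x ^ 2 + y ^ 2) + (c - 1) / 2 * ((2 * s * t) * (2 * x * y)) := by
          have e : (s ^ 2 + t ^ 2) * (x ^ 2 + y ^ 2) + (c - 1) / 2 * ((2 * s * t) * (2 * x * y)) -
              ((s * x + t * y) ^ 2 + (c - 1) / 2 * (s * y + t * x) ^ 2) =
              (3 - c) / 2 * (s * y - t * x) ^ 2 := by ring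
          have : 0 ≤ 3 - c := by linarith
          have h4 : 0 ≤ (3 - c) / 2 * (s * y - t * x) ^ 2 := by positivity
          linarith
        have h4 := pow_le_pow_left₀ hK0 hle 2
        have h5 : qf c s t * qf c x y -
            ((s ^ 2 + t ^ 2) * (x ^ 2 + y ^ 2) + (c - 1) / 2 * ((2 * s * t) * (2 * x * y))) ^ 2 =
            (c - 1) / 2 * ((s ^ 2 + t ^ 2) * (2 * x * y) - 2 * s * t * (x ^ 2 + y ^ 2)) ^ 2 := by
          unfold qf; ring
        have h6 : 0 ≤ (c - 1) / 2 *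
            ((s ^ 2 + t ^ 2) * (2 * x * y) - 2 * s * t * (x ^ 2 + y ^ 2)) ^ 2 := by positivity
        linarith
  set A := qn c s t with hA
  set B := qn c x y with hB
  have hA0 : 0 ≤ A := qn_nonneg _ _ _
  have hB0 : 0 ≤ B := qn_nonneg _ _ _
  rw [← qn_four h0 s t, ← hA] at hK1 hK2
  rw [← qn_four h0 x y, ← hB] at hK2
  have hK3 : K ≤ A ^ 2 * B ^ 2 := by
    have : K ^ 2 ≤ (A ^ 2 * B ^ 2) ^ 2 := by
      calc K ^ 2 ≤ _ := hK2
        _ = _ := by ring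
    exact (sq_le_sq₀ hK0 (by positivity)).1 this
  have h4 : ((s ^ 3 + c * s * t ^ 2) * x + (t ^ 3 + c * s ^ 2 * t) * y) ^ 2 ≤
      (A ^ 3 * B) ^ 2 := by
    calc _ ≤ A ^ 4 * K := hK1
      _ ≤ A ^ 4 * (A ^ 2 * B ^ 2) := by gcongr
      _ = _ := by ring
  exact (le_abs_self _).trans (abs_le_of_sq_le_sq h4 (by positivity))

/-- The quartic norms. -/
noncomputable def quarticNorm (c : ℝ) (h0 : 0 ≤ c) (h3 : c ≤ 3) : AbsNorm where
  val s t := √(√(s ^ 4 + 2 * c * s ^ 2 * t ^ 2 + t ^ 4))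
  smul' r s t := by
    have e : (r * s) ^ 4 + 2 * c * (r * s) ^ 2 * (r * t) ^ 2 + (r * t) ^ 4 =
        (r ^ 2) ^ 2 * (s ^ 4 + 2 * c * s ^ 2 * t ^ 2 + t ^ 4) := by ring
    rw [e, Real.sqrt_mul (sq_nonneg _), Real.sqrt_sq (sq_nonneg r), Real.sqrt_mul (sq_nonneg _),
      Real.sqrt_sq_eq_abs]
  add_le' s t s' t' := by
    change qn c (s + s') (t + t') ≤ qn c s t + qn c s' t'
    set A := qn c (s + s') (t + t') with hA
    have hA0 : 0 ≤ A := qn_nonneg _ _ _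
    have hs0 := qn_nonneg c s t
    have hs0' := qn_nonneg c s' t'
    rcases hA0.eq_or_lt with h | h
    · rw [← h]; linarith
    · have h1 := qn_support h0 h3 (s + s') (t + t') s t
      have h2 := qn_support h0 h3 (s + s') (t + t') s' t'
      rw [← hA] at h1 h2
      have h4 : A ^ 3 * A ≤ A ^ 3 * (qn c s t + qn c s' t') := by
        calc A ^ 3 * A = A ^ 4 := by ring
          _ = qf c (s + s') (t + t') := by rw [hA, qn_four h0]
          _ = (((s + s') ^ 3 + c * (s + s') * (t + t') ^ 2) * s +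
                ((t + t') ^ 3 + c * (s + s') ^ 2 * (t + t')) * t) +
              (((s + s') ^ 3 + c * (s + s') * (t + t') ^ 2) * s' +
                ((t + t') ^ 3 + c * (s + s') ^ 2 * (t + t')) * t') := by unfold qf; ring
          _ ≤ A ^ 3 * qn c s t + A ^ 3 * qn c s' t' := add_le_add h1 h2
          _ = _ := by ring
      exact le_of_mul_le_mul_left h4 (by positivity)
  abs' s t := by
    have e : |s| ^ 4 + 2 * c * |s| ^ 2 * |t| ^ 2 + |t| ^ 4 =
        s ^ 4 + 2 * c * s ^ 2 * t ^ 2 + t ^ 4 := by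
      have e1 : |s| ^ 4 = (|s| ^ 2) ^ 2 := by ring
      have e2 : |t| ^ 4 = (|t| ^ 2) ^ 2 := by ring
      rw [e1, e2, sq_abs, sq_abs]; ring
    rw [e]
  one_zero' := by norm_num
  zero_one' := by norm_num

end Pool.Agent.H66.SI
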