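import Pool.Agent.H66.SI.Near3
import Pool.Agent.H66.SI.QuarticDef

set_option autoImplicit false

/-!
The norms `(s⁴ + 2 c s² t² + t⁴)^(1/4)`: distance to the Euclidean norm and rotation radius.
-/

namespace Pool.Agent.H66.SI

theorem quarticNorm_val (c : ℝ) (h0 : 0 ≤ c) (h3 : c ≤ 3) (s t : ℝ) :
    (quarticNorm c h0 h3).val s t = qn c s t := rfl

theorem quarticNorm_ne {c : ℝ} (h0 : 0 ≤ c) (h3 : c ≤ 3) (h1 : c ≠ 1) :
    ∃ s t : ℝ, (quarticNorm c h0 h3).val s t ≠ √(s ^ 2 + t ^ 2) := by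
  refine ⟨1, 1, fun h => h1 ?_⟩
  rw [quarticNorm_val] at h
  have h2 : qn c 1 1 ^ 4 = (√((1:ℝ) ^ 2 + 1 ^ 2)) ^ 4 := by rw [h]
  rw [qn_four h0] at h2
  have e : (√((1:ℝ) ^ 2 + 1 ^ 2)) ^ 4 = ((√((1:ℝ) ^ 2 + 1 ^ 2)) ^ 2) ^ 2 := by ring
  rw [e, Real.sq_sqrt (by norm_num)] at h2
  unfold qf at h2
  linarith

theorem quarticNorm_near {c : ℝ} (h0 : 0 ≤ c) (h3 : c ≤ 3) (h1 : |c - 1| ≤ 3 / 20) :
    ∀ s t s' t' : ℝ, s ^ 2 + t ^ 2 = 1 → s' ^ 2 + t' ^ 2 = 1 →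
      |(quarticNorm c h0 h3).val s t ^ 2 - (quarticNorm c h0 h3).val s' t' ^ 2| ≤
        1 / 6 * |(s * t) ^ 2 - (s' * t') ^ 2| := by
  intro s t s' t' hs hs'
  rw [quarticNorm_val, quarticNorm_val, qn_sq, qn_sq]
  have hc := abs_le.1 h1
  have key : ∀ x y : ℝ, x ^ 2 + y ^ 2 = 1 → qf c x y = 1 + 2 * (c - 1) * (x * y) ^ 2 ∧
      37 / 40 ≤ qf c x y := by
    intro x y hxy
    have e : qf c x y = (x ^ 2 + y ^ 2) ^ 2 + 2 * (c - 1) * (x * y) ^ 2 := by unfold qf; ring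
    rw [e, hxy, one_pow]
    refine ⟨rfl, ?_⟩
    have h4 : (x * y) ^ 2 ≤ 1 / 4 := by nlinarith [sq_nonneg (x ^ 2 - y ^ 2)]
    have h5 : 0 ≤ (x * y) ^ 2 := sq_nonneg _
    nlinarith
  obtain ⟨e1, f1⟩ := key s t hs
  obtain ⟨e2, f2⟩ := key s' t' hs'
  set A := √(qf c s t) with hA
  set B := √(qf c s' t') with hB
  have hA2 : A ^ 2 = qf c s t := Real.sq_sqrt (by linarith)
  have hB2 : B ^ 2 = qf c s' t' := Real.sq_sqrt (by linarith)
  have hA1 : 24 / 25 ≤ A := by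
    rw [hA]
    apply Real.le_sqrt_of_sq_le
    norm_num
    linarith
  have hB1 : 24 / 25 ≤ B := by
    rw [hB]
    apply Real.le_sqrt_of_sq_le
    norm_num
    linarith
  have h4 : |A - B| * (A + B) = 2 * |c - 1| * |(s * t) ^ 2 - (s' * t') ^ 2| := by
    rw [← abs_of_pos (by linarith : 0 < A + B), ← abs_mul, ← abs_two, ← abs_mul, ← abs_mul]
    congr 1
    calc (A - B) * (A + B) = A ^ 2 - B ^ 2 := by ring
      _ = _ := by rw [hA2, hB2, e1, e2]; ring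
  have h5 : 0 ≤ |(s * t) ^ 2 - (s' * t') ^ 2| := abs_nonneg _
  have h6 : |A - B| * (48 / 25) ≤ |A - B| * (A + B) :=
    mul_le_mul_of_nonneg_left (by linarith) (abs_nonneg _)
  have h7 : 2 * |c - 1| * |(s * t) ^ 2 - (s' * t') ^ 2| ≤
      2 * (3 / 20) * |(s * t) ^ 2 - (s' * t') ^ 2| := by gcongr
  linarith

/-- The rotation part of a dual pair. -/
theorem quarticNorm_omega {c : ℝ} (h0 : 0 ≤ c) (h3 : c ≤ 3) {s t a b : ℝ}
    (h : (quarticNorm c h0 h3).IsDualPair s t a b) :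
    qf c s t = 1 ∧ a * t - b * s = (1 - c) * (s * t) * (s ^ 2 - t ^ 2) := by
  obtain ⟨h1, h2, h4⟩ := h
  rw [quarticNorm_val] at h1
  have hq : qf c s t = 1 := by rw [← qn_four h0, h1, one_pow]
  refine ⟨hq, ?_⟩
  set w := a * t - b * s with hw
  -- `(1 - k w)^4 ≤ qf (x + k J x)`
  have step : ∀ k : ℝ, 1 - 4 * (k * w) ≤ qf c (s - k * t) (t + k * s) := by
    intro k
    have h5 := h4 (s - k * t) (t + k * s)
    rw [quarticNorm_val] at h5
    have e : a * (s - k * t) + b * (t + k * s) = 1 - k * w := by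
      rw [hw]
      calc a * (s - k * t) + b * (t + k * s) = (a * s + b * t) - k * (a * t - b * s) := by ring
        _ = _ := by rw [h2]
    rw [e] at h5
    have h6 := qn_four h0 (s - k * t) (t + k * s)
    set n := qn c (s - k * t) (t + k * s) with hn
    have hn0 : 0 ≤ n := qn_nonneg _ _ _
    rw [← h6]
    have h7 : 1 - 4 * (1 - n) ≤ n ^ 4 := by
      nlinarith [sq_nonneg (n ^ 2 - 1), sq_nonneg (n - 1)]
    linarith
  -- expansion
  have hexp : ∀ k : ℝ, qf c (s - k * t) (t + k * s) =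
      1 + 4 * k * ((c - 1) * (s * t) * (s ^ 2 - t ^ 2)) + k ^ 2 * (12 * s ^ 2 * t ^ 2 +
        2 * c * ((s ^ 2 - t ^ 2) ^ 2 - 2 * s ^ 2 * t ^ 2)) +
      k ^ 3 * (4 * (1 - c) * (s * t) * (s ^ 2 - t ^ 2)) + k ^ 4 := by
    intro k
    have : qf c (s - k * t) (t + k * s) =
        qf c s t + 4 * k * ((c - 1) * (s * t) * (s ^ 2 - t ^ 2)) + k ^ 2 * (12 * s ^ 2 * t ^ 2 +
        2 * c * ((s ^ 2 - t ^ 2) ^ 2 - 2 * s ^ 2 * t ^ 2)) +
      k ^ 3 * (4 * (1 - c) * (s * t) * (s ^ 2 - t ^ 2)) + k ^ 4 * qf c s t := by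
      unfold qf; ring
    rw [this, hq]; ring
  obtain ⟨η, hη⟩ : ∃ η, η = (1 - c) * (s * t) * (s ^ 2 - t ^ 2) := ⟨_, rfl⟩
  obtain ⟨κ, hκ⟩ : ∃ κ, κ = 12 * s ^ 2 * t ^ 2 +
        2 * c * ((s ^ 2 - t ^ 2) ^ 2 - 2 * s ^ 2 * t ^ 2) := ⟨_, rfl⟩
  have hin : ∀ k : ℝ, 4 * k * (η - w) ≤ k ^ 2 * κ + 4 * k ^ 3 * η + k ^ 4 := by
    intro k
    have h5 := step k
    rw [hexp k] at h5
    have e1 : 4 * k * ((c - 1) * (s * t) * (s ^ 2 - t ^ 2)) = - (4 * k * η) := by rw [hη]; ring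
    have e2 : k ^ 3 * (4 * (1 - c) * (s * t) * (s ^ 2 - t ^ 2)) = 4 * k ^ 3 * η := by
      rw [hη]; ring
    rw [e1, e2, ← hκ] at h5
    linarith
  -- conclude with small `k` of both signs
  rw [← hη]
  obtain ⟨K, hK⟩ : ∃ K, K = |κ| + 4 * |η| + 1 := ⟨_, rfl⟩
  have hK0 : 0 < K := by
    have := abs_nonneg κ
    have := abs_nonneg η
    rw [hK]; linarith
  have hboth : ∀ k : ℝ, 0 < k → k ≤ 1 → 4 * |η - w| ≤ k * K := by
    intro k hk hk1
    have p1 := hin k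
    have p2 := hin (-k)
    have q1 := le_abs_self κ
    have q2 := le_abs_self η
    have q3 := neg_abs_le η
    have q4 := abs_nonneg η
    have q5 := abs_nonneg κ
    have hk2 : 0 < k ^ 2 := by positivity
    have hk3 : k ^ 3 ≤ k ^ 2 := by nlinarith
    have hk4 : k ^ 4 ≤ k ^ 2 := by nlinarith [sq_nonneg k]
    have hk30 : 0 < k ^ 3 := by positivity
    have r1 : k ^ 2 * κ ≤ k ^ 2 * |κ| := mul_le_mul_of_nonneg_left q1 hk2.le
    have r2 : k ^ 3 * η ≤ k ^ 2 * |η| :=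
      (mul_le_mul_of_nonneg_left q2 hk30.le).trans (mul_le_mul_of_nonneg_right hk3 q4)
    have r3 : -(k ^ 3 * η) ≤ k ^ 2 * |η| := by
      have : -(k ^ 3 * η) = k ^ 3 * (-η) := by ring
      rw [this]
      exact (mul_le_mul_of_nonneg_left (by linarith) hk30.le).trans
        (mul_le_mul_of_nonneg_right hk3 q4)
    have s1 : k * (4 * (η - w)) ≤ k * (k * K) := by
      rw [hK]
      calc k * (4 * (η - w)) = 4 * k * (η - w) := by ring
        _ ≤ _ := p1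
        _ ≤ k ^ 2 * |κ| + 4 * (k ^ 2 * |η|) + k ^ 2 := by linarith
        _ = _ := by ring
    have s2 : k * (4 * (w - η)) ≤ k * (k * K) := by
      rw [hK]
      calc k * (4 * (w - η)) = 4 * (-k) * (η - w) := by ring
        _ ≤ _ := p2
        _ = k ^ 2 * κ + 4 * (-(k ^ 3 * η)) + k ^ 4 := by ring
        _ ≤ k ^ 2 * |κ| + 4 * (k ^ 2 * |η|) + k ^ 2 := by linarith
        _ = _ := by ring
    have t1 := le_of_mul_le_mul_left s1 hk
    have t2 := le_of_mul_le_mul_left s2 hk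
    rcases abs_cases (η - w) with ⟨h6, -⟩ | ⟨h6, -⟩ <;> rw [h6] <;> linarith
  have hz : |η - w| ≤ 0 := by
    apply le_of_forall_pos_le_add
    intro ε hε
    have h8 : 0 < min 1 (ε / K) := lt_min one_pos (by positivity)
    have h9 := hboth (min 1 (ε / K)) h8 (min_le_left _ _)
    have h10 : min 1 (ε / K) * K ≤ ε / K * K := mul_le_mul_of_nonneg_right (min_le_right _ _) hK0.le
    rw [div_mul_cancel₀ _ hK0.ne'] at h10
    have := abs_nonneg (η - w)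
    linarith
  have := abs_nonpos_iff.1 hz
  linarith

theorem quarticNorm_rotRadius {c : ℝ} (h0 : 0 ≤ c) (h3 : c ≤ 3) :
    (quarticNorm c h0 h3).rotRadius = |1 - c| / (2 * √(2 + 2 * c)) := by
  have hpos : 0 < 2 + 2 * c := by linarith
  have hs : 0 < √(2 + 2 * c) := Real.sqrt_pos.2 hpos
  have hs2 : √(2 + 2 * c) ^ 2 = 2 + 2 * c := Real.sq_sqrt hpos.le
  apply le_antisymm
  · apply Real.sSup_le _ (by positivity)
    rintro r ⟨s, t, a, b, h, rfl⟩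
    obtain ⟨hq, hw⟩ := quarticNorm_omega h0 h3 h
    rw [hw, le_div_iff₀ (by positivity), mul_assoc, abs_mul, mul_assoc]
    have h1 : |s * t * (s ^ 2 - t ^ 2)| * (2 * √(2 + 2 * c)) ≤ 1 := by
      have h2 : (|s * t * (s ^ 2 - t ^ 2)| * (2 * √(2 + 2 * c))) ^ 2 ≤ 1 ^ 2 := by
        rw [mul_pow, mul_pow, sq_abs, hs2]
        have e : (1:ℝ) ^ 2 = (qf c s t) ^ 2 := by rw [hq]
        rw [e]
        have : (qf c s t) ^ 2 - (s * t * (s ^ 2 - t ^ 2)) ^ 2 * (2 ^ 2 * (2 + 2 * c)) =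
            ((s ^ 2 - t ^ 2) ^ 2 - 2 * (1 + c) * (s * t) ^ 2) ^ 2 := by unfold qf; ring
        have := sq_nonneg ((s ^ 2 - t ^ 2) ^ 2 - 2 * (1 + c) * (s * t) ^ 2)
        linarith
      exact (sq_le_sq₀ (by positivity) one_pos.le).1 h2
    calc |1 - c| * (|s * t * (s ^ 2 - t ^ 2)| * (2 * √(2 + 2 * c))) ≤ |1 - c| * 1 :=
          mul_le_mul_of_nonneg_left h1 (abs_nonneg _)
      _ = _ := mul_one _
  · -- a maximal point
    obtain ⟨ρ, hρ⟩ : ∃ ρ, ρ = √(1 / 2 + 1 / (1 + c)) := ⟨_, rfl⟩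
    obtain ⟨σ, hσ⟩ : ∃ σ : ℝ, σ = √(1 / 2) := ⟨_, rfl⟩
    have hρ2 : ρ ^ 2 = 1 / 2 + 1 / (1 + c) := by
      rw [hρ]; exact Real.sq_sqrt (by positivity)
    have hσ2 : σ ^ 2 = 1 / 2 := by rw [hσ]; exact Real.sq_sqrt (by norm_num)
    have hσρ : σ ≤ ρ := by
      rw [hσ, hρ]
      apply Real.sqrt_le_sqrt
      have : 0 ≤ 1 / (1 + c) := by positivity
      linarith
    have hσ0 : 0 ≤ σ := by rw [hσ]; exact Real.sqrt_nonneg _
    have hρ0 : 0 ≤ ρ := hσ0.trans hσρ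
    obtain ⟨s, hs⟩ : ∃ s, s = √((ρ + σ) / 2) := ⟨_, rfl⟩
    obtain ⟨t, ht⟩ : ∃ t, t = √((ρ - σ) / 2) := ⟨_, rfl⟩
    have es : s ^ 2 = (ρ + σ) / 2 := by rw [hs]; exact Real.sq_sqrt (by linarith)
    have et : t ^ 2 = (ρ - σ) / 2 := by rw [ht]; exact Real.sq_sqrt (by linarith)
    have ed : s ^ 2 - t ^ 2 = σ := by rw [es, et]; ring
    have ep : (s * t) ^ 2 = 1 / (4 * (1 + c)) := by
      rw [mul_pow, es, et]
      have : (ρ + σ) / 2 * ((ρ - σ) / 2) = (ρ ^ 2 - σ ^ 2) / 4 := by ring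
      rw [this, hρ2, hσ2]
      field_simp
      ring
    have hq : qf c s t = 1 := by
      have : qf c s t = (s ^ 2 - t ^ 2) ^ 2 + 2 * (1 + c) * (s * t) ^ 2 := by unfold qf; ring
      rw [this, ed, ep, hσ2]
      field_simp
      norm_num
    have hv : (quarticNorm c h0 h3).val s t = 1 := by
      rw [quarticNorm_val, qn, hq, Real.sqrt_one, Real.sqrt_one]
    obtain ⟨a, b, hab⟩ := AbsNorm.exists_dualPair hv
    have h1 := hab.le_rotRadius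
    rw [(quarticNorm_omega h0 h3 hab).2] at h1
    refine le_trans (le_of_eq ?_) h1
    rw [mul_assoc, abs_mul, div_eq_mul_inv]
    congr 1
    have h2 : 0 ≤ s * t * (s ^ 2 - t ^ 2) := by
      rw [ed, hs, ht]; positivity
    rw [abs_of_nonneg h2]
    have h4 : (s * t * (s ^ 2 - t ^ 2)) ^ 2 = ((2 * √(2 + 2 * c))⁻¹) ^ 2 := by
      rw [mul_pow, ed, ep, hσ2, inv_pow, mul_pow, hs2]
      field_simp
      ring
    rwa [sq_eq_sq₀ h2 (by positivity), eq_comm] at h4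

end Pool.Agent.H66.SI
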