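import Pool.Agent.H66.SI.Lp

set_option autoImplicit false

/-!
The second numerical index of the real space underlying `ℂ ⊕_p ℂ` is smaller than the numerical
radius of the rotation.
-/

namespace Pool.Agent.H66.SI

open scoped InnerProductSpace

/-- An upper bound of the second numerical index from one operator. -/
theorem secondIndex_le_div {X : Type} [NormedAddCommGroup X] [NormedSpace ℝ X] {r M : ℝ}
    (hr : 0 < r) (hM : 0 ≤ M) (T : X →L[ℝ] X) (h1 : numRadius X T ≤ M)
    (h2 : ∀ S ∈ skewHerm X, r ≤ ‖T + S‖) : secondIndex X ≤ M / r := by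
  refine secondIndex_le (by positivity) (r⁻¹ • T) ?_ fun S hS => ?_
  · rw [numRadius_smul (inv_nonneg.2 hr.le), div_eq_inv_mul]
    exact mul_le_mul_of_nonneg_left h1 (inv_nonneg.2 hr.le)
  · have h3 : r • S ∈ skewHerm X := by
      rw [mem_skewHerm_iff] at hS ⊢
      intro x f hx hf hfx
      simp [hS x f hx hf hfx]
    have h4 := h2 _ h3
    have h5 : r⁻¹ • T + S = r⁻¹ • (T + r • S) := by
      rw [smul_add, smul_smul, inv_mul_cancel₀ hr.ne', one_smul]
    rw [h5, norm_smul, Real.norm_eq_abs, abs_of_pos (inv_pos.2 hr)]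
    calc (1 : ℝ) = r⁻¹ * r := (inv_mul_cancel₀ hr.ne').symm
      _ ≤ _ := mul_le_mul_of_nonneg_left h4 (inv_nonneg.2 hr.le)

namespace ASum

variable {N : AbsNorm}

/-- The projection onto the real line. -/
noncomputable def reP : ℂ →L[ℝ] ℂ := (ContinuousLinearMap.toSpanSingleton ℝ (1 : ℂ)).comp
  Complex.reCLM

/-- The projection onto the imaginary line. -/
noncomputable def imP : ℂ →L[ℝ] ℂ := (ContinuousLinearMap.toSpanSingleton ℝ Complex.I).comp
  Complex.imCLM

theorem reP_apply (y : ℂ) : reP y = (y.re : ℂ) := by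
  simp [reP]

theorem imP_apply (y : ℂ) : imP y = (y.im : ℂ) * Complex.I := by
  simp [imP]

theorem inner_eq (y z : ℂ) : ⟪y, z⟫_ℝ = y.re * z.re + y.im * z.im := by
  rw [Complex.inner]
  simp
  ring

theorem sq_of_norm {u : ℂ} (hu : ‖u‖ = 1) : u.re ^ 2 + u.im ^ 2 = 1 := by
  have := Complex.sq_norm u
  rw [hu, Complex.normSq_apply] at this
  linarith

variable (N) in
/-- The test operator. -/
noncomputable def testOp (k : ℝ) : ASum N ℂ →L[ℝ] ASum N ℂ := op N (k • imP) reP (-reP) 0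

theorem numRadius_testOp_le {k : ℝ} (hk : 0 ≤ k) (hk2 : k ≤ N.rotRadius / 2) :
    numRadius (ASum N ℂ) (testOp N k) ≤ N.rotRadius := by
  apply numRadius_op_le _ _ _ _ N.rotRadius_nonneg
  intro s t a b u v h hu hv
  have hM := N.rotRadius_nonneg
  have h1 := sq_of_norm hu
  have h2 := sq_of_norm hv
  have h3 := h.le_rotRadius
  have e : a * s * ⟪u, (k • imP) u⟫_ℝ + a * t * ⟪u, reP v⟫_ℝ + b * s * ⟪v, (-reP) u⟫_ℝ +
      b * t * ⟪v, (0 : ℂ →L[ℝ] ℂ) v⟫_ℝ = a * s * (k * u.im ^ 2) +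
      (a * t - b * s) * (u.re * v.re) := by
    change a * s * ⟪u, k • imP u⟫_ℝ + a * t * ⟪u, reP v⟫_ℝ + b * s * ⟪v, -(reP u)⟫_ℝ +
      b * t * ⟪v, (0 : ℂ)⟫_ℝ = _
    rw [real_inner_smul_right, inner_neg_right, inner_zero_right, inner_eq, inner_eq, inner_eq,
      reP_apply, reP_apply, imP_apply]
    simp
    ring
  rw [e]
  have has : |a * s| ≤ 1 := by
    rw [abs_mul]
    calc |a| * |s| ≤ 1 * 1 := mul_le_mul h.abs_a h.abs_s (abs_nonneg _) zero_le_one
      _ = 1 := by norm_num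
  have hv1 : |v.re| ≤ 1 := by
    rw [← sq_le_one_iff_abs_le_one]
    nlinarith [sq_nonneg v.im]
  have hi : 0 ≤ u.im ^ 2 := sq_nonneg _
  have hr0 := abs_nonneg u.re
  have hr2 : |u.re| ^ 2 = u.re ^ 2 := sq_abs _
  calc |a * s * (k * u.im ^ 2) + (a * t - b * s) * (u.re * v.re)|
      ≤ |a * s * (k * u.im ^ 2)| + |(a * t - b * s) * (u.re * v.re)| := abs_add_le _ _
    _ = |a * s| * (k * u.im ^ 2) + |a * t - b * s| * (|u.re| * |v.re|) := by
        rw [abs_mul, abs_mul (a * t - b * s), abs_mul u.re,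
          abs_of_nonneg (mul_nonneg hk hi)]
    _ ≤ 1 * (N.rotRadius / 2 * u.im ^ 2) + N.rotRadius * (|u.re| * 1) := by
        gcongr
    _ = N.rotRadius * (1 - (1 - |u.re|) ^ 2 / 2) := by
        have : u.im ^ 2 = 1 - |u.re| ^ 2 := by rw [hr2]; linarith
        rw [this]
        ring
    _ ≤ N.rotRadius := by nlinarith [sq_nonneg (1 - |u.re|)]

theorem testOp_add (hN : ∃ s t : ℝ, N.val s t ≠ √(s ^ 2 + t ^ 2)) {k : ℝ}
    {S : ASum N ℂ →L[ℝ] ASum N ℂ} (hS : S ∈ skewHerm (ASum N ℂ)) :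
    ∃ P Q : ℂ →L[ℝ] ℂ, (∀ y, ⟪y, P y⟫_ℝ = 0) ∧
      testOp N k + S = op N (k • imP + P) reP (-reP) Q := by
  obtain ⟨P, B, C, Q, rfl⟩ := exists_op S
  obtain ⟨hP, hB, hC, -⟩ := blocks_of_mem hN hS
  refine ⟨P, Q, hP, ?_⟩
  rw [testOp, op_add, hB, hC]
  simp

/-- First lower bound of the norm. -/
theorem le_norm_one (hN : ∃ s t : ℝ, N.val s t ≠ √(s ^ 2 + t ^ 2)) {k c s : ℝ} (hk : 0 ≤ k)
    (hc : 0 ≤ c) (hs : 0 ≤ s) (hcs : c ^ 2 + s ^ 2 = 1)
    {S : ASum N ℂ →L[ℝ] ASum N ℂ} (hS : S ∈ skewHerm (ASum N ℂ)) :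
    N.val (k * s) c ≤ ‖testOp N k + S‖ := by
  obtain ⟨P, Q, hP, e⟩ := testOp_add hN (k := k) hS
  rw [e]
  -- choice of the sign
  obtain ⟨s', hs', hsg⟩ : ∃ s' : ℝ, |s'| = s ∧ 0 ≤ s' * (P 1).im := by
    rcases le_total 0 (P 1).im with h | h
    · exact ⟨s, abs_of_nonneg hs, mul_nonneg hs h⟩
    · exact ⟨-s, by rw [abs_neg, abs_of_nonneg hs], by nlinarith⟩
  have hs2 : s' ^ 2 = s ^ 2 := by rw [← hs', sq_abs]
  set u : ℂ := ⟨c, s'⟩ with hu
  have hu1 : ‖u‖ = 1 := by
    have h1 := Complex.sq_norm u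
    rw [Complex.normSq_apply] at h1
    have h2 : ‖u‖ ^ 2 = 1 := by
      rw [h1]
      change c * c + s' * s' = 1
      nlinarith
    have h3 := norm_nonneg u
    nlinarith
  have h1 := (op N (k • imP + P) reP (-reP) Q).le_opNorm (mk N u 0)
  rw [norm_mk, hu1, norm_zero, N.one_zero', mul_one, norm_def, op_fst, op_snd, mk_fst,
    mk_snd] at h1
  refine le_trans (N.mono ?_ ?_) h1
  · rw [map_zero, add_zero, abs_of_nonneg (mul_nonneg hk hs)]
    -- the imaginary part
    have hI : (P Complex.I).im = 0 := by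
      have := hP Complex.I
      rw [inner_eq] at this
      simpa using this
    have hPu : (P u).im = c * (P 1).im := by
      have eu : u = c • (1 : ℂ) + s' • Complex.I := by
        apply Complex.ext <;> simp [hu]
      rw [eu, map_add, map_smul, map_smul, Complex.add_im, Complex.smul_im, Complex.smul_im, hI]
      simp
    have h2 : ((k • imP + P) u).im = k * s' + c * (P 1).im := by
      change (k • imP u + P u).im = _
      rw [Complex.add_im, hPu, imP_apply]
      simp [hu]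
    have h3 : |((k • imP + P) u).im| ≤ ‖(k • imP + P) u‖ := Complex.abs_im_le_norm _
    rw [h2] at h3
    refine le_trans ?_ h3
    rw [← hs']
    rcases le_total 0 s' with h4 | h4
    · rcases h4.eq_or_lt with h5 | h5
      · rw [← h5, abs_zero, mul_zero]
        exact abs_nonneg _
      · have h6 : 0 ≤ (P 1).im := by
          by_contra h7
          have := mul_neg_of_pos_of_neg h5 (not_le.1 h7)
          linarith
        rw [abs_of_nonneg h4, abs_of_nonneg (by positivity)]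
        have := mul_nonneg hc h6
        linarith
    · rcases h4.eq_or_lt with h5 | h5
      · rw [h5, abs_zero, mul_zero]
        exact abs_nonneg _
      · have h6 : (P 1).im ≤ 0 := by
          by_contra h7
          have := mul_neg_of_neg_of_pos h5 (not_le.1 h7)
          linarith
        have h7 := mul_nonneg hc (neg_nonneg.2 h6)
        have h8 := mul_nonneg hk (neg_nonneg.2 h4)
        rw [abs_of_nonpos h4, abs_of_nonpos (by linarith)]
        linarith
  · have h2 : (-reP) u + Q 0 = -(c : ℂ) := by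
      change -(reP u) + Q 0 = _
      rw [map_zero, add_zero, reP_apply]
    rw [h2, norm_neg, Complex.norm_real, Real.norm_eq_abs]

/-- Second lower bound of the norm. -/
theorem le_norm_two (hN : ∃ s t : ℝ, N.val s t ≠ √(s ^ 2 + t ^ 2)) {k δ : ℝ} (hδ : 0 ≤ δ)
    {S : ASum N ℂ →L[ℝ] ASum N ℂ} (hS : S ∈ skewHerm (ASum N ℂ)) :
    √(1 + (k * δ) ^ 2) ≤ ‖testOp N k + S‖ * N.val δ 1 := by
  obtain ⟨P, Q, hP, e⟩ := testOp_add hN (k := k) hS
  rw [e]
  obtain ⟨d, hd, hsg⟩ : ∃ d : ℝ, |d| = δ ∧ 0 ≤ d * (P Complex.I).re := by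
    rcases le_total 0 (P Complex.I).re with h | h
    · exact ⟨δ, abs_of_nonneg hδ, mul_nonneg hδ h⟩
    · exact ⟨-δ, by rw [abs_neg, abs_of_nonneg hδ], by nlinarith⟩
  have h1 := (op N (k • imP + P) reP (-reP) Q).le_opNorm (mk N (d • Complex.I) 1)
  have hn : ‖mk N (d • Complex.I) (1 : ℂ)‖ = N.val δ 1 := by
    rw [norm_mk, norm_smul, Complex.norm_I, mul_one, norm_one, Real.norm_eq_abs, hd]
  rw [hn, norm_def, op_fst, op_snd, mk_fst, mk_snd] at h1
  refine le_trans ?_ h1
  refine le_trans ?_ (le_trans (le_abs_self _) (N.abs_left_le _ _))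
  have hI : (P Complex.I).im = 0 := by
    have := hP Complex.I
    rw [inner_eq] at this
    simpa using this
  set z : ℂ := (k • imP + P) (d • Complex.I) + reP 1 with hz
  have hz1 : z = (k • (imP (d • Complex.I)) + d • P Complex.I) + reP 1 := by
    rw [hz]
    change k • imP (d • Complex.I) + P (d • Complex.I) + reP 1 = _
    rw [map_smul P]
  have hre : z.re = d * (P Complex.I).re + 1 := by
    rw [hz1, imP_apply, reP_apply]
    simp
  have him : z.im = k * d := by
    rw [hz1, imP_apply, reP_apply]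
    simp [hI]
  have h2 := Complex.sq_norm z
  rw [Complex.normSq_apply, hre, him] at h2
  rw [← Real.sqrt_sq (norm_nonneg z), h2]
  apply Real.sqrt_le_sqrt
  have h3 : (k * δ) ^ 2 = k * d * (k * d) := by
    rw [mul_pow, ← hd, sq_abs]; ring
  rw [h3]
  nlinarith

/-- Upper bound of the index, first form. -/
theorem secondIndex_le_one (hN : ∃ s t : ℝ, N.val s t ≠ √(s ^ 2 + t ^ 2)) {c s : ℝ}
    (hc : 0 ≤ c) (hs : 0 ≤ s) (hcs : c ^ 2 + s ^ 2 = 1) (hpos : 0 < N.val (N.rotRadius / 2 * s) c) :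
    secondIndex (ASum N ℂ) ≤ N.rotRadius / N.val (N.rotRadius / 2 * s) c :=
  secondIndex_le_div hpos N.rotRadius_nonneg (testOp N (N.rotRadius / 2))
    (numRadius_testOp_le (by have := N.rotRadius_nonneg; positivity) le_rfl)
    fun _ hS => le_norm_one hN (by have := N.rotRadius_nonneg; positivity) hc hs hcs hS

/-- Upper bound of the index, second form. -/
theorem secondIndex_le_two (hN : ∃ s t : ℝ, N.val s t ≠ √(s ^ 2 + t ^ 2)) {δ : ℝ}
    (hδ : 0 ≤ δ) :
    secondIndex (ASum N ℂ) ≤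
      N.rotRadius / (√(1 + (N.rotRadius / 2 * δ) ^ 2) / N.val δ 1) := by
  have h1 : 0 < N.val δ 1 := by
    have := N.abs_right_le δ 1
    rw [abs_one] at this
    linarith
  refine secondIndex_le_div (by positivity) N.rotRadius_nonneg (testOp N (N.rotRadius / 2))
    (numRadius_testOp_le (by have := N.rotRadius_nonneg; positivity) le_rfl) fun _ hS => ?_
  rw [div_le_iff₀ h1]
  exact le_norm_two hN hδ hS

end ASum

/-- `M_p` is positive. -/
theorem lpNorm_rotRadius_pos {p : ℝ} (hp : 1 < p) (h2 : p ≠ 2) :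
    0 < (lpNorm p hp.le).rotRadius := by
  rw [lpNorm_rotRadius hp]
  have hbdd : BddAbove {r : ℝ | ∃ τ : ℝ, 0 ≤ τ ∧ τ ≤ 1 ∧ r = |τ ^ (p - 1) - τ| / (1 + τ ^ p)} := by
    refine ⟨1, ?_⟩
    rintro r ⟨τ, h0, h1, rfl⟩
    have e1 : 0 ≤ τ ^ (p - 1) := Real.rpow_nonneg h0 _
    have e2 : τ ^ (p - 1) ≤ 1 := Real.rpow_le_one h0 h1 (by linarith)
    have e3 : 0 ≤ τ ^ p := Real.rpow_nonneg h0 _
    rw [div_le_one (by linarith), abs_le]
    constructor <;> linarith
  refine lt_of_lt_of_le ?_ (le_csSup hbdd ⟨1 / 2, by norm_num, by norm_num, rfl⟩)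
  apply div_pos _ (by positivity)
  rw [abs_pos, sub_ne_zero]
  intro h
  have h3 := congrArg Real.log h
  rw [Real.log_rpow (by norm_num)] at h3
  have h4 : Real.log (1 / 2) ≠ 0 := (Real.log_neg (by norm_num) (by norm_num)).ne
  have h5 : p - 1 = 1 := by
    have : (p - 1) * Real.log (1 / 2) = 1 * Real.log (1 / 2) := by rw [h3, one_mul]
    exact mul_right_cancel₀ h4 this
  exact h2 (by linarith)

theorem lpNorm_rotRadius_le {p : ℝ} (hp : 1 < p) : (lpNorm p hp.le).rotRadius ≤ 1 := by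
  rw [lpNorm_rotRadius hp]
  apply Real.sSup_le _ zero_le_one
  rintro r ⟨τ, h0, h1, rfl⟩
  have e1 : 0 ≤ τ ^ (p - 1) := Real.rpow_nonneg h0 _
  have e2 : τ ^ (p - 1) ≤ 1 := Real.rpow_le_one h0 h1 (by linarith)
  have e3 : 0 ≤ τ ^ p := Real.rpow_nonneg h0 _
  rw [div_le_one (by linarith), abs_le]
  constructor <;> linarith

/-- The strict inequality. -/
theorem lp_strict {p : ℝ} (hp : 1 < p) (h2 : p ≠ 2) :
    secondIndex (ASum (lpNorm p hp.le) ℂ) < (lpNorm p hp.le).rotRadius := by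
  have hN := lpNorm_ne p hp.le h2
  have hM := lpNorm_rotRadius_pos hp h2
  have hM1 := lpNorm_rotRadius_le hp
  set M := (lpNorm p hp.le).rotRadius with hMd
  have hp0 : 0 < p := by linarith
  have hk : 0 < M / 2 := by positivity
  rcases lt_or_gt_of_ne h2 with h | h
  · -- `p < 2`
    have h2p : 0 < 2 - p := by linarith
    set A : ℝ := (M / 2) ^ p with hA
    have hA0 : 0 < A := Real.rpow_pos_of_pos hk p
    have hA1 : A ≤ 1 := Real.rpow_le_one hk.le (by linarith) hp0.le
    set s : ℝ := (A / 2) ^ (1 / (2 - p)) with hs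
    have hs0 : 0 < s := by rw [hs]; positivity
    have hsp : s ^ (2 - p) = A / 2 := by
      rw [hs, ← Real.rpow_mul (by positivity), one_div_mul_cancel h2p.ne', Real.rpow_one]
    have hs1 : s ≤ 1 := by
      rw [hs]
      exact Real.rpow_le_one (by positivity) (by linarith) (by positivity)
    have hs2 : s ^ (2 : ℕ) < A * s ^ p := by
      have e : s ^ (2 : ℕ) = s ^ (2 - p) * s ^ p := by
        rw [← Real.rpow_add hs0, ← Real.rpow_natCast s 2]
        congr 1
        push_cast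
        ring
      rw [e, hsp]
      have := Real.rpow_pos_of_pos hs0 p
      nlinarith
    set c : ℝ := √(1 - s ^ 2) with hc
    have hss : s ^ 2 ≤ 1 := by nlinarith
    have hc0 : 0 ≤ c := Real.sqrt_nonneg _
    have hc2 : c ^ 2 = 1 - s ^ 2 := Real.sq_sqrt (by linarith)
    have hc1 : c ≤ 1 := by nlinarith
    have hcp : c ^ (2 : ℕ) ≤ c ^ p := by
      rcases hc0.eq_or_lt with h0 | h0
      · rw [← h0, Real.zero_rpow hp0.ne']; norm_num
      · rw [← Real.rpow_natCast c 2]
        exact Real.rpow_le_rpow_of_exponent_ge h0 hc1 (by push_cast; linarith)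
    have hval : 1 < (lpNorm p hp.le).val (M / 2 * s) c := by
      have h3 := lpNorm_rpow p hp.le (M / 2 * s) c
      rw [abs_of_nonneg (by positivity), abs_of_nonneg hc0, Real.mul_rpow hk.le hs0.le,
        ← hA] at h3
      by_contra h4
      have h5 : (lpNorm p hp.le).val (M / 2 * s) c ^ p ≤ 1 :=
        Real.rpow_le_one (AbsNorm.nonneg _ _ _) (not_lt.1 h4) hp0.le
      rw [h3] at h5
      linarith
    have h6 := ASum.secondIndex_le_one hN hc0 hs0.le (by linarith)
      (lt_trans zero_lt_one (by rw [← hMd]; exact hval))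
    rw [← hMd] at h6
    refine lt_of_le_of_lt h6 ?_
    rw [div_lt_iff₀ (by linarith)]
    nlinarith
  · -- `2 < p`
    have h2p : 0 < p - 2 := by linarith
    set A : ℝ := (M / 2) ^ 2 with hA
    have hA0 : 0 < A := by positivity
    set δ : ℝ := (A / 2) ^ (1 / (p - 2)) with hδ
    have hδ0 : 0 < δ := by rw [hδ]; positivity
    have hδp : δ ^ (p - 2) = A / 2 := by
      rw [hδ, ← Real.rpow_mul (by positivity), one_div_mul_cancel h2p.ne', Real.rpow_one]
    have hδ2 : δ ^ p < A * δ ^ (2 : ℕ) := by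
      have e : δ ^ p = δ ^ (p - 2) * δ ^ (2 : ℕ) := by
        rw [← Real.rpow_natCast δ 2, ← Real.rpow_add hδ0]
        congr 1
        push_cast
        ring
      rw [e, hδp]
      have : 0 < δ ^ (2 : ℕ) := by positivity
      nlinarith
    have hv0 : 0 < (lpNorm p hp.le).val δ 1 := by
      have := (lpNorm p hp.le).abs_right_le δ 1
      rw [abs_one] at this
      linarith
    have hval : (lpNorm p hp.le).val δ 1 < √(1 + (M / 2 * δ) ^ 2) := by
      by_contra h4
      have h5 : √(1 + (M / 2 * δ) ^ 2) ^ p ≤ (lpNorm p hp.le).val δ 1 ^ p :=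
        Real.rpow_le_rpow (Real.sqrt_nonneg _) (not_lt.1 h4) hp0.le
      rw [lpNorm_rpow, abs_of_pos hδ0, abs_one, Real.one_rpow] at h5
      have h6 : 1 + (M / 2 * δ) ^ 2 ≤ √(1 + (M / 2 * δ) ^ 2) ^ p := by
        have h7 : (1 : ℝ) ≤ √(1 + (M / 2 * δ) ^ 2) := by
          rw [Real.one_le_sqrt]
          nlinarith [sq_nonneg (M / 2 * δ)]
        have h8 : √(1 + (M / 2 * δ) ^ 2) ^ (2 : ℝ) ≤ √(1 + (M / 2 * δ) ^ 2) ^ p :=
          Real.rpow_le_rpow_of_exponent_le h7 h.le
        have h9 : √(1 + (M / 2 * δ) ^ 2) ^ (2 : ℝ) = 1 + (M / 2 * δ) ^ 2 := by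
          rw [Real.rpow_two]
          exact Real.sq_sqrt (by positivity)
        linarith
      have h7 : (M / 2 * δ) ^ 2 = A * δ ^ (2 : ℕ) := by rw [hA]; ring
      rw [h7] at h6 h5
      linarith
    have h6 := ASum.secondIndex_le_two (N := lpNorm p hp.le) hN hδ0.le
    rw [← hMd] at h6
    refine lt_of_le_of_lt h6 ?_
    have h7 : 1 < √(1 + (M / 2 * δ) ^ 2) / (lpNorm p hp.le).val δ 1 := by
      rwa [one_lt_div hv0]
    rw [div_lt_iff₀ (by linarith)]
    nlinarith

end Pool.Agent.H66.SI
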