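import Pool.Agent.H66.SI.Near3

set_option autoImplicit false

/-!
Two-sided bounds of the second numerical index of `E ⊕_N E` for symmetric absolute norms.
-/

namespace Pool.Agent.H66.SI

open scoped InnerProductSpace

namespace AbsNorm

variable {N : AbsNorm}

theorem IsDualPair.mul_nonneg_left {s t a b : ℝ} (h : N.IsDualPair s t a b) : 0 ≤ a * s := by
  have h1 := h.2.2 (-s) t
  rw [N.neg_left, h.1] at h1
  have := h.2.1
  linarith

theorem IsDualPair.mul_nonneg_right {s t a b : ℝ} (h : N.IsDualPair s t a b) : 0 ≤ b * t := by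
  have h1 := h.2.2 s (-t)
  rw [N.neg_right, h.1] at h1
  have := h.2.1
  linarith

end AbsNorm

/-- Two numbers of the same sign. -/
theorem abs_sub_mul_abs_le {A B β γ V : ℝ} (hAB : 0 ≤ A * B) (h1 : |A * β + B * γ| ≤ V)
    (h2 : |B * β + A * γ| ≤ V) : |A - B| * |β| ≤ V := by
  have hV : 0 ≤ V := (abs_nonneg _).trans h1
  have hS : |A + B| = |A| + |B| := by
    rcases abs_cases A with ⟨e1, g1⟩ | ⟨e1, g1⟩ <;> rcases abs_cases B with ⟨e2, g2⟩ | ⟨e2, g2⟩
    · rw [e1, e2, abs_of_nonneg (by linarith)]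
    · have : A = 0 := by
        by_contra hc
        have : 0 < A := lt_of_le_of_ne g1 (Ne.symm hc)
        nlinarith
      rw [this]; simp
    · have : B = 0 := by
        by_contra hc
        have : 0 < B := lt_of_le_of_ne g2 (Ne.symm hc)
        nlinarith
      rw [this]; simp
    · rw [e1, e2, abs_of_neg (by linarith)]; ring
  rcases (abs_nonneg (A + B)).eq_or_lt with h0 | h0
  · have hA : |A| = 0 := by
      have := abs_nonneg A
      have := abs_nonneg B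
      linarith
    have hB : |B| = 0 := by
      have := abs_nonneg A
      have := abs_nonneg B
      linarith
    rw [abs_eq_zero.1 hA, abs_eq_zero.1 hB]
    simpa using hV
  · have h3 : |A + B| * (|A - B| * |β|) ≤ |A + B| * V := by
      calc |A + B| * (|A - B| * |β|) = |A * (A * β + B * γ) - B * (B * β + A * γ)| := by
            rw [← abs_mul, ← abs_mul]; congr 1; ring
        _ ≤ |A * (A * β + B * γ)| + |B * (B * β + A * γ)| := abs_sub _ _
        _ = |A| * |A * β + B * γ| + |B| * |B * β + A * γ| := by rw [abs_mul, abs_mul B]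
        _ ≤ |A| * V + |B| * V := by gcongr
        _ = |A + B| * V := by rw [hS]; ring
    exact le_of_mul_le_mul_left h3 h0

namespace ASum

variable {N : AbsNorm} {E : Type} [NormedAddCommGroup E] [InnerProductSpace ℝ E]

theorem offdiag_values (hN : ∀ s t, N.val t s = N.val s t) (P B C Q : E →L[ℝ] E) {u v : E}
    (hu : ‖u‖ = 1) (hv : ‖v‖ = 1) :
    N.rotRadius * |⟪u, B v⟫_ℝ| ≤ numRadius (ASum N E) (op N P B C Q) ∧
      N.rotRadius * |⟪v, C u⟫_ℝ| ≤ numRadius (ASum N E) (op N P B C Q) := by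
  set V := numRadius (ASum N E) (op N P B C Q) with hV
  have hV0 : 0 ≤ V := numRadius_nonneg _
  have key : ∀ s t a b : ℝ, N.IsDualPair s t a b → |a * t - b * s| * |⟪u, B v⟫_ℝ| ≤ V ∧
      |a * t - b * s| * |⟪v, C u⟫_ℝ| ≤ V := by
    intro s t a b h
    have i1 := diag_add_offdiag_le P B C Q h hu hv
    have i2 := diag_add_offdiag_le P B C Q (h.swap hN) hu hv
    rw [← hV] at i1 i2
    have g1 := abs_nonneg (a * s * ⟪u, P u⟫_ℝ + b * t * ⟪v, Q v⟫_ℝ)
    have g2 := abs_nonneg (b * t * ⟪u, P u⟫_ℝ + a * s * ⟪v, Q v⟫_ℝ)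
    have hAB : 0 ≤ a * t * (b * s) := by
      have := mul_nonneg h.mul_nonneg_left h.mul_nonneg_right
      calc 0 ≤ a * s * (b * t) := this
        _ = _ := by ring
    constructor
    · exact abs_sub_mul_abs_le hAB (γ := ⟪v, C u⟫_ℝ) (by linarith) (by linarith)
    · rw [abs_sub_comm]
      exact abs_sub_mul_abs_le (by linarith) (γ := ⟪u, B v⟫_ℝ)
        (by rw [add_comm]; linarith) (by rw [add_comm]; linarith)
  exact ⟨AbsNorm.rotRadius_mul_le hV0 fun s t a b h => (key s t a b h).1,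
    AbsNorm.rotRadius_mul_le hV0 fun s t a b h => (key s t a b h).2⟩

theorem diag_values (P B C Q : E →L[ℝ] E) {u : E} (hu : ‖u‖ = 1) :
    |⟪u, P u⟫_ℝ| ≤ numRadius (ASum N E) (op N P B C Q) ∧
      |⟪u, Q u⟫_ℝ| ≤ numRadius (ASum N E) (op N P B C Q) := by
  constructor
  · have := le_numRadius_op P B C Q (N.isDualPair_one_zero) hu hu
    simpa using this
  · have := le_numRadius_op P B C Q (N.isDualPair_zero_one) hu hu
    simpa using this

/-- The norm of a symmetric operator from its form. -/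
theorem norm_le_of_form [Nontrivial E] {P : E →L[ℝ] E} (hP : ∀ y z : E, ⟪y, P z⟫_ℝ = ⟪z, P y⟫_ℝ)
    {V : ℝ} (h : ∀ u : E, ‖u‖ = 1 → |⟪u, P u⟫_ℝ| ≤ V) (y : E) : ‖P y‖ ≤ V * ‖y‖ := by
  have hV : 0 ≤ V := by
    obtain ⟨u, hu⟩ := exists_norm_eq E zero_le_one
    exact (abs_nonneg _).trans (h u hu)
  have hform : ∀ w : E, |⟪w, P w⟫_ℝ| ≤ V * ‖w‖ ^ 2 := by
    intro w
    obtain ⟨v, hv, hw, -⟩ := exists_unit w
    have e1 : |⟪w, P w⟫_ℝ| = ‖w‖ ^ 2 * |⟪v, P v⟫_ℝ| := by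
      conv_lhs => rw [hw]
      rw [map_smul, real_inner_smul_left, real_inner_smul_right, abs_mul, abs_mul, abs_norm]
      ring
    rw [e1]
    have := mul_le_mul_of_nonneg_left (h v hv) (sq_nonneg ‖w‖)
    linarith
  have hcs : ∀ y z : E, 2 * ⟪y, P z⟫_ℝ ≤ V * (‖y‖ ^ 2 + ‖z‖ ^ 2) := by
    intro y z
    have h1 := abs_le.1 (hform (y + z))
    have h2 := abs_le.1 (hform (y - z))
    have e1 : ⟪y + z, P (y + z)⟫_ℝ = ⟪y, P y⟫_ℝ + ⟪z, P z⟫_ℝ + 2 * ⟪y, P z⟫_ℝ := by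
      rw [map_add, inner_add_left, inner_add_right, inner_add_right, hP z y]
      ring
    have e2 : ⟪y - z, P (y - z)⟫_ℝ = ⟪y, P y⟫_ℝ + ⟪z, P z⟫_ℝ - 2 * ⟪y, P z⟫_ℝ := by
      rw [map_sub, inner_sub_left, inner_sub_right, inner_sub_right, hP z y]
      ring
    have e3 : ‖y + z‖ ^ 2 + ‖y - z‖ ^ 2 = 2 * (‖y‖ ^ 2 + ‖z‖ ^ 2) := by
      have := parallelogram_law_with_norm ℝ y z
      nlinarith
    rw [e1] at h1
    rw [e2] at h2
    have e4 : V * ‖y + z‖ ^ 2 + V * ‖y - z‖ ^ 2 = 2 * (V * (‖y‖ ^ 2 + ‖z‖ ^ 2)) := by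
      rw [← mul_add, e3]; ring
    linarith
  obtain ⟨u, hu, hu1, hu2⟩ := exists_unit (P y)
  have h1 := hcs (‖y‖ • u) y
  rw [real_inner_smul_left, hu2, norm_smul, norm_norm, hu, mul_one] at h1
  rcases (norm_nonneg y).eq_or_lt with h0 | h0
  · have : y = 0 := norm_eq_zero.1 h0.symm
    rw [this]; simp
  · have h2 : ‖y‖ * ‖P y‖ ≤ ‖y‖ * (V * ‖y‖) := by nlinarith
    exact le_of_mul_le_mul_left h2 h0

theorem norm_le_of_values [Nontrivial E] {B : E →L[ℝ] E} {K : ℝ}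
    (h : ∀ u v : E, ‖u‖ = 1 → ‖v‖ = 1 → |⟪u, B v⟫_ℝ| ≤ K) (w : E) : ‖B w‖ ≤ K * ‖w‖ := by
  obtain ⟨v, hv, hw, -⟩ := exists_unit w
  obtain ⟨u, hu, -, hu2⟩ := exists_unit (B v)
  have h1 := h u v hu hv
  rw [hu2, abs_norm] at h1
  have e : ‖B w‖ = ‖w‖ * ‖B v‖ := by
    conv_lhs => rw [hw]
    rw [map_smul, norm_smul, norm_norm]
  rw [e]
  have := mul_le_mul_of_nonneg_left h1 (norm_nonneg w)
  linarith

/-- The lower estimate for symmetric norms. -/
theorem sym_norm_le [Nontrivial E] (hN : ∀ s t, N.val t s = N.val s t) {P B C Q : E →L[ℝ] E}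
    (hP : ∀ y z : E, ⟪y, P z⟫_ℝ = ⟪z, P y⟫_ℝ) (hQ : ∀ y z : E, ⟪y, Q z⟫_ℝ = ⟪z, Q y⟫_ℝ) :
    N.rotRadius / (1 + N.rotRadius) * ‖op N P B C Q‖ ≤
      numRadius (ASum N E) (op N P B C Q) := by
  rcases N.rotRadius_nonneg.eq_or_lt with hM | hM
  · rw [← hM, zero_div, zero_mul]
    exact numRadius_nonneg _
  set V := numRadius (ASum N E) (op N P B C Q) with hV
  have hV0 : 0 ≤ V := numRadius_nonneg _
  set M := N.rotRadius with hMd
  have nP := norm_le_of_form hP (fun u hu => (diag_values (N := N) P B C Q hu).1)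
  have nQ := norm_le_of_form hQ (fun u hu => (diag_values (N := N) P B C Q hu).2)
  have nB := norm_le_of_values (B := B) (K := V / M) (fun u v hu hv => by
    rw [le_div_iff₀ hM, mul_comm]
    exact (offdiag_values hN P B C Q hu hv).1)
  have nC := norm_le_of_values (B := C) (K := V / M) (fun v u hv hu => by
    rw [le_div_iff₀ hM, mul_comm]
    exact (offdiag_values hN P B C Q hu hv).2)
  rw [← hV] at nP nQ
  have hVM : 0 ≤ V / M := by positivity
  have h1 : ‖op N P B C Q‖ ≤ V + V / M := by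
    refine ContinuousLinearMap.opNorm_le_bound _ (by positivity) fun x => ?_
    rw [norm_def, norm_def, op_fst, op_snd]
    have e1 : ‖P x.1 + B x.2‖ ≤ V * ‖x.1‖ + V / M * ‖x.2‖ :=
      (norm_add_le _ _).trans (add_le_add (nP _) (nB _))
    have e2 : ‖C x.1 + Q x.2‖ ≤ V * ‖x.2‖ + V / M * ‖x.1‖ := by
      refine (norm_add_le _ _).trans ?_
      have := nC x.1
      have := nQ x.2
      linarith
    calc N.val ‖P x.1 + B x.2‖ ‖C x.1 + Q x.2‖
        ≤ N.val (V * ‖x.1‖ + V / M * ‖x.2‖) (V * ‖x.2‖ + V / M * ‖x.1‖) :=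
          N.mono (by rwa [abs_norm]) (by rwa [abs_norm])
      _ ≤ N.val (V * ‖x.1‖) (V * ‖x.2‖) + N.val (V / M * ‖x.2‖) (V / M * ‖x.1‖) :=
          N.add_le' _ _ _ _
      _ = V * N.val ‖x.1‖ ‖x.2‖ + V / M * N.val ‖x.1‖ ‖x.2‖ := by
          rw [N.smul', N.smul', abs_of_nonneg hV0, abs_of_nonneg hVM, hN]
      _ = (V + V / M) * N.val ‖x.1‖ ‖x.2‖ := by ring
  have h2 : 0 ≤ M / (1 + M) := by positivity
  calc M / (1 + M) * ‖op N P B C Q‖ ≤ M / (1 + M) * (V + V / M) :=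
        mul_le_mul_of_nonneg_left h1 h2
    _ = V := by field_simp; ring

/-- Bounds for symmetric norms. -/
theorem secondIndex_sym [CompleteSpace E] [Nontrivial E] (hs : ∀ s t, N.val t s = N.val s t)
    (hN : ∃ s t : ℝ, N.val s t ≠ √(s ^ 2 + t ^ 2)) :
    N.rotRadius / (1 + N.rotRadius) ≤ secondIndex (ASum N E) ∧
      secondIndex (ASum N E) ≤ N.rotRadius := by
  refine ⟨le_secondIndex_of hN ?_ fun _ _ _ _ hP hQ => sym_norm_le hs hP hQ,
    secondIndex_le_rotRadius hN⟩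
  have := N.rotRadius_nonneg
  positivity

end ASum

end Pool.Agent.H66.SI
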